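import Pool.Agent.H90.S6R.H4R

/-!
# Falling windows, one family: the data of theorem OC in a context

One direction `a` and one slope `s` for all the windows of the chain; only `t` depends on the
window. The row of the normal position is then a row of theorem OC with the coordinates `0` and
`2`: `ocdataF`. (H3): `h3f`, with the step of the telescope over the windows at fixed `q`,
`h3f_step`. (H4): `h4f`.
-/

set_option autoImplicit false

namespace Pool.S6N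

open Finset Real
open Pool.Agent.H49.Ent Pool.Agent.H32.Dense Pool.STK Pool.KA Pool.KA.Box Pool.KSAT Pool.K2S

section fall

variable {J : ℕ} {F : Fam 3 J} {A : F.Ω → Prop} {σ : Fin 3 → Fin 3} {w q V H X : ℕ} {D : ℝ}
  {a s t a' s' t' : F.Ω → ℝ}

/-- The position of the first coordinate at the exact time. -/
noncomputable def ye (F : Fam 3 J) (σ : Fin 3 → Fin 3) (w q V H X : ℕ) (a s t : F.Ω → ℝ)
    (ω : F.Ω) : ℝ := yy F σ w q V H X a s t 0 ω + F.wt w ω * om F σ q V H X a s t 0 ω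

theorem SS1_zero (V H : ℕ) (a s t t' : F.Ω → ℝ) (ω : F.Ω) : SS V H a s t s t' 1 ω = 0 := by
  change (2 : ℝ) ^ H * (s ω - s ω) = 0
  ring

/-- The row with one slope. -/
theorem nn_one (ω : F.Ω) : nn F σ w q V H X a s t s t' ω =
    yy F σ w q V H X a s t 2 ω + F.wt w ω * om F σ q V H X a s t 2 ω -
      SS V H a s t s t' 0 ω * (yy F σ w q V H X a s t 0 ω +
        F.wt w ω * om F σ q V H X a s t 0 ω) := by
  unfold nn
  rw [Fin.sum_univ_two, SS1_zero]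
  change yy F σ w q V H X a s t 2 ω + F.wt w ω * om F σ q V H X a s t 2 ω -
    (SS V H a s t s t' 0 ω * (yy F σ w q V H X a s t 0 ω +
      F.wt w ω * om F σ q V H X a s t 0 ω) + 0 * _) = _
  ring

/-- **The dictionary** for theorem OC. -/
theorem ocdataF (hσ : Function.Injective σ) (hD4 : D ≤ 4)
    (hF : Frg F A w V H D a s t a s t') (hQ : IsLaw (Pool.Agent.H49.Ent.cond F.p A True)) :
    OCData (Pool.Agent.H49.Ent.cond F.p A True) (ctx F σ w q V H a s t)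
      (blk F σ w q V H X a s t) (gt F a s t') (yy F σ w q V H X a s t 0)
      (om F σ q V H X a s t 0) (om F σ q V H X a s t 2) (yy F σ w q V H X a s t 2) (F.wt w)
      (SS V H a s t s t' 0) (nn F σ w q V H X a s t s t') := by
  have key := ocsdata (F := F) (σ := σ) (q := q) (X := X) hσ (B := 2) (by norm_num; linarith)
    hF hQ
  have hA : ∀ ω, 0 < Pool.Agent.H49.Ent.cond F.p A True ω → A ω := fun ω hω =>
    of_eq_true ((cond_pos_iff F.isLaw.nonneg A True ω).1 hω).2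
  exact ⟨hQ, key.dy 0, key.dom 0, key.dbe, key.dm0, key.dth, key.dS 0,
    fun ω _ => yy_mem _ ω, fun ω _ => om_mem _ ω, fun ω _ => om_mem _ ω,
    fun ω _ => Lab.wt_mem F w ω, fun ω hω => (SS_le hF 0 (hA ω hω)).trans hD4,
    fun ω _ => nn_one ω⟩

/-- **(H3), one context**: the position at the beginning of the window is free given the velocity,
if the position at the exact time is free and nearly independent of the velocity. -/
theorem h3f {p : F.Ω → ℝ} (hp : IsLaw p) (G : F.Ω → ℕ × (ℝ × ℝ × ℝ))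
    (hG : ∀ ω ω', G ω = G ω' → F.T ω = F.T ω') :
    CH p (Uni.dg X (ye F σ w q V H X a s t)) (fun ω => (ctx F σ w q V H a s t ω, G ω)) -
      (CH p (Uni.dg X (om F σ q V H X a s t 0)) (fun ω => (ctx F σ w q V H a s t ω, G ω)) -
        CH p (Uni.dg X (om F σ q V H X a s t 0)) (fun ω =>
          (Uni.dg X (ye F σ w q V H X a s t) ω, (ctx F σ w q V H a s t ω, G ω)))) ≤
      CH p (Uni.dg X (yy F σ w q V H X a s t 0))
        (fun ω => (Uni.dg X (om F σ q V H X a s t 0) ω, ctx F σ w q V H a s t ω)) := by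
  have h0 := hp.nonneg
  obtain ⟨y, hy⟩ : ∃ f, f = Uni.dg X (ye F σ w q V H X a s t) := ⟨_, rfl⟩
  obtain ⟨o, ho⟩ : ∃ f, f = Uni.dg X (om F σ q V H X a s t 0) := ⟨_, rfl⟩
  obtain ⟨z, hz⟩ : ∃ f, f = Uni.dg X (yy F σ w q V H X a s t 0) := ⟨_, rfl⟩
  obtain ⟨c, hc⟩ : ∃ f, f = fun ω => (ctx F σ w q V H a s t ω, G ω) := ⟨_, rfl⟩
  have hcc : (fun ω => (Uni.dg X (ye F σ w q V H X a s t) ω,
      (ctx F σ w q V H a s t ω, G ω))) = fun ω => (y ω, c ω) := by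
    rw [hc, hy]
  rw [hcc, ← hy, ← ho, ← hz, ← hc]
  have k1 : CH p z (fun ω => (o ω, c ω)) ≤
      CH p z (fun ω => (o ω, ctx F σ w q V H a s t ω)) := by
    refine CH_mono_cond h0 ?_
    intro ω ω' _ _ h
    have h1 := Prod.ext_iff.mp h
    rw [hc] at h1
    exact Prod.ext h1.1 (Prod.ext_iff.mp h1.2).1
  have k2 := CH_le_add h0 y z (fun ω => (o ω, c ω))
  have k3 : CH p y (fun ω => (z ω, (o ω, c ω))) = 0 := by
    refine CH_eq_zero h0 ?_
    intro ω ω' _ _ h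
    have h1 := Prod.ext_iff.mp h
    have h2 := Prod.ext_iff.mp h1.2
    have h3 : c ω = c ω' := h2.2
    rw [hc] at h3
    have h4 := Prod.ext_iff.mp h3
    have hT := hG ω ω' h4.2
    have e1 : yy F σ w q V H X a s t 0 ω = yy F σ w q V H X a s t 0 ω' := by
      have h5 : z ω = z ω' := h1.1
      rw [hz, dg_yy, dg_yy] at h5
      change ((blk F σ w q V H X a s t ω).1 0 : ℝ) / 2 ^ X = (blk F σ w q V H X a s t ω').1 0 /
        2 ^ X
      rw [h5]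
    have e2 : om F σ q V H X a s t 0 ω = om F σ q V H X a s t 0 ω' := by
      have h5 : o ω = o ω' := h2.1
      rw [ho, dg_om (w := w), dg_om (w := w)] at h5
      change ((blk F σ w q V H X a s t ω).2 0 : ℝ) / 2 ^ X = (blk F σ w q V H X a s t ω').2 0 /
        2 ^ X
      rw [h5]
    have e3 : F.wt w ω = F.wt w ω' := by
      unfold Fam.wt
      rw [hT]
    rw [hy]
    unfold Uni.dg ye
    rw [e1, e2, e3]
  have k4 : CH p y c + CH p o (fun ω => (y ω, c ω)) =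
      CH p o c + CH p y (fun ω => (o ω, c ω)) := by
    have a1 := CH_chain h0 y o c
    have a2 := CH_chain h0 o y c
    have a3 : CH p (fun ω => (y ω, o ω)) c = CH p (fun ω => (o ω, y ω)) c := by
      refine le_antisymm (CH_mono_left h0 ?_) (CH_mono_left h0 ?_)
      · intro ω ω' _ _ h
        have h1 := Prod.ext_iff.mp (Prod.ext_iff.mp h).1
        exact Prod.ext h1.2 h1.1
      · intro ω ω' _ _ h
        have h1 := Prod.ext_iff.mp (Prod.ext_iff.mp h).1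
        exact Prod.ext h1.2 h1.1
    linarith
  linarith

/-- The position of the first coordinate at the exact time is near in two samples with the same
context of another window with the same velocities. -/
theorem ye_near (hw : w ≤ J) {w₁ V₁ H₁ : ℕ} {a₁ s₁ t₁ : F.Ω → ℝ} (hw₁ : w₁ ≤ J)
    (hwX : w₁ + X ≤ w) {ω ω' : F.Ω}
    (h : ctx F σ w q V H a s t ω = ctx F σ w q V H a s t ω')
    (h₁ : ctx F σ w₁ q V₁ H₁ a₁ s₁ t₁ ω = ctx F σ w₁ q V₁ H₁ a₁ s₁ t₁ ω')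
    (hT : F.T ω = F.T ω') :
    |ye F σ w₁ q V₁ H₁ X a₁ s₁ t₁ ω - ye F σ w₁ q V₁ H₁ X a₁ s₁ t₁ ω'| ≤ 6 / 2 ^ X := by
  have hX : (0 : ℝ) < 2 ^ X := by positivity
  -- the position
  have k1 := mx_near (F := F) (c := cv q V H) (M := fr σ a s t) hw h hT 0
  have k2 : |F.x ω (σ 0) - F.x ω' (σ 0)| ≤ 2 / 2 ^ (q + w) := by
    change |2 ^ (q + w) * mco (tfr σ (a ω) (s ω) (t ω)) (F.x ω) 0 -
      2 ^ (q + w) * mco (tfr σ (a ω) (s ω) (t ω)) (F.x ω') 0| ≤ 2 at k1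
    rw [mco_tfr0, mco_tfr0, ← mul_sub, abs_mul,
      abs_of_pos (by positivity : (0 : ℝ) < 2 ^ (q + w))] at k1
    rw [le_div_iff₀ (by positivity), mul_comm]
    exact k1
  have p1 := pos_eq F hw₁ (cv q V₁ H₁) (fr σ a₁ s₁ t₁) ω 0
  have p2 := pos_eq F hw₁ (cv q V₁ H₁) (fr σ a₁ s₁ t₁) ω' 0
  have hk := mkn_det (F := F) (c := cv q V₁ H₁) (M := fr σ a₁ s₁ t₁) (w := w₁) h₁ hT
  rw [← hk] at p2
  change 2 ^ (q + w₁) * mco (tfr σ (a₁ ω) (s₁ ω) (t₁ ω)) (F.x ω) 0 = _ at p1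
  change 2 ^ (q + w₁) * mco (tfr σ (a₁ ω') (s₁ ω') (t₁ ω')) (F.x ω') 0 = _ at p2
  rw [mco_tfr0] at p1 p2
  have k3 : |F.mx w₁ (cv q V₁ H₁) (fr σ a₁ s₁ t₁) ω 0 -
      F.mx w₁ (cv q V₁ H₁) (fr σ a₁ s₁ t₁) ω' 0| ≤ 2 / 2 ^ X := by
    have e : F.mx w₁ (cv q V₁ H₁) (fr σ a₁ s₁ t₁) ω 0 -
        F.mx w₁ (cv q V₁ H₁) (fr σ a₁ s₁ t₁) ω' 0 =
        2 ^ (q + w₁) * (F.x ω (σ 0) - F.x ω' (σ 0)) := by
      rw [mul_sub]
      linarith
    rw [e, abs_mul, abs_of_pos (by positivity : (0 : ℝ) < 2 ^ (q + w₁))]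
    refine (mul_le_mul_of_nonneg_left k2 (by positivity)).trans ?_
    have e2 : (2 : ℝ) ^ (q + w₁) * (2 / 2 ^ (q + w)) = 2 * 2 ^ (q + w₁) / 2 ^ (q + w) := by ring
    rw [e2]
    have e3 : 2 / (2 : ℝ) ^ X = 2 * 2 ^ 0 / 2 ^ X := by ring
    rw [e3]
    exact pow_le_div (by norm_num) (by omega)
  have y1 := yt_near (F := F) (σ := σ) (w := w₁) (q := q) (V := V₁) (H := H₁) (X := X)
    (a := a₁) (s := s₁) (t := t₁) 0 ω
  have y2 := yt_near (F := F) (σ := σ) (w := w₁) (q := q) (V := V₁) (H := H₁) (X := X)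
    (a := a₁) (s := s₁) (t := t₁) 0 ω'
  unfold ye
  have e : 6 / (2 : ℝ) ^ X = 2 / 2 ^ X + 2 / 2 ^ X + 2 / 2 ^ X := by ring
  rw [e]
  rw [abs_le] at k3 y1 y2 ⊢
  constructor <;> linarith [k3.1, k3.2, y1.1, y1.2, y2.1, y2.2]

/-- **The step of the telescope over the windows at fixed `q`.** The window `w` is the shorter
one. -/
theorem h3f_step (hw : w ≤ J) {w₁ V₁ : ℕ} {t₁ : F.Ω → ℝ} (hw₁ : w₁ ≤ J) (hwX : w₁ + X ≤ w)
    (hV : V₁ ≤ V) (hD : 1 ≤ D) (hF : Frg F A w V H D a s t a s t')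
    (hF₁ : Frg F A w₁ V₁ H D a s t₁ a s t')
    (hQ : IsLaw (Pool.Agent.H49.Ent.cond F.p A True)) :
    CH (Pool.Agent.H49.Ent.cond F.p A True)
      (fun ω => (Uni.dg X (ye F σ w₁ q V₁ H X a s t₁) ω, ctx F σ w₁ q V₁ H a s t₁ ω))
      (fun ω => (ctx F σ w q V H a s t ω, gt F a s t' ω)) ≤
      Real.log 15 + (3 * Real.log (2 * D + 1) + 2 * ((3 : ℕ) * Real.log (12 * (2 * D) + 3))) := by
  obtain ⟨p, hp'⟩ : ∃ p, p = Pool.Agent.H49.Ent.cond F.p A True := ⟨_, rfl⟩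
  have hfrk := CH_fr (F := F) (A := A) (b := ctx F σ w q V H a s t) hF₁
    (by linarith : (0 : ℝ) ≤ D) hQ
  rw [← hp'] at hQ hfrk ⊢
  have hA : ∀ ω, 0 < p ω → A ω := fun ω hω => by
    rw [hp'] at hω
    exact of_eq_true ((cond_pos_iff F.isLaw.nonneg A True ω).1 hω).2
  have h0 := hQ.nonneg
  obtain ⟨W, hW⟩ : ∃ f, f = fun ω => (ctx F σ w q V H a s t ω, gt F a s t' ω) := ⟨_, rfl⟩
  rw [← hW] at hfrk ⊢
  have s2 : CH p (ctx F σ w₁ q V₁ H a s t₁) (fun ω => ((t₁ ω, (s ω, a ω)), W ω)) ≤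
      2 * ((3 : ℕ) * Real.log (12 * (2 * D) + 3)) := by
    refine CH_blb_vel (F := F) (σ := σ) (c := cv q V H) (c' := cv q V₁ H) (a := a) (s := s)
      (t := t) (a' := a) (s' := s) (t' := t₁) hQ hw (by omega) (by linarith) ?_ ?_ ?_ ?_
      (fun ω => ((t₁ ω, (s ω, a ω)), W ω)) ?_
    · intro i
      fin_cases i
      · exact le_rfl
      · exact Nat.add_le_add_left hV q
      · change q + (V₁ + H) ≤ q + (V + H)
        omega
    · intro ω _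
      rw [sub_self, abs_zero]
      positivity
    · intro ω _
      rw [sub_self, abs_zero]
      positivity
    · intro ω hω
      have c1 := hF.ct ω (hA ω hω)
      have c2 := hF₁.ct ω (hA ω hω)
      rw [sub_self, zero_mul, add_zero] at c1 c2 ⊢
      change |t₁ ω - t ω| ≤ 2 * D * 2 ^ q / 2 ^ (q + (V₁ + H))
      have e1 : 2 * D * 2 ^ q / (2 : ℝ) ^ (q + (V₁ + H)) = D / 2 ^ (V₁ + H) + D / 2 ^ (V₁ + H) := by
        rw [pow_add]
        field_simp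
        ring
      have e2 : t₁ ω - t ω = (t' ω - t ω) - (t' ω - t₁ ω) := by ring
      rw [e1, e2]
      refine (abs_sub _ _).trans (add_le_add (c1.trans ?_) c2)
      exact div_pow_mono (by linarith) (by omega)
    · intro ω ω' hω hω' h
      have h1 := Prod.ext_iff.mp h
      have h2 := Prod.ext_iff.mp h1.1
      have h3 := Prod.ext_iff.mp h2.2
      have h4 : W ω = W ω' := h1.2
      rw [hW] at h4
      exact ⟨(Prod.ext_iff.mp h4).1, h3.2, h3.1, h2.1⟩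
  have s3 : CH p (Uni.dg X (ye F σ w₁ q V₁ H X a s t₁))
      (fun ω => (ctx F σ w₁ q V₁ H a s t₁ ω, W ω)) ≤ Real.log 15 := by
    have key := Lab.CH_int_const hQ (Uni.dg X (ye F σ w₁ q V₁ H X a s t₁))
      (fun ω => (ctx F σ w₁ q V₁ H a s t₁ ω, W ω)) (c := 7) (by
        intro ω ω' hω hω' h
        have h1 := Prod.ext_iff.mp h
        have h4 : W ω = W ω' := h1.2
        rw [hW] at h4
        have h5 := Prod.ext_iff.mp h4
        have g1 := floor_near (ye_near (F := F) (X := X) hw hw₁ hwX h5.1 h1.1 (gt_ext h5.2).1)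
        change |((⌊(2 : ℝ) ^ X * ye F σ w₁ q V₁ H X a s t₁ ω⌋ -
          ⌊(2 : ℝ) ^ X * ye F σ w₁ q V₁ H X a s t₁ ω'⌋ : ℤ) : ℝ)| ≤ 7
        linarith)
    have e : (2 : ℝ) * 7 + 1 = 15 := by norm_num
    rw [e] at key
    exact key
  have s4 := CH_chain h0 (Uni.dg X (ye F σ w₁ q V₁ H X a s t₁)) (ctx F σ w₁ q V₁ H a s t₁) W
  have s5 := CH_le_add h0 (ctx F σ w₁ q V₁ H a s t₁) (fun ω => (t₁ ω, (s ω, a ω))) W
  linarith

/-- The context is visible. -/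
theorem ctx_vis (hF : Frg F A w V H D a s t a' s' t') (hw : w ≤ J)
    (hD : 1 ≤ D) (hQ : IsLaw (Pool.Agent.H49.Ent.cond F.p A True)) {B : ℝ} (hB : 1 ≤ B)
    (hb : ∀ ω, A ω → |a' ω| ≤ B ∧ |s' ω| ≤ B ∧ |t' ω| ≤ B) (hP : q + (V + H) + w ≤ J)
    (hfr : ∀ ω ω', A ω → A ω' → Fam.pt F ω = Fam.pt F ω' →
      a' ω = a' ω' ∧ s' ω = s' ω' ∧ t' ω = t' ω')
    (hu : ∀ ω ω', A ω → A ω' → Fam.pt F ω = Fam.pt F ω' →
      |(F.d ω (σ 1) - a' ω * F.d ω (σ 0)) - (F.d ω' (σ 1) - a' ω * F.d ω' (σ 0))| ≤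
        B / 2 ^ (q + V))
    (hN : ∀ ω ω', A ω → A ω' → Fam.pt F ω = Fam.pt F ω' →
      |(F.d ω (σ 2) - s' ω * F.d ω (σ 1) - t' ω * F.d ω (σ 0)) -
        (F.d ω' (σ 2) - s' ω * F.d ω' (σ 1) - t' ω * F.d ω' (σ 0))| ≤
        B / 2 ^ (q + (V + H))) :
    CH (Pool.Agent.H49.Ent.cond F.p A True)
      (fun ω => (ctx F σ w q V H a s t ω, gt F a' s' t' ω))
      (fun ω => (⌊(2 : ℝ) ^ q * F.d ω (σ 0)⌋, Fam.pt F ω)) ≤ 3 * Real.log (2 * D + 1) +
      2 * ((3 : ℕ) * Real.log (2 * ((3 : ℕ) * (D + D * D) *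
        (2 * ((3 : ℕ) * (3 * B) + (3 * B)))) + 3)) := by
  obtain ⟨W, hW⟩ : ∃ f : F.Ω → ℤ × ((Fin 3 → ℤ) × (ℕ × F.ζ)),
    f = fun ω => (⌊(2 : ℝ) ^ q * F.d ω (σ 0)⌋, Fam.pt F ω) := ⟨_, rfl⟩
  have k1 := CH_fr (F := F) (A := A) (b := W) hF (by linarith : (0 : ℝ) ≤ D) hQ
  obtain ⟨p, hp'⟩ : ∃ p, p = Pool.Agent.H49.Ent.cond F.p A True := ⟨_, rfl⟩
  rw [← hp'] at hQ k1 ⊢
  rw [← hW]
  have hA : ∀ ω, 0 < p ω → A ω := fun ω hω => by
    rw [hp'] at hω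
    exact of_eq_true ((cond_pos_iff F.isLaw.nonneg A True ω).1 hω).2
  have h0 := hQ.nonneg
  have hW' : ∀ ω ω', W ω = W ω' → ⌊(2 : ℝ) ^ q * F.d ω (σ 0)⌋ = ⌊(2 : ℝ) ^ q * F.d ω' (σ 0)⌋ ∧
      Fam.pt F ω = Fam.pt F ω' := by
    intro ω ω' h
    rw [hW] at h
    exact Prod.ext_iff.mp h
  have hpt : ∀ ω ω', Fam.pt F ω = Fam.pt F ω' → F.X J ω = F.X J ω' ∧ F.W ω = F.W ω' ∧
      F.T ω = F.T ω' := by
    intro ω ω' h
    have h1 := Prod.ext_iff.mp h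
    exact ⟨h1.1, h1.2, (Prod.ext_iff.mp h1.2).1⟩
  have hg : ∀ ω ω', 0 < p ω → 0 < p ω' → W ω = W ω' →
      gt F a' s' t' ω = gt F a' s' t' ω' := by
    intro ω ω' hω hω' h
    obtain ⟨-, h2⟩ := hW' ω ω' h
    obtain ⟨g1, g2, g3⟩ := hfr ω ω' (hA ω hω) (hA ω' hω') h2
    change (F.T ω, (a' ω, s' ω, t' ω)) = (F.T ω', (a' ω', s' ω', t' ω'))
    rw [g1, g2, g3, (hpt ω ω' h2).2.2]
  have s1 : CH p (fun ω => (t ω, (s ω, a ω))) W ≤ 3 * Real.log (2 * D + 1) := by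
    refine (CH_mono_cond h0 ?_).trans k1
    intro ω ω' hω hω' h
    exact Prod.ext h (hg ω ω' hω hω' h)
  have s2 : CH p (ctx F σ w q V H a s t) (fun ω => ((t ω, (s ω, a ω)), W ω)) ≤
      2 * ((3 : ℕ) * Real.log (2 * ((3 : ℕ) * (D + D * D) *
        (2 * ((3 : ℕ) * (3 * B) + (3 * B)))) + 3)) := by
    have key := CH_ctx_of_pt (F := F) (σ := σ) (w := w) (r := q + w) (U := q + V + w)
      (P := q + (V + H) + w) (a := a) (s := s) (t := t) (α := a') (s₀ := s') (t₀ := t')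
      (B := B) (D := D + D * D) hQ hw (by omega) (by omega) (by omega) (by omega) (by omega)
      (by omega) hB (by nlinarith) (fun ω hω => hb ω (hA ω hω))
      (fun ω hω => (fnr_frg hF (hA ω hω)).symm (by linarith))
      (fun ω => ((t ω, (s ω, a ω)), W ω)) (by
        intro ω ω' hω hω' h
        have h1 := Prod.ext_iff.mp h
        have h2 := Prod.ext_iff.mp h1.1
        have h3 := Prod.ext_iff.mp h2.2
        obtain ⟨h4, h5⟩ := hW' ω ω' h1.2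
        obtain ⟨x1, x2, x3⟩ := hpt ω ω' h5
        refine ⟨x1, x2, hfr ω ω' (hA ω hω) (hA ω' hω') h5, ⟨h3.2, h3.1, h2.1⟩, ?_, ?_, ?_⟩
        · rw [Nat.add_sub_cancel]
          refine (near_of_floor h4).trans ?_
          exact div_le_div_of_nonneg_right hB (by positivity)
        · rw [Nat.add_sub_cancel]
          exact hu ω ω' (hA ω hω) (hA ω' hω') h5
        · rw [Nat.add_sub_cancel]
          exact hN ω ω' (hA ω hω) (hA ω' hω') h5)
    rw [ctx_cv] at key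
    exact key
  have v1 : CH p (fun ω => (ctx F σ w q V H a s t ω, gt F a' s' t' ω)) W ≤
      CH p (ctx F σ w q V H a s t) W := by
    refine CH_mono_left h0 ?_
    intro ω ω' hω hω' h
    have h1 := Prod.ext_iff.mp h
    exact Prod.ext h1.1 (hg ω ω' hω hω' h1.2)
  have v2 := CH_le_add h0 (ctx F σ w q V H a s t) (fun ω => (t ω, (s ω, a ω))) W
  linarith

/-- **(H4)** for theorem OC: the digits of the base velocity given the context, from the digits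
given the exact point. -/
theorem h4f (hF : Frg F A w V H D a s t a' s' t') (hw : w ≤ J)
    (hD : 1 ≤ D) (hQ : IsLaw (Pool.Agent.H49.Ent.cond F.p A True)) {B : ℝ} (hB : 1 ≤ B)
    (hb : ∀ ω, A ω → |a' ω| ≤ B ∧ |s' ω| ≤ B ∧ |t' ω| ≤ B) (hP : q + (V + H) + w ≤ J)
    (hfr : ∀ ω ω', A ω → A ω' → Fam.pt F ω = Fam.pt F ω' →
      a' ω = a' ω' ∧ s' ω = s' ω' ∧ t' ω = t' ω')
    (hu : ∀ ω ω', A ω → A ω' → Fam.pt F ω = Fam.pt F ω' →
      |(F.d ω (σ 1) - a' ω * F.d ω (σ 0)) - (F.d ω' (σ 1) - a' ω * F.d ω' (σ 0))| ≤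
        B / 2 ^ (q + V))
    (hN : ∀ ω ω', A ω → A ω' → Fam.pt F ω = Fam.pt F ω' →
      |(F.d ω (σ 2) - s' ω * F.d ω (σ 1) - t' ω * F.d ω (σ 0)) -
        (F.d ω' (σ 2) - s' ω * F.d ω' (σ 1) - t' ω * F.d ω' (σ 0))| ≤
        B / 2 ^ (q + (V + H))) :
    CH (Pool.Agent.H49.Ent.cond F.p A True) (fun ω => ⌊(2 : ℝ) ^ (q + X) * F.d ω (σ 0)⌋)
      (fun ω => (⌊(2 : ℝ) ^ q * F.d ω (σ 0)⌋, Fam.pt F ω)) ≤
    CH (Pool.Agent.H49.Ent.cond F.p A True) (Uni.dg X (om F σ q V H X a s t 0))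
      (fun ω => (ctx F σ w q V H a s t ω, gt F a' s' t' ω)) + (3 * Real.log (2 * D + 1) +
      2 * ((3 : ℕ) * Real.log (2 * ((3 : ℕ) * (D + D * D) *
        (2 * ((3 : ℕ) * (3 * B) + (3 * B)))) + 3))) := by
  have s5 := ctx_vis (F := F) (σ := σ) (q := q) hF hw hD hQ hB hb hP hfr hu hN
  obtain ⟨p, hp'⟩ : ∃ p, p = Pool.Agent.H49.Ent.cond F.p A True := ⟨_, rfl⟩
  rw [← hp'] at hQ s5 ⊢
  have h0 := hQ.nonneg
  obtain ⟨W, hW⟩ : ∃ f : F.Ω → ℤ × ((Fin 3 → ℤ) × (ℕ × F.ζ)),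
    f = fun ω => (⌊(2 : ℝ) ^ q * F.d ω (σ 0)⌋, Fam.pt F ω) := ⟨_, rfl⟩
  obtain ⟨O, hO⟩ : ∃ f, f = om F σ q V H X a s t 0 := ⟨_, rfl⟩
  obtain ⟨Cn, hCn⟩ : ∃ f, f = fun ω => (ctx F σ w q V H a s t ω, gt F a' s' t' ω) := ⟨_, rfl⟩
  rw [← hW, ← hCn] at s5 ⊢
  rw [← hO]
  have s7 : CH p (fun ω => ⌊(2 : ℝ) ^ (q + X) * F.d ω (σ 0)⌋) W ≤ CH p (Uni.dg X O) W := by
    refine CH_mono_left h0 ?_
    intro ω ω' hω hω' h
    have h1 := Prod.ext_iff.mp h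
    have h2 : W ω = W ω' := h1.2
    rw [hW] at h2
    have h2' := (Prod.ext_iff.mp h2).1
    have e1 : ∀ o, Uni.dg X O o = ⌊(2 : ℝ) ^ X * Int.fract ((2 : ℝ) ^ q * F.d o (σ 0))⌋ := by
      intro o
      rw [hO]
      rw [show Uni.dg X (om F σ q V H X a s t 0) o = (blk F σ w q V H X a s t o).2 0 from
        dg_om 0 o]
      change ⌊(2 : ℝ) ^ X * Int.fract ((2 : ℝ) ^ q *
        mco (tfr σ (a o) (s o) (t o)) (F.d o) 0)⌋ = _
      rw [mco_tfr0]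
    have h3 : Uni.dg X O ω = Uni.dg X O ω' := h1.1
    rw [e1, e1] at h3
    exact fract_lift h2' h3
  have s8 := CH_le_add h0 (Uni.dg X O) Cn W
  have s9 : CH p (Uni.dg X O) (fun ω => (Cn ω, W ω)) ≤ CH p (Uni.dg X O) Cn :=
    CH_mono_cond h0 fun ω ω' _ _ h => (Prod.ext_iff.mp h).1
  linarith

end fall

end Pool.S6N
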