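import Pool.Agent.H77.S6.LAB

/-!
# The same plank with another slope

In the plank `y` the slope `s` of the normal form may be changed by `1 / 2 ^ H`, if the thickness
is not larger than the precision of the width plus `H`.
-/

set_option autoImplicit false

namespace Pool.KS6

open Finset Real

/-- The plank with the slope `z`; the normal form is changed along the direction of the plank. -/
def Pln.ws (y : Pln) (z : ℝ) : Pln :=
  { y with s := z, c := y.c - (z - y.s) * y.e }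

theorem fn_ws (i0 iu iN : Fin 3) (y : Pln) (z : ℝ) (x : Fin 3 → ℝ) :
    fn i0 iu iN (y.ws z).c (y.ws z).s x =
      fn i0 iu iN y.c y.s x + (z - y.s) * fu i0 iu y.e x := by
  unfold fn fu Pln.ws
  ring

/-- **Change of the slope.** -/
theorem Inc.ws {i0 iu iN : Fin 3} {w lam P P' H : ℕ} {C C' : ℝ} {y : Pln} {t : ℝ}
    {x d : Fin 3 → ℝ} (h : Inc i0 iu iN w lam P C y t x d) (hC : 0 ≤ C) (hC' : 0 ≤ C') {z : ℝ}
    (hz : |z - y.s| ≤ C' / 2 ^ H) (hzs : |z| ≤ 4) (hzc : |y.c - (z - y.s) * y.e| ≤ 4)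
    (hP : P' ≤ P) (hP' : P' ≤ H + w + lam) :
    Inc i0 iu iN w lam P' (C + C * C') (y.ws z) t x d := by
  have hCC : C ≤ C + C * C' := by nlinarith
  have mono : ∀ {x : ℝ} {n : ℕ}, x ≤ C / 2 ^ n → x ≤ (C + C * C') / 2 ^ n := fun h =>
    h.trans (div_le_div_of_nonneg_right hCC (by positivity))
  have pw : ∀ {a b : ℕ}, a ≤ b → ∀ {K : ℝ}, 0 ≤ K → K / (2 : ℝ) ^ b ≤ K / 2 ^ a := by
    intro a b hab K hK
    exact div_le_div_of_nonneg_left hK (by positivity) (pow_le_pow_right₀ (by norm_num) hab)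
  refine ⟨h.e_le, hzc, hzs, mono h.pe, mono h.pu, ?_, h.ve.trans hCC, mono h.vu, ?_⟩
  · rw [fn_ws, fn_ws]
    change |fn i0 iu iN y.c y.s x + (z - y.s) * fu i0 iu y.e x -
      (fn i0 iu iN y.c y.s (fun i => y.xb i + t * y.db i) +
        (z - y.s) * fu i0 iu y.e (fun i => y.xb i + t * y.db i))| ≤ (C + C * C') / 2 ^ P'
    have e2 : fn i0 iu iN y.c y.s x + (z - y.s) * fu i0 iu y.e x -
      (fn i0 iu iN y.c y.s (fun i => y.xb i + t * y.db i) +
        (z - y.s) * fu i0 iu y.e (fun i => y.xb i + t * y.db i)) =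
      (fn i0 iu iN y.c y.s x - fn i0 iu iN y.c y.s (fun i => y.xb i + t * y.db i)) +
        (z - y.s) * (fu i0 iu y.e x - fu i0 iu y.e (fun i => y.xb i + t * y.db i)) := by ring
    rw [e2]
    refine (abs_add_le _ _).trans ?_
    rw [abs_mul]
    have k1 := h.pn.trans (pw hP hC)
    have k2 : |z - y.s| * |fu i0 iu y.e x - fu i0 iu y.e (fun i => y.xb i + t * y.db i)| ≤
        C' / 2 ^ H * (C / 2 ^ (w + lam)) :=
      mul_le_mul hz h.pu (abs_nonneg _) (by positivity)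
    have k3 : C' / (2 : ℝ) ^ H * (C / 2 ^ (w + lam)) = C * C' / 2 ^ (H + w + lam) := by
      rw [add_assoc, pow_add 2 H (w + lam)]
      field_simp
    have k4 := pw hP' (mul_nonneg hC hC')
    rw [add_div]
    linarith
  · rw [fn_ws, fn_ws]
    change |fn i0 iu iN y.c y.s d + (z - y.s) * fu i0 iu y.e d -
      (fn i0 iu iN y.c y.s y.db + (z - y.s) * fu i0 iu y.e y.db)| ≤
        (C + C * C') * 2 ^ w / 2 ^ P'
    have e2 : fn i0 iu iN y.c y.s d + (z - y.s) * fu i0 iu y.e d -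
      (fn i0 iu iN y.c y.s y.db + (z - y.s) * fu i0 iu y.e y.db) =
      (fn i0 iu iN y.c y.s d - fn i0 iu iN y.c y.s y.db) +
        (z - y.s) * (fu i0 iu y.e d - fu i0 iu y.e y.db) := by ring
    rw [e2]
    refine (abs_add_le _ _).trans ?_
    rw [abs_mul]
    have k0 : C * (2 : ℝ) ^ w / 2 ^ P ≤ C * 2 ^ w / 2 ^ P' := pw hP (by positivity)
    have k1 := h.vn.trans k0
    have k2 : |z - y.s| * |fu i0 iu y.e d - fu i0 iu y.e y.db| ≤ C' / 2 ^ H * (C / 2 ^ lam) :=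
      mul_le_mul hz h.vu (abs_nonneg _) (by positivity)
    have k3 : C' / (2 : ℝ) ^ H * (C / 2 ^ lam) = C * C' * 2 ^ w / 2 ^ (H + w + lam) := by
      rw [pow_add 2 (H + w) lam, pow_add 2 H w]
      field_simp
    have k4 : C * C' * (2 : ℝ) ^ w / 2 ^ (H + w + lam) ≤ C * C' * 2 ^ w / 2 ^ P' :=
      pw hP' (by positivity)
    have e3 : (C + C * C') * (2 : ℝ) ^ w / 2 ^ P' = C * 2 ^ w / 2 ^ P' + C * C' * 2 ^ w / 2 ^ P' := by
      ring
    rw [e3]
    linarith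

/-- **Change of the frame of a plank.** -/
theorem Inc.chg {i0 iu iN : Fin 3} {w lam P P' H : ℕ} {C C' : ℝ} {y y' : Pln} {t : ℝ}
    {x d : Fin 3 → ℝ} (h : Inc i0 iu iN w lam P C y t x d) (hC : 0 ≤ C) (hC' : 0 ≤ C')
    (hxb : y'.xb = y.xb) (hdb : y'.db = y.db) (he : |y'.e - y.e| ≤ C' / 2 ^ lam)
    (hs : |y'.s - y.s| ≤ C' / 2 ^ H)
    (hc : |(y'.c - y.c) + (y'.s - y.s) * y.e| ≤ C' * 2 ^ w / 2 ^ P')
    (be : |y'.e| ≤ 2) (bc : |y'.c| ≤ 4) (bs : |y'.s| ≤ 4)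
    (hP : P' ≤ P) (hP' : P' ≤ H + w + lam) :
    Inc i0 iu iN w lam P' (C + 2 * (C * C')) y' t x d := by
  have hCC0 : 0 ≤ C * C' := mul_nonneg hC hC'
  have hCC : C ≤ C + 2 * (C * C') := by linarith
  have mono : ∀ {x : ℝ} {n : ℕ}, x ≤ C / 2 ^ n → x ≤ (C + 2 * (C * C')) / 2 ^ n := fun h =>
    h.trans (div_le_div_of_nonneg_right hCC (by positivity))
  have pw : ∀ {a b : ℕ}, a ≤ b → ∀ {K : ℝ}, 0 ≤ K → K / (2 : ℝ) ^ b ≤ K / 2 ^ a := by
    intro a b hab K hK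
    exact div_le_div_of_nonneg_left hK (by positivity) (pow_le_pow_right₀ (by norm_num) hab)
  have ufu : ∀ z : Fin 3 → ℝ, fu i0 iu y'.e z = fu i0 iu y.e z - (y'.e - y.e) * z i0 := by
    intro z
    unfold fu
    ring
  have ufn : ∀ z : Fin 3 → ℝ, fn i0 iu iN y'.c y'.s z = fn i0 iu iN y.c y.s z +
      (y'.s - y.s) * fu i0 iu y.e z + ((y'.c - y.c) + (y'.s - y.s) * y.e) * z i0 := by
    intro z
    unfold fn fu
    ring
  have hx0 := h.pe
  have hd0 := h.ve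
  refine ⟨be, bc, bs, ?_, ?_, ?_, by rw [hdb]; exact h.ve.trans hCC, ?_, ?_⟩
  · rw [hxb, hdb]
    exact mono h.pe
  · rw [hxb, hdb, ufu, ufu]
    have e2 : fu i0 iu y.e x - (y'.e - y.e) * x i0 -
        (fu i0 iu y.e (fun i => y.xb i + t * y.db i) -
          (y'.e - y.e) * (y.xb i0 + t * y.db i0)) =
        (fu i0 iu y.e x - fu i0 iu y.e (fun i => y.xb i + t * y.db i)) -
          (y'.e - y.e) * (x i0 - (y.xb i0 + t * y.db i0)) := by ring
    rw [e2]
    refine (abs_sub _ _).trans ?_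
    rw [abs_mul]
    have k2 : |y'.e - y.e| * |x i0 - (y.xb i0 + t * y.db i0)| ≤ C' / 2 ^ lam * (C / 2 ^ w) :=
      mul_le_mul he hx0 (abs_nonneg _) (by positivity)
    have k3 : C' / (2 : ℝ) ^ lam * (C / 2 ^ w) = C * C' / 2 ^ (w + lam) := by
      rw [pow_add]
      field_simp
    have k4 : (0 : ℝ) ≤ C * C' / 2 ^ (w + lam) := by positivity
    have k5 : (C + 2 * (C * C')) / (2 : ℝ) ^ (w + lam) = C / 2 ^ (w + lam) +
        C * C' / 2 ^ (w + lam) + C * C' / 2 ^ (w + lam) := by ring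
    have k6 := h.pu
    linarith
  · rw [hxb, hdb, ufn, ufn]
    have e2 : fn i0 iu iN y.c y.s x + (y'.s - y.s) * fu i0 iu y.e x +
        ((y'.c - y.c) + (y'.s - y.s) * y.e) * x i0 -
        (fn i0 iu iN y.c y.s (fun i => y.xb i + t * y.db i) +
          (y'.s - y.s) * fu i0 iu y.e (fun i => y.xb i + t * y.db i) +
          ((y'.c - y.c) + (y'.s - y.s) * y.e) * (y.xb i0 + t * y.db i0)) =
        (fn i0 iu iN y.c y.s x - fn i0 iu iN y.c y.s (fun i => y.xb i + t * y.db i)) +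
          (y'.s - y.s) * (fu i0 iu y.e x - fu i0 iu y.e (fun i => y.xb i + t * y.db i)) +
          ((y'.c - y.c) + (y'.s - y.s) * y.e) * (x i0 - (y.xb i0 + t * y.db i0)) := by ring
    rw [e2]
    refine (abs_add_le _ _).trans ?_
    have k0 := abs_add_le (fn i0 iu iN y.c y.s x -
        fn i0 iu iN y.c y.s (fun i => y.xb i + t * y.db i))
      ((y'.s - y.s) * (fu i0 iu y.e x - fu i0 iu y.e (fun i => y.xb i + t * y.db i)))
    rw [abs_mul] at k0 ⊢
    have k1 := h.pn.trans (pw hP hC)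
    have k2 : |y'.s - y.s| * |fu i0 iu y.e x - fu i0 iu y.e (fun i => y.xb i + t * y.db i)| ≤
        C' / 2 ^ H * (C / 2 ^ (w + lam)) :=
      mul_le_mul hs h.pu (abs_nonneg _) (by positivity)
    have k3 : C' / (2 : ℝ) ^ H * (C / 2 ^ (w + lam)) = C * C' / 2 ^ (H + w + lam) := by
      rw [add_assoc, pow_add 2 H (w + lam)]
      field_simp
    have k4 := pw hP' hCC0
    have k5 : |(y'.c - y.c) + (y'.s - y.s) * y.e| * |x i0 - (y.xb i0 + t * y.db i0)| ≤
        C' * 2 ^ w / 2 ^ P' * (C / 2 ^ w) :=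
      mul_le_mul hc hx0 (abs_nonneg _) (by positivity)
    have k6 : C' * (2 : ℝ) ^ w / 2 ^ P' * (C / 2 ^ w) = C * C' / 2 ^ P' := by
      field_simp
    have k7 : (C + 2 * (C * C')) / (2 : ℝ) ^ P' = C / 2 ^ P' + C * C' / 2 ^ P' +
        C * C' / 2 ^ P' := by ring
    linarith
  · rw [hdb, ufu, ufu]
    have e2 : fu i0 iu y.e d - (y'.e - y.e) * d i0 -
        (fu i0 iu y.e y.db - (y'.e - y.e) * y.db i0) =
        (fu i0 iu y.e d - fu i0 iu y.e y.db) - (y'.e - y.e) * (d i0 - y.db i0) := by ring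
    rw [e2]
    refine (abs_sub _ _).trans ?_
    rw [abs_mul]
    have k2 : |y'.e - y.e| * |d i0 - y.db i0| ≤ C' / 2 ^ lam * C :=
      mul_le_mul he hd0 (abs_nonneg _) (by positivity)
    have k3 : C' / (2 : ℝ) ^ lam * C = C * C' / 2 ^ lam := by ring
    have k4 : (0 : ℝ) ≤ C * C' / 2 ^ lam := by positivity
    have k5 : (C + 2 * (C * C')) / (2 : ℝ) ^ lam = C / 2 ^ lam +
        C * C' / 2 ^ lam + C * C' / 2 ^ lam := by ring
    have k6 := h.vu
    linarith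
  · rw [hdb, ufn, ufn]
    have e2 : fn i0 iu iN y.c y.s d + (y'.s - y.s) * fu i0 iu y.e d +
        ((y'.c - y.c) + (y'.s - y.s) * y.e) * d i0 -
        (fn i0 iu iN y.c y.s y.db + (y'.s - y.s) * fu i0 iu y.e y.db +
          ((y'.c - y.c) + (y'.s - y.s) * y.e) * y.db i0) =
        (fn i0 iu iN y.c y.s d - fn i0 iu iN y.c y.s y.db) +
          (y'.s - y.s) * (fu i0 iu y.e d - fu i0 iu y.e y.db) +
          ((y'.c - y.c) + (y'.s - y.s) * y.e) * (d i0 - y.db i0) := by ring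
    rw [e2]
    refine (abs_add_le _ _).trans ?_
    have k0 := abs_add_le (fn i0 iu iN y.c y.s d - fn i0 iu iN y.c y.s y.db)
      ((y'.s - y.s) * (fu i0 iu y.e d - fu i0 iu y.e y.db))
    rw [abs_mul] at k0 ⊢
    have k1 : |fn i0 iu iN y.c y.s d - fn i0 iu iN y.c y.s y.db| ≤ C * 2 ^ w / 2 ^ P' :=
      h.vn.trans (pw hP (by positivity))
    have k2 : |y'.s - y.s| * |fu i0 iu y.e d - fu i0 iu y.e y.db| ≤
        C' / 2 ^ H * (C / 2 ^ lam) :=
      mul_le_mul hs h.vu (abs_nonneg _) (by positivity)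
    have k3 : C' / (2 : ℝ) ^ H * (C / 2 ^ lam) = C * C' * 2 ^ w / 2 ^ (H + w + lam) := by
      rw [pow_add 2 (H + w) lam, pow_add 2 H w]
      field_simp
    have k4 : C * C' * (2 : ℝ) ^ w / 2 ^ (H + w + lam) ≤ C * C' * 2 ^ w / 2 ^ P' :=
      pw hP' (by positivity)
    have k5 : |(y'.c - y.c) + (y'.s - y.s) * y.e| * |d i0 - y.db i0| ≤
        C' * 2 ^ w / 2 ^ P' * C :=
      mul_le_mul hc hd0 (abs_nonneg _) (by positivity)
    have k6 : C' * (2 : ℝ) ^ w / 2 ^ P' * C = C * C' * 2 ^ w / 2 ^ P' := by ring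
    have k7 : (C + 2 * (C * C')) * (2 : ℝ) ^ w / 2 ^ P' = C * 2 ^ w / 2 ^ P' +
        C * C' * 2 ^ w / 2 ^ P' + C * C' * 2 ^ w / 2 ^ P' := by ring
    linarith

end Pool.KS6
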