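import Pool.Agent.H9.S6.H67F
import Pool.Agent.H75.S6C.Th
import Pool.Agent.H90.S6R.IncS
import Pool.Agent.H90.S6R.Fall1

/-!
# (H6) on natural windows, and the field `tur` for falling

`h6_nat`: the natural windows `v` with `v ≤ w J ≤ v + l J`. `tur_nat`: with one slope `s`.
-/

set_option autoImplicit false

namespace Pool.S6N

open Finset Real
open Pool.Agent.H49.Ent Pool.Agent.H32.Dense Pool.STK Pool.KA Pool.KSAT Pool.K3 Pool.K2S Pool.PB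
open Pool.KS6 Pool.S6C

/-- **(H6) at class level**, natural windows. -/
theorem h6_nat {S : PCl 3} {i0 : Fin 3} {Q : ℝ} (hQ : Q ≤ 1) {w : ℚ} (hw : 0 ≤ w) {G : ℝ}
    (hG : PNum S (capS Q (qTh i0 Q w)) G) {x₀ δ h : ℝ} (hx₀ : 0 < x₀) (hδ : 0 < δ)
    (hh0 : 0 ≤ h) (hh : 4 * h ≤ x₀ * δ) (hGx : G + x₀ * δ / 2 ≤ Q) (hGw : w + h < G)
    (hwQ : (w : ℝ) ≤ Q) {l : ℝ} (hl1 : 16 * l ≤ x₀ * δ) {C D : ℝ} (hC : 1 ≤ C)
    (hD : 1 ≤ D) :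
    ∃ c > 0, ∃ J₁ : ℕ, ∀ J ≥ J₁, ∀ (F : Fam 3 J) (A : F.Ω → Prop), S.St c J F A →
      IsLaw (Pool.Agent.H49.Ent.cond F.p A True) → ∀ σ : Fin 3 → Fin 3, Function.Injective σ →
      σ 0 = i0 → ∀ (v q V H X W lam P : ℕ) (a s t a' s' t' : F.Ω → ℝ) (y : F.Ω → Pln),
      v ≤ ⌊(w : ℝ) * J⌋₊ → (⌊(w : ℝ) * J⌋₊ : ℝ) ≤ v + l * J →
      Frg F A v V H D a s t a' s' t' →
      (∀ ω, A ω → Vpl (y ω) (a' ω) (s' ω) (t' ω)) →
      (∀ ω, A ω → Inc (σ 0) (σ 1) (σ 2) W lam P C (y ω) (F.t ω) (F.x ω) (F.d ω)) →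
      (∃ φ : (Fin 3 → ℤ) × (ℕ × F.ζ) → Pln, ∀ ω, A ω → y ω = φ (ptq F ⌊Q * J⌋₊ ω)) →
      δ * J - 1 ≤ X → (G - w - h) * J ≤ ((V + H : ℕ) : ℝ) → V ≤ lam →
      v + V ≤ ⌊Q * J⌋₊ → (W : ℝ) + (G + x₀ * δ / 2 - w) * J + 1 + l * J ≤ P →
      Pool.KAF.Pr (dbl (Pool.Agent.H49.Ent.cond F.p A True)
          (fun ω => (blk F σ v q V H X a s t ω, ctx F σ v q V H a s t ω)))
        {x | ∀ j, |SS V H a s t s' t' j x.1 - SS V H a s t s' t' j x.2| <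
          (2 : ℝ) ^ (-(x₀ * X))} ≤ Real.exp (-(c * J)) := by
  have hx : 0 < x₀ * δ / 2 := by positivity
  obtain ⟨c, hc, J₁, hn⟩ := num_no (qTh_hered i0 Q w) hG hx
  obtain ⟨K₀, hK₀⟩ : ∃ K : ℝ, K = 8 * (3 * Real.log 15 + 6 * Real.log (16 * 2 + 21)) +
    Real.log 2 := ⟨_, rfl⟩
  obtain ⟨J₂, hJ₂⟩ := exists_nat_gt ((Real.log 9 + KC C + K₀) / (c / 2))
  obtain ⟨k₀, hk₀⟩ := pow_unbounded_of_one_lt (2 * D) (by norm_num : (1 : ℝ) < 2)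
  obtain ⟨J₃, hJ₃⟩ := exists_nat_gt ((k₀ + x₀ + 7) / (x₀ * δ / 8))
  obtain ⟨J₄, hJ₄⟩ := exists_nat_gt ((k₀ + 3) / (G - w - h))
  refine ⟨c / 2, half_pos hc, max (max J₁ J₂) (max J₃ J₄), ?_⟩
  intro J hJ F A hS hl σ hσ hσ0 v q V H X W lam P a s t a' s' t' y hv1 hv2 hF hy hI hvis hX hVH
    h1 h2 h5
  obtain ⟨φ, hφ⟩ := hvis
  have hJ1 : J₁ ≤ J := ((le_max_left _ _).trans (le_max_left _ _)).trans hJ
  have hJ2 : (J₂ : ℝ) ≤ J := by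
    exact_mod_cast ((le_max_right _ _).trans (le_max_left _ _)).trans hJ
  have hJ3 : (J₃ : ℝ) ≤ J := by
    exact_mod_cast ((le_max_left _ _).trans (le_max_right _ _)).trans hJ
  have hJ4 : (J₄ : ℝ) ≤ J := by
    exact_mod_cast ((le_max_right _ _).trans (le_max_right _ _)).trans hJ
  have hKC : Real.log 9 + KC C + K₀ ≤ c / 2 * J := by
    have := hJ₂.trans_le hJ2
    rw [div_lt_iff₀ (half_pos hc)] at this
    linarith only [this]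
  have hJ0 : (0 : ℝ) ≤ J := Nat.cast_nonneg J
  have g3 : (k₀ : ℝ) + x₀ + 7 < x₀ * δ / 8 * J := by
    have := hJ₃.trans_le hJ3
    rw [div_lt_iff₀ (by positivity)] at this
    linarith only [this]
  have g4 : (k₀ : ℝ) + 3 < (G - w - h) * J := by
    have := hJ₄.trans_le hJ4
    rw [div_lt_iff₀ (by linarith only [hGw])] at this
    linarith only [this]
  have hQJ : ⌊Q * J⌋₊ ≤ J := by
    refine Nat.floor_le_of_le ?_
    calc Q * J ≤ 1 * J := mul_le_mul_of_nonneg_right hQ hJ0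
      _ = J := one_mul _
  have hwQJ : ⌊(w : ℝ) * J⌋₊ ≤ ⌊Q * J⌋₊ :=
    Nat.floor_le_floor (mul_le_mul_of_nonneg_right hwQ hJ0)
  have hw0 : (0 : ℝ) ≤ w := by exact_mod_cast hw
  have f1 := Nat.floor_le (mul_nonneg hw0 hJ0)
  have f2 := Nat.lt_floor_add_one ((w : ℝ) * J)
  have hv3 : (⌊(w : ℝ) * J⌋₊ : ℝ) ≤ v + l * J := hv2
  have hlJ : l * J ≤ x₀ * δ / 16 * J := mul_le_mul_of_nonneg_right (by linarith only [hl1]) hJ0
  have hx0X : 0 ≤ x₀ * X := by positivity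
  have f3 := Nat.floor_le hx0X
  have f4 := Nat.lt_floor_add_one (x₀ * X)
  have hhG : h ≤ x₀ * δ / 4 := by linarith only [hh]
  have hG0 : 0 ≤ (G + x₀ * δ / 2) * J := mul_nonneg (by linarith only [hh0, hGw, hx, hw0]) hJ0
  have f5 := Nat.floor_le hG0
  have hX2 : x₀ * (δ * J - 1) ≤ x₀ * X := mul_le_mul_of_nonneg_left hX hx₀.le
  have hhJ : h * J ≤ x₀ * δ / 4 * J := mul_le_mul_of_nonneg_right hhG hJ0
  have c1 : ⌊(G + x₀ * δ / 2) * J⌋₊ ≤ ⌊Q * J⌋₊ :=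
    Nat.floor_le_floor (mul_le_mul_of_nonneg_right hGx hJ0)
  have c2 : k₀ + 3 ≤ V + H := by
    have : ((k₀ + 3 : ℕ) : ℝ) ≤ ((V + H : ℕ) : ℝ) := by
      push_cast at hVH ⊢
      linarith only [g4, hVH]
    exact_mod_cast this
  have c3 : ⌊(G + x₀ * δ / 2) * J⌋₊ + k₀ + 3 ≤ v + (V + H + ⌊x₀ * X⌋₊) := by
    have : ((⌊(G + x₀ * δ / 2) * J⌋₊ + k₀ + 3 : ℕ) : ℝ) ≤
        ((v + (V + H + ⌊x₀ * X⌋₊) : ℕ) : ℝ) := by
      push_cast at hVH ⊢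
      ring_nf at hVH f5 hX2 hhJ hlJ g3 f1 f2 hv3 ⊢
      linarith only [hQ, hx₀, hh0, hGx, hGw, hx, hv2, hw0, f4, hVH, f5, hX2, hhJ, hlJ, g3, f2]
    exact_mod_cast this
  have c4 : W + ⌊(G + x₀ * δ / 2) * J⌋₊ ≤ v + P := by
    have : ((W + ⌊(G + x₀ * δ / 2) * J⌋₊ : ℕ) : ℝ) ≤ ((v + P : ℕ) : ℝ) := by
      push_cast
      ring_nf at h5 f5 f2 hv3 ⊢
      linarith only [hv2, h5, f5, f2]
    exact_mod_cast this
  have c5 : (2 : ℝ) ^ (-(x₀ * X)) ≤ 1 / 2 ^ ⌊x₀ * X⌋₊ := by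
    rw [Real.rpow_neg (by norm_num), ← one_div]
    refine div_le_div_of_nonneg_left (by norm_num) (by positivity) ?_
    rw [← Real.rpow_natCast]
    exact Real.rpow_le_rpow_of_exponent_le (by norm_num) f3
  refine h6_frg (F := F) hQJ hσ (κ := c / 2 * J) (P2 := ⌊(G + x₀ * δ / 2) * J⌋₊)
    (k := ⌊x₀ * X⌋₊) (k₀ := k₀) hC hl hF hy hI hφ hD hk₀.le (by omega) h2 c2 c3 c4 c1 ?_ c5
  intro B hBA hPB hLB
  have hAp : 0 < Pe F.p A := pos_of_cond F.isLaw hl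
  have hBp : 0 < Pe F.p B := lt_of_lt_of_le (mul_pos (Real.exp_pos _) hAp) hPB
  obtain ⟨B', hB', hPB', hLB'⟩ := lab_window F (sig_all hσ) hBp hLB hv1 le_rfl
    (by rw [add_zero]; exact hwQJ) (by omega : v + ⌊(G + x₀ * δ / 2) * J⌋₊ ≤
      ⌊(w : ℝ) * J⌋₊ + ⌊(G + x₀ * δ / 2) * J⌋₊) c1 hQJ
  refine hn J hJ1 F A (S.mono (by linarith only [hc]) hS) B' (hB'.trans hBA) ?_
    (Or.inr ⟨hGx, σ 1, σ 2, ?_, ?_⟩)
  · refine le_trans ?_ hPB'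
    have e1 : Real.exp (-K₀) = Real.exp (-(8 * (3 * Real.log 15 +
        6 * Real.log (16 * 2 + 21)))) / 2 := by
      rw [hK₀, neg_add, Real.exp_add, Real.exp_neg (Real.log 2),
        Real.exp_log (by norm_num : (0 : ℝ) < 2)]
      ring
    rw [← e1]
    refine le_trans ?_ (mul_le_mul_of_nonneg_left hPB (Real.exp_pos _).le)
    rw [← mul_assoc, ← Real.exp_add]
    refine mul_le_mul_of_nonneg_right (Real.exp_le_exp.2 ?_) (Pe_nonneg F.isLaw A)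
    linarith only [hKC]
  · rw [← hσ0]
    exact sig_all hσ
  · rw [← hσ0]
    exact hLB'

/-- **(H6) with one slope**, in the form of the data for falling. The visible plank `y` has the
incidence; `y'` is the same plank with the frame `(a', s, t')`. -/
theorem tur_nat {S : PCl 3} {i0 : Fin 3} {Q : ℝ} (hQ : Q ≤ 1) {w : ℚ} (hw : 0 ≤ w) {G : ℝ}
    (hG : PNum S (capS Q (qTh i0 Q w)) G) {x₀ δ h : ℝ} (hx₀ : 0 < x₀) (hδ : 0 < δ)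
    (hh0 : 0 ≤ h) (hh : 4 * h ≤ x₀ * δ) (hGx : G + x₀ * δ / 2 ≤ Q) (hGw : w + h < G)
    (hwQ : (w : ℝ) ≤ Q) {l : ℝ} (hl1 : 16 * l ≤ x₀ * δ) {C C' D : ℝ} (hC : 1 ≤ C) (hC' : 0 ≤ C') (hD : 1 ≤ D) :
    ∃ c > 0, ∃ J₁ : ℕ, ∀ J ≥ J₁, ∀ (F : Fam 3 J) (A : F.Ω → Prop), S.St c J F A →
      IsLaw (Pool.Agent.H49.Ent.cond F.p A True) → ∀ σ : Fin 3 → Fin 3, Function.Injective σ →
      σ 0 = i0 → ∀ (v q V H X W lam P P' : ℕ) (a s t a' t' : F.Ω → ℝ) (y : F.Ω → Pln),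
      v ≤ ⌊(w : ℝ) * J⌋₊ → (⌊(w : ℝ) * J⌋₊ : ℝ) ≤ v + l * J →
      Frg F A v V H D a s t a' s t' →
      (∀ ω, A ω → Inc (σ 0) (σ 1) (σ 2) W lam P C (y ω) (F.t ω) (F.x ω) (F.d ω)) →
      (∃ φ : (Fin 3 → ℤ) × (ℕ × F.ζ) → Pln × (ℝ × ℝ × ℝ), ∀ ω, A ω →
        (y ω, (a' ω, (s ω, t' ω))) = φ (ptq F ⌊Q * J⌋₊ ω)) →
      (∀ ω, A ω → |a' ω - (y ω).e| ≤ C' / 2 ^ lam ∧ |s ω + (y ω).s| ≤ C' / 2 ^ H ∧
        |(t' ω + (y ω).c) + (s ω + (y ω).s) * (y ω).e| ≤ C' * 2 ^ W / 2 ^ P' ∧ |a' ω| ≤ 2 ∧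
        |s ω| ≤ 4 ∧ |t' ω| ≤ 4) → P' ≤ P → P' ≤ H + W + lam →
      δ * J - 1 ≤ X → (G - w - h) * J ≤ ((V + H : ℕ) : ℝ) → V ≤ lam →
      v + V ≤ ⌊Q * J⌋₊ → (W : ℝ) + (G + x₀ * δ / 2 - w) * J + 1 + l * J ≤ P' →
      Pool.KAF.Pr (dbl (Pool.Agent.H49.Ent.cond F.p A True)
          (fun ω => (blk F σ v q V H X a s t ω, ctx F σ v q V H a s t ω)))
        {x | |SS V H a s t s t' 0 x.1 - SS V H a s t s t' 0 x.2| <
          (2 : ℝ) ^ (-(x₀ * X))} ≤ Real.exp (-(c * J)) := by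
  obtain ⟨c, hc, J₁, h6⟩ := h6_nat hQ hw hG hx₀ hδ hh0 hh hGx hGw hwQ hl1
    (C := C + 2 * (C * C')) (D := D) (by nlinarith only [hC, hC']) hD
  refine ⟨c, hc, J₁, ?_⟩
  intro J hJ F A hS hl σ hσ hσ0 v q V H X W lam P P' a s t a' t' y hv1 hv2 hF hI hvis hcl hP hP'
    hX hVH h1 h2 h5
  obtain ⟨φ, hφ⟩ := hvis
  have key := h6 J hJ F A hS hl σ hσ hσ0 v q V H X W lam P' a s t a' s t'
    (fun ω => { y ω with e := a' ω, c := -t' ω, s := -s ω }) hv1 hv2 hF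
    (fun ω _ => ⟨rfl, rfl, rfl⟩) (fun ω hω => by
      obtain ⟨k1, k2, k3, k4, k5, k6⟩ := hcl ω hω
      refine (hI ω hω).chg (y' := { y ω with e := a' ω, c := -t' ω, s := -s ω }) (H := H)
        (by linarith only [hC]) hC' rfl rfl k1 ?_ ?_ k4 ?_ ?_ hP hP'
      · change |-s ω - (y ω).s| ≤ C' / 2 ^ H
        rw [← abs_neg]
        have e : -(-s ω - (y ω).s) = s ω + (y ω).s := by ring
        rw [e]
        exact k2
      · change |(-t' ω - (y ω).c) + (-s ω - (y ω).s) * (y ω).e| ≤ C' * 2 ^ W / 2 ^ P'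
        rw [← abs_neg]
        have e : -((-t' ω - (y ω).c) + (-s ω - (y ω).s) * (y ω).e) =
          (t' ω + (y ω).c) + (s ω + (y ω).s) * (y ω).e := by ring
        rw [e]
        exact k3
      · change |-t' ω| ≤ 4
        rw [abs_neg]
        exact k6
      · change |-s ω| ≤ 4
        rw [abs_neg]
        exact k5)
    ⟨fun u => { (φ u).1 with e := (φ u).2.1, c := -(φ u).2.2.2, s := -(φ u).2.2.1 },
      fun ω hω => by beta_reduce; rw [← hφ ω hω]⟩ hX hVH h1 h2 h5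
  have e : {x : F.Ω × F.Ω | |SS V H a s t s t' 0 x.1 - SS V H a s t s t' 0 x.2| <
      (2 : ℝ) ^ (-(x₀ * X))} = {x | ∀ j, |SS V H a s t s t' j x.1 - SS V H a s t s t' j x.2| <
      (2 : ℝ) ^ (-(x₀ * X))} := by
    ext x
    constructor
    · intro hx j
      fin_cases j
      · exact hx
      · change |SS V H a s t s t' 1 x.1 - SS V H a s t s t' 1 x.2| < _
        rw [SS1_zero, SS1_zero, sub_self, abs_zero]
        positivity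
    · intro hx
      exact hx 0
  rw [e]
  exact key

/-- **(H6) with any label** which is a function of the line and of the window `u J`, and any
variable whose closeness implies the closeness of the planks. -/
theorem tur_cls {S : PCl 3} {i0 : Fin 3} {Q : ℝ} (hQ : Q ≤ 1) {u : ℚ} {G : ℝ}
    (hG : PNum S (capS Q (qTh i0 Q u)) G) {x : ℝ} (hx : 0 < x) (hGx : G + x ≤ Q)
    {C : ℝ} (hC : 1 ≤ C) :
    ∃ c > 0, ∃ J₁ : ℕ, ∀ J ≥ J₁, ∀ (F : Fam 3 J) (A : F.Ω → Prop), S.St c J F A →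
      IsLaw (Pool.Agent.H49.Ent.cond F.p A True) → ∀ σ : Fin 3 → Fin 3, Function.Injective σ →
      σ 0 = i0 → ∀ (W lam P ag : ℕ) (y : F.Ω → Pln),
      (∀ ω, A ω → Inc (σ 0) (σ 1) (σ 2) W lam P C (y ω) (F.t ω) (F.x ω) (F.d ω)) →
      (∃ φ : (Fin 3 → ℤ) × (ℕ × F.ζ) → Pln, ∀ ω, A ω → y ω = φ (ptq F ⌊Q * J⌋₊ ω)) →
      ⌊(u : ℝ) * J⌋₊ ≤ ⌊Q * J⌋₊ → 3 ≤ ag → ⌊(G + x) * J⌋₊ + 3 ≤ ⌊(u : ℝ) * J⌋₊ + ag →
      W + ⌊(G + x) * J⌋₊ ≤ ⌊(u : ℝ) * J⌋₊ + P → ∀ (T : Type) (b : F.Ω → T),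
      (∀ ω ω', slam F ⌊(u : ℝ) * J⌋₊ ω = slam F ⌊(u : ℝ) * J⌋₊ ω' → b ω = b ω') →
      ∀ (f : F.Ω → ℝ) (δ : ℝ), (∀ ω ω', A ω → A ω' → b ω = b ω' → |f ω - f ω'| < δ →
        |(y ω).s - (y ω').s| ≤ 1 / 2 ^ ag ∧
        |Ae (y ω).c (y ω).s (y ω').c (y ω').s (y ω').e| ≤ 1 / 2 ^ ag) →
      Pool.KAF.Pr (dbl (Pool.Agent.H49.Ent.cond F.p A True) b)
        {x | |f x.1 - f x.2| < δ} ≤ Real.exp (-(c * J)) := by
  obtain ⟨c, hc, J₁, hn⟩ := num_no (qTh_hered i0 Q u) hG hx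
  obtain ⟨J₂, hJ₂⟩ := exists_nat_gt ((Real.log 9 + KC C) / (c / 2))
  refine ⟨c / 2, half_pos hc, max J₁ J₂, ?_⟩
  intro J hJ F A hS hl σ hσ hσ0 W lam P ag y hI hvis huQ h3 h4 h5 T b hb f δ hcl
  obtain ⟨φ, hφ⟩ := hvis
  have hJ1 : J₁ ≤ J := (le_max_left _ _).trans hJ
  have hJ2 : (J₂ : ℝ) ≤ J := by exact_mod_cast (le_max_right _ _).trans hJ
  have hKC : Real.log 9 + KC C ≤ c / 2 * J := by
    have := hJ₂.trans_le hJ2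
    rw [div_lt_iff₀ (half_pos hc)] at this
    linarith only [this]
  have hJ0 : (0 : ℝ) ≤ J := Nat.cast_nonneg J
  have hQJ : ⌊Q * J⌋₊ ≤ J := by
    refine Nat.floor_le_of_le ?_
    calc Q * J ≤ 1 * J := mul_le_mul_of_nonneg_right hQ hJ0
      _ = J := one_mul _
  have c1 : ⌊(G + x) * J⌋₊ ≤ ⌊Q * J⌋₊ :=
    Nat.floor_le_floor (mul_le_mul_of_nonneg_right hGx hJ0)
  have hA : ∀ ω, 0 < Pool.Agent.H49.Ent.cond F.p A True ω → A ω := fun ω hω =>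
    of_eq_true ((cond_pos_iff F.isLaw.nonneg A True ω).1 hω).2
  have key := h6b0 F hQJ (sig_all hσ) (v := ⌊(u : ℝ) * J⌋₊) (sg := ag) (ag := ag)
    (P2 := ⌊(G + x) * J⌋₊) (κ := c / 2 * J) hC hl hI hφ hb huQ le_rfl h3 h4 h5 c1 (by
      intro B hBA hPB hLB
      refine hn J hJ1 F A (S.mono (by linarith only [hc]) hS) B hBA ?_ (Or.inr ⟨hGx, σ 1, σ 2, ?_, ?_⟩)
      · refine le_trans ?_ hPB
        refine mul_le_mul_of_nonneg_right (Real.exp_le_exp.2 ?_) (Pe_nonneg F.isLaw A)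
        linarith only [hKC]
      · rw [← hσ0]
        exact sig_all hσ
      · rw [← hσ0]
        exact hLB)
  refine Pr_dbl_self hl ?_ key
  intro z hz h1 h2 hzE
  obtain ⟨k1, k2⟩ := hcl z.1 z.2 (hA _ h1) (hA _ h2) hz hzE
  refine ⟨?_, k1, k2⟩
  have e1 := (hI z.1 (hA _ h1)).e_le
  have e2 := (hI z.2 (hA _ h2)).e_le
  rw [abs_le] at e1 e2 ⊢
  constructor <;> linarith only [e1, e2, e1.1, e1.2, e2.1, e2.2]

end Pool.S6N
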