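import Pool.Agent.H51.S6.Loc
import Pool.Agent.H40.S6.Ev

/-!
# Activity at all the places near a point of differentiability, on large events

`act_loc`: near the place `x` where the activity has the slope `α`, every block of digits of the
velocity which is not too short has the rate `α` given the exact point, on all the sub-events of
relative probability at least `ϖ`.
-/

set_option autoImplicit false

namespace Pool.S6C

open Finset Real
open Pool.Agent.H49.Ent Pool.Agent.H32.Dense Pool.STK Pool.KA Pool.KSAT Pool.K2S Pool.PB Pool.KS6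
  Pool.Sel51

theorem floor_of_finer {x y : ℝ} {j k : ℕ} (hjk : j ≤ k)
    (h : ⌊(2 : ℝ) ^ k * x⌋ = ⌊(2 : ℝ) ^ k * y⌋) : ⌊(2 : ℝ) ^ j * x⌋ = ⌊(2 : ℝ) ^ j * y⌋ := by
  obtain ⟨n, rfl⟩ := Nat.exists_eq_add_of_le hjk
  have e : ∀ z : ℝ, ⌊(2 : ℝ) ^ j * z⌋ = ⌊(2 : ℝ) ^ (j + n) * z⌋ / (2 : ℤ) ^ n := by
    intro z
    have h1 : (2 : ℝ) ^ j * z = (2 : ℝ) ^ (j + n) * z / ((2 ^ n : ℕ) : ℝ) := by
      push_cast
      rw [pow_add]
      field_simp
    rw [h1, Int.floor_div_natCast]
    push_cast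
    rfl
  rw [e, e, h]

section fam

variable {J : ℕ} {F : Fam 3 J} {p : F.Ω → ℝ} {i₀ : Fin 3}

/-- Velocity digits given the coarser digits and a variable. -/
theorem act_diff {S : Type} (h0 : ∀ ω, 0 ≤ p ω) (W : F.Ω → S) {k n : ℕ} (hkn : k ≤ n) :
    CH p (fun ω => F.D n ω i₀) (fun ω => (F.D k ω i₀, W ω)) =
      CH p (fun ω => F.D n ω i₀) W - CH p (fun ω => F.D k ω i₀) W := by
  have a1 := CH_chain h0 (fun ω => F.D n ω i₀) (fun ω => F.D k ω i₀) W
  have a2 : CH p (fun ω => (F.D n ω i₀, F.D k ω i₀)) W = CH p (fun ω => F.D n ω i₀) W := by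
    refine le_antisymm (CH_mono_left h0 ?_) (CH_mono_left h0 ?_)
    · intro ω ω' _ _ h
      have h1 := (Prod.ext_iff.mp h).1
      exact Prod.ext h1 (floor_of_finer hkn h1)
    · intro ω ω' _ _ h
      exact (Prod.ext_iff.mp (Prod.ext_iff.mp h).1).1
  linarith only [a1, a2]

theorem act_mono {S : Type} (h0 : ∀ ω, 0 ≤ p ω) (W : F.Ω → S) {k n : ℕ} (hkn : k ≤ n) :
    CH p (fun ω => F.D k ω i₀) W ≤ CH p (fun ω => F.D n ω i₀) W := by
  refine CH_mono_left h0 ?_
  intro ω ω' _ _ h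
  exact floor_of_finer hkn (Prod.ext_iff.mp h).1

end fam

/-- **Activity near a point of differentiability**, on large events. -/
theorem act_loc {S : PCl 3} {i₀ : Fin 3} {act : ℚ → ℝ} (hN : ActN S i₀ act) {x a₀ α : ℝ}
    (hx : 0 < x) (hx1 : x < 1) (hα : 0 ≤ α) (hs : Slp act x a₀ α) {κ η : ℝ} (hκ : 0 < κ)
    (hη : 0 < η) : ∃ δ₀ : ℝ, 0 < δ₀ ∧ ∀ δ : ℝ, 0 < δ → δ ≤ δ₀ → ∀ ϖ : ℝ, 0 < ϖ →
    Clp S (fun J F A => ∀ B : F.Ω → Prop, Sub B A → ϖ * Pe F.p A ≤ Pe F.p B →
      ∀ q X : ℕ, |(q : ℝ) - x * J| ≤ δ * J → |((q + X : ℕ) : ℝ) - x * J| ≤ δ * J →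
      κ * δ * J ≤ X →
      (α - η) * X * Real.log 2 ≤ CH (Pool.Agent.H49.Ent.cond F.p B True)
        (fun ω => F.D (q + X) ω i₀) (fun ω => (F.D q ω i₀, Fam.pt F ω)) ∧
      CH (Pool.Agent.H49.Ent.cond F.p B True)
        (fun ω => F.D (q + X) ω i₀) (fun ω => (F.D q ω i₀, Fam.pt F ω)) ≤
        (α + η) * X * Real.log 2) := by
  have hl2 : 0 < Real.log 2 := Real.log_pos (by norm_num)
  have hl2' : Real.log 2 < 1 := by
    have := Real.log_two_lt_d9
    linarith only [hx, hx1, this]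
  -- the precision of the slope
  obtain ⟨ε, hε⟩ : ∃ ε : ℝ, ε = η * κ / 32 := ⟨_, rfl⟩
  have hε0 : 0 < ε := by rw [hε]; positivity
  obtain ⟨δ₁, hδ₁, hs1⟩ := hs ε hε0
  refine ⟨min (δ₁ / 4) (min (x / 4) ((1 - x) / 4)), lt_min (by linarith)
    (lt_min (by linarith) (by linarith)), ?_⟩
  intro δ hδ hδδ ϖ hϖ
  have hd1 : δ ≤ δ₁ / 4 := hδδ.trans (min_le_left _ _)
  have hd2 : δ ≤ x / 4 := (hδδ.trans (min_le_right _ _)).trans (min_le_left _ _)
  have hd3 : δ ≤ (1 - x) / 4 := (hδδ.trans (min_le_right _ _)).trans (min_le_right _ _)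
  -- the mesh
  obtain ⟨r₀, hr1, hr2⟩ := exists_rat_btwn (show x - 3 * δ < x - 2 * δ by linarith only [hδ])
  have hθpos : (0 : ℝ) < min (δ / 2) (min (κ * δ / 8) (κ * δ * η / (16 * (α + 1)))) :=
    lt_min (by linarith only [hr1, hr2]) (lt_min (by positivity) (by positivity))
  obtain ⟨θ, hθ1, hθ2⟩ := exists_rat_btwn hθpos
  have hθa : (θ : ℝ) ≤ δ / 2 := hθ2.le.trans (min_le_left _ _)
  have hθb : (θ : ℝ) ≤ κ * δ / 8 := (hθ2.le.trans (min_le_right _ _)).trans (min_le_left _ _)
  have hθc : (θ : ℝ) ≤ κ * δ * η / (16 * (α + 1)) :=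
    (hθ2.le.trans (min_le_right _ _)).trans (min_le_right _ _)
  have hθd : (α + 1) * θ ≤ κ * δ * η / 16 := by
    have h1 : (α + 1) * θ ≤ (α + 1) * (κ * δ * η / (16 * (α + 1))) :=
      mul_le_mul_of_nonneg_left hθc (by linarith only [hα, hd2, hd3, hr1, hr2])
    have h2 : (α + 1) * (κ * δ * η / (16 * (α + 1))) = κ * δ * η / 16 := by
      field_simp
    linarith only [h1, h2]
  obtain ⟨M, hM⟩ := exists_nat_ge (6 * δ / (θ : ℝ))
  exact by
   obtain ⟨h, hh⟩ : ∃ h : ℝ, h = κ * δ * η * Real.log 2 / 16 := ⟨_, rfl⟩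
   have hh0 : 0 < h := by rw [hh]; positivity
   have hin : ∀ i < M + 1, (r₀ + (i : ℚ) * θ : ℚ) ≤ 1 → 0 ≤ r₀ + (i : ℚ) * θ := by
     intro i _ _
     have h1 : (0 : ℝ) < r₀ := by linarith only [hd2, hr1, hr2]
     have h2 : (0 : ℚ) < r₀ := by exact_mod_cast h1
     have h3 : (0 : ℚ) < θ := by exact_mod_cast hθ1
     positivity
   have hall := Clp.all (S := S) (M + 1) (Φ := fun i J F A => (r₀ + (i : ℚ) * θ : ℚ) ≤ 1 →
     |CH (Pool.Agent.H49.Ent.cond F.p A True)
       (fun ω => F.D ⌊((r₀ + (i : ℚ) * θ : ℚ) : ℝ) * J⌋₊ ω i₀) (Fam.pt F) -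
       act (r₀ + (i : ℚ) * θ) * Real.log 2 * J| ≤ h * J)
     (fun i hi => Clp.cnd fun h1 => hN _ (hin i hi h1) h1 h hh0)
   -- large resolutions
   obtain ⟨J₀, hJ₀⟩ := exists_nat_ge (1 / δ)
   refine Clp.mono (J₂ := J₀ + 1) (hall.ev hϖ) ?_
   intro J hJ F A hEv B hB hP q X hq hqX hX
   have hE := hEv B hB hP
   have h0 : ∀ ω, 0 ≤ Pool.Agent.H49.Ent.cond F.p B True ω :=
     cond_nonneg F.isLaw.nonneg B True
   obtain ⟨p, hp⟩ : ∃ p, p = Pool.Agent.H49.Ent.cond F.p B True := ⟨_, rfl⟩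
   rw [← hp] at h0 hE ⊢
   have hJpos : (0 : ℝ) < J := by
     have : 0 < J := by omega
     exact_mod_cast this
   obtain ⟨a, ha⟩ : ∃ a : ℝ, a = (q : ℝ) / J := ⟨_, rfl⟩
   obtain ⟨b, hb⟩ : ∃ b : ℝ, b = ((q + X : ℕ) : ℝ) / J := ⟨_, rfl⟩
   have hax : |a - x| ≤ δ := by
     have e : a - x = ((q : ℝ) - x * J) / J := by rw [ha]; field_simp
     rw [e, abs_div, abs_of_pos hJpos, div_le_iff₀ hJpos]
     exact hq
   exact by
    have hbx : |b - x| ≤ δ := by
      have e : b - x = (((q + X : ℕ) : ℝ) - x * J) / J := by rw [hb]; field_simp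
      rw [e, abs_div, abs_of_pos hJpos, div_le_iff₀ hJpos]
      exact hqX
    have hab : b - a = X / J := by
      rw [hb, ha]
      push_cast
      field_simp
      ring
    have hXJ : κ * δ ≤ (X : ℝ) / J := by
      rw [le_div_iff₀ hJpos]
      exact hX
    rw [abs_le] at hax hbx
    have hnum : ∀ n : ℕ, ∀ u : ℝ, u = (n : ℝ) / J → (n : ℝ) = u * J := by
      intro n u hu
      rw [hu]
      field_simp
    -- the point of the mesh above `u`, and below `u`
    have up : ∀ u : ℝ, x - δ ≤ u → u ≤ x + δ → ∃ i < M + 1, u ≤ r₀ + i * θ ∧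
        (r₀ : ℝ) + i * θ ≤ u + θ := by
      intro u h1 h2
      refine ⟨⌈(u - r₀) / θ⌉₊, ?_, ?_, ?_⟩
      · have h3 : (u - r₀) / θ ≤ M := by
          refine le_trans ?_ hM
          exact div_le_div_of_nonneg_right (by linarith only [hr1, hθ1, hθb, hax, hbx, hab, hXJ, h2]) hθ1.le
        have := Nat.ceil_le.2 h3
        omega
      · have h3 := Nat.le_ceil ((u - r₀) / θ)
        rw [div_le_iff₀ hθ1] at h3
        linarith only [h3]
      · have h3 := (Nat.ceil_lt_add_one (a := (u - r₀) / θ)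
          (div_nonneg (by linarith only [hr2, hθ1, hθb, hax, hbx, hab, hXJ, h1]) hθ1.le)).le
        have h4 : ((⌈(u - r₀) / θ⌉₊ : ℕ) : ℝ) * θ ≤ ((u - r₀) / θ + 1) * θ :=
          mul_le_mul_of_nonneg_right h3 hθ1.le
        have h5 : ((u - r₀) / θ + 1) * θ = u - r₀ + θ := by
          field_simp
        linarith only [h4, h5]
    exact by
     have dn : ∀ u : ℝ, x - δ ≤ u → u ≤ x + δ → ∃ i < M + 1, u - θ ≤ r₀ + i * θ ∧
         (r₀ : ℝ) + i * θ ≤ u := by
       intro u h1 h2
       refine ⟨⌊(u - r₀) / θ⌋₊, ?_, ?_, ?_⟩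
       · have h3 : (u - r₀) / θ ≤ M := by
           refine le_trans ?_ hM
           exact div_le_div_of_nonneg_right (by linarith only [hr1, hθ1, hθb, hax, hbx, hab, hXJ, h2]) hθ1.le
         have := Nat.floor_le_of_le h3
         omega
       · have h3 := (Nat.lt_floor_add_one ((u - r₀) / θ)).le
         have h4 : (u - r₀) / θ * θ ≤ (((⌊(u - r₀) / θ⌋₊ : ℕ) : ℝ) + 1) * θ :=
           mul_le_mul_of_nonneg_right h3 hθ1.le
         have h5 : (u - r₀) / θ * θ = u - r₀ := by
           field_simp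
         linarith only [h4, h5]
       · have h3 := Nat.floor_le (a := (u - r₀) / θ) (div_nonneg (by linarith only [hr2, hθ1, hθb, hax, hbx, hab, hXJ, h1]) hθ1.le)
         rw [le_div_iff₀ hθ1] at h3
         linarith only [h3]
     -- the entropy at a point of the mesh
     have ent : ∀ i < M + 1, (r₀ : ℝ) + i * θ ≤ x + 2 * δ →
         |CH p (fun ω => F.D ⌊((r₀ : ℝ) + i * θ) * J⌋₊ ω i₀) (Fam.pt F) -
           (a₀ + α * ((r₀ : ℝ) + i * θ - x)) * Real.log 2 * J| ≤
           (h + 3 * ε * δ) * J := by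
       intro i hi hle
       have e1 : ((r₀ + (i : ℚ) * θ : ℚ) : ℝ) = (r₀ : ℝ) + i * θ := by push_cast; ring
       have h1 : (r₀ + (i : ℚ) * θ : ℚ) ≤ 1 := by
         have : ((r₀ + (i : ℚ) * θ : ℚ) : ℝ) ≤ 1 := by rw [e1]; linarith only [hd3, hθ1, hθb, hax, hbx, hab, hXJ, hle]
         exact_mod_cast this
       have h2 := hE i hi h1
       rw [e1] at h2
       have h4 : (0 : ℝ) ≤ (i : ℝ) * θ := by positivity
       have h3 := hs1 (r₀ + (i : ℚ) * θ) (by
         rw [e1, abs_lt]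
         constructor <;> linarith)
       rw [e1] at h3
       have h5 : |(r₀ : ℝ) + i * θ - x| ≤ 3 * δ := by
         rw [abs_le]
         constructor <;> linarith
       have h6 : |act (r₀ + (i : ℚ) * θ) - (a₀ + α * ((r₀ : ℝ) + i * θ - x))| ≤ 3 * ε * δ := by
         have e2 : act (r₀ + (i : ℚ) * θ) - (a₀ + α * ((r₀ : ℝ) + i * θ - x)) =
           act (r₀ + (i : ℚ) * θ) - a₀ - α * ((r₀ : ℝ) + i * θ - x) := by ring
         rw [e2]
         refine h3.trans ?_
         have := mul_le_mul_of_nonneg_left h5 hε0.le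
         linarith only [this]
       have h7 : |act (r₀ + (i : ℚ) * θ) * Real.log 2 * J -
           (a₀ + α * ((r₀ : ℝ) + i * θ - x)) * Real.log 2 * J| ≤ 3 * ε * δ * J := by
         have e2 : act (r₀ + (i : ℚ) * θ) * Real.log 2 * J -
           (a₀ + α * ((r₀ : ℝ) + i * θ - x)) * Real.log 2 * J =
           (act (r₀ + (i : ℚ) * θ) - (a₀ + α * ((r₀ : ℝ) + i * θ - x))) * (Real.log 2 * J) := by
           ring
         rw [e2, abs_mul, abs_of_pos (by positivity : (0 : ℝ) < Real.log 2 * J)]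
         have h8 : Real.log 2 * J ≤ 1 * J := mul_le_mul_of_nonneg_right hl2'.le hJpos.le
         calc _ ≤ 3 * ε * δ * (Real.log 2 * J) := mul_le_mul_of_nonneg_right h6 (by positivity)
           _ ≤ 3 * ε * δ * (1 * J) := mul_le_mul_of_nonneg_left h8 (by positivity)
           _ = 3 * ε * δ * J := by ring
       have h8 := (abs_sub_le (CH p (fun ω => F.D ⌊((r₀ : ℝ) + i * θ) * J⌋₊ ω i₀) (Fam.pt F))
         (act (r₀ + (i : ℚ) * θ) * Real.log 2 * J)
         ((a₀ + α * ((r₀ : ℝ) + i * θ - x)) * Real.log 2 * J)).trans (add_le_add h2 h7)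
       refine h8.trans (le_of_eq ?_)
       ring
     -- numbers
     exact by
      have hκδ : 0 < κ * δ := by positivity
      have n1 : 2 * (h + 3 * ε * δ) + 2 * α * θ * Real.log 2 ≤ η * (κ * δ) * Real.log 2 := by
        have h1 : 2 * (3 * ε * δ) ≤ η * κ * δ * (3 / 16) := by
          rw [hε]
          ring_nf
          exact le_rfl
        have h2 : (1 : ℝ) / 2 < Real.log 2 := by
          have := Real.log_two_gt_d9
          linarith only [hd2, hd3, hθ1, hθb, hax, hbx, hab, hXJ, this]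
        have h3 : η * κ * δ * (3 / 16) ≤ η * κ * δ * (3 / 8) * Real.log 2 := by
          have : 0 < η * κ * δ := by positivity
          nlinarith only [hh, hl2, hh0, h2]
        have h4 : 2 * α * θ * Real.log 2 ≤ 2 * (κ * δ * η / 16) * Real.log 2 := by
          refine mul_le_mul_of_nonneg_right ?_ hl2.le
          have h5 : α * θ ≤ (α + 1) * θ := mul_le_mul_of_nonneg_right (by linarith only [hd2, hd3, hθ1, hθb, hax, hbx, hab, hXJ]) hθ1.le
          linarith only [hθ1, hθd]
        have h5 : 2 * h = κ * δ * η * Real.log 2 / 8 := by rw [hh]; ring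
        have h6 : 0 < κ * δ * η * Real.log 2 := by positivity
        nlinarith only [hh, hh0, h1, h3, h4]
      have n2 : η * (κ * δ) * Real.log 2 * J ≤ η * X * Real.log 2 := by
        have h1 : η * Real.log 2 * (κ * δ * J) ≤ η * Real.log 2 * X :=
          mul_le_mul_of_nonneg_left hX (by positivity)
        linarith only [h1]
      have n3 : (2 * (h + 3 * ε * δ) + 2 * α * θ * Real.log 2) * J ≤ η * X * Real.log 2 :=
        (mul_le_mul_of_nonneg_right n1 hJpos.le).trans n2
      have n4 : (b - a) * J = X := by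
        rw [hab]
        field_simp
      rw [act_diff h0 (Fam.pt F) (by omega : q ≤ q + X)]
      constructor
      · obtain ⟨i, hi, i1, i2⟩ := up a (by linarith only [hax]) (by linarith only [hθ1, hθb, hbx, hab, hXJ])
        obtain ⟨j, hj, j1, j2⟩ := dn b (by linarith only [hθ1, hθb, hax, hab, hXJ]) (by linarith only [hbx])
        have e1 := ent i hi (by linarith only [hθ1, hθb, hax, hbx, hab, hXJ, i2])
        have e2 := ent j hj (by linarith only [hθ1, hθb, hax, hbx, hab, hXJ, j2])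
        rw [abs_le] at e1 e2
        have f1 : q ≤ ⌊((r₀ : ℝ) + i * θ) * J⌋₊ := by
          refine Nat.le_floor ?_
          rw [hnum q a ha]
          exact mul_le_mul_of_nonneg_right i1 hJpos.le
        have f2 : ⌊((r₀ : ℝ) + j * θ) * J⌋₊ ≤ q + X := by
          refine Nat.floor_le_of_le ?_
          rw [hnum (q + X) b hb]
          exact mul_le_mul_of_nonneg_right j2 hJpos.le
        have m1 := act_mono (i₀ := i₀) h0 (Fam.pt F) f1
        have m2 := act_mono (i₀ := i₀) h0 (Fam.pt F) f2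
        have key : (α * (b - a) - 2 * α * θ) * Real.log 2 * J ≤
            (a₀ + α * ((r₀ : ℝ) + j * θ - x)) * Real.log 2 * J -
            (a₀ + α * ((r₀ : ℝ) + i * θ - x)) * Real.log 2 * J := by
          have h1 : α * (b - a) - 2 * α * θ ≤ α * ((r₀ : ℝ) + j * θ - x) -
              α * ((r₀ : ℝ) + i * θ - x) := by
            have h2 : b - a - 2 * θ ≤ ((r₀ : ℝ) + j * θ) - ((r₀ : ℝ) + i * θ) := by linarith only [i2, j1]
            have := mul_le_mul_of_nonneg_left h2 hα
            linarith only [this]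
          have h3 : (0 : ℝ) ≤ Real.log 2 * J := by positivity
          have := mul_le_mul_of_nonneg_right h1 h3
          linarith only [this]
        have key2 : (α * (b - a) - 2 * α * θ) * Real.log 2 * J = α * X * Real.log 2 -
            2 * α * θ * Real.log 2 * J := by
          rw [← n4]
          ring
        linarith only [n3, e1, e2, m1, m2, key, key2]
      · obtain ⟨i, hi, i1, i2⟩ := dn a (by linarith only [hax]) (by linarith only [hθ1, hθb, hbx, hab, hXJ])
        obtain ⟨j, hj, j1, j2⟩ := up b (by linarith only [hθ1, hθb, hax, hab, hXJ]) (by linarith only [hbx])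
        have e1 := ent i hi (by linarith only [hθ1, hθb, hax, hbx, hab, hXJ, i2])
        have e2 := ent j hj (by linarith only [hθ1, hθb, hax, hbx, hab, hXJ, j2])
        rw [abs_le] at e1 e2
        have f1 : ⌊((r₀ : ℝ) + i * θ) * J⌋₊ ≤ q := by
          refine Nat.floor_le_of_le ?_
          rw [hnum q a ha]
          exact mul_le_mul_of_nonneg_right i2 hJpos.le
        have f2 : q + X ≤ ⌊((r₀ : ℝ) + j * θ) * J⌋₊ := by
          refine Nat.le_floor ?_
          rw [hnum (q + X) b hb]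
          exact mul_le_mul_of_nonneg_right j1 hJpos.le
        have m1 := act_mono (i₀ := i₀) h0 (Fam.pt F) f1
        have m2 := act_mono (i₀ := i₀) h0 (Fam.pt F) f2
        have key : (a₀ + α * ((r₀ : ℝ) + j * θ - x)) * Real.log 2 * J -
            (a₀ + α * ((r₀ : ℝ) + i * θ - x)) * Real.log 2 * J ≤
            (α * (b - a) + 2 * α * θ) * Real.log 2 * J := by
          have h1 : α * ((r₀ : ℝ) + j * θ - x) - α * ((r₀ : ℝ) + i * θ - x) ≤
              α * (b - a) + 2 * α * θ := by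
            have h2 : ((r₀ : ℝ) + j * θ) - ((r₀ : ℝ) + i * θ) ≤ b - a + 2 * θ := by linarith only [i1, j2]
            have := mul_le_mul_of_nonneg_left h2 hα
            linarith only [this]
          have h3 : (0 : ℝ) ≤ Real.log 2 * J := by positivity
          have := mul_le_mul_of_nonneg_right h1 h3
          linarith only [this]
        have key2 : (α * (b - a) + 2 * α * θ) * Real.log 2 * J = α * X * Real.log 2 +
            2 * α * θ * Real.log 2 * J := by
          rw [← n4]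
          ring
        linarith only [n3, e1, e2, m1, m2, key, key2]

end Pool.S6C
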