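import Pool.Agent.H90.S6R.H5R
import Pool.Agent.H6.S6H.Lin
import Pool.Agent.H6.S6H.Hin

/-!
# The plateau of `R - varpi`: the pair of the normal positions from the static boxes

The normal positions `nu2` are the coordinates of the static box of the exact frame, up to
rounding. Hence the conditional entropy of a block of digits of the pair, given the context and the
generalised time, is at most that of the static box given the coarser static box, the time and the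
code of the family.
-/

set_option autoImplicit false

namespace Pool.S6H

open Finset Real
open Pool.Agent.H49.Ent Pool.Agent.H32.Dense Pool.STK Pool.KA Pool.KA.Box Pool.KSAT Pool.K2S
  Pool.S6N Pool.FALL

variable {J : ℕ}

/-- The exact normal coordinates. -/
noncomputable def gx (F : Fam 3 J) (σ : Fin 3 → Fin 3) (U P : ℕ) (a' s t' : F.Ω → ℝ)
    (i : Fin 2) (ω : F.Ω) : ℝ :=
  ![2 ^ U * mco (tfr σ (a' ω) (s ω) (t' ω)) (F.x ω) 1,
    2 ^ P * mco (tfr σ (a' ω) (s ω) (t' ω)) (F.x ω) 2] i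

section lemmas

variable {F : Fam 3 J} {A : F.Ω → Prop} {σ : Fin 3 → Fin 3} {w q V H X : ℕ} {D : ℝ}
  {a s t a' t' : F.Ω → ℝ}

/-- The normal positions are near the exact normal coordinates. -/
theorem nu2_gx (hF : Frg F A w V H D a s t a' s t') (hD : 0 ≤ D) (hw : w ≤ J) {ω : F.Ω}
    (hω : A ω) (i : Fin 2) :
    |nu2 F σ w q V H X a s t a' s t' ω i - gx F σ (q + V + w) (q + (V + H) + w) a' s t' i ω| ≤
      (2 + 2 * (D + D * D)) / 2 ^ X := by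
  obtain ⟨h1, h2⟩ := nu2_near (σ := σ) (q := q) (X := X) hF hD hw hω
  fin_cases i
  · change |nu2 F σ w q V H X a s t a' s t' ω 0 -
      2 ^ (q + V + w) * mco (tfr σ (a' ω) (s ω) (t' ω)) (F.x ω) 1| ≤ _
    rw [mco_tfr1]
    exact h1
  · change |nu2 F σ w q V H X a s t a' s t' ω 1 -
      2 ^ (q + (V + H) + w) * mco (tfr σ (a' ω) (s ω) (t' ω)) (F.x ω) 2| ≤ _
    rw [mco_tfr2]
    have e : EN σ (a' ω) (s ω) (t' ω) (F.x ω) - s ω * Eu σ (a' ω) (F.x ω) =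
        F.x ω (σ 2) - s ω * F.x ω (σ 1) - t' ω * F.x ω (σ 0) := by
      unfold EN Eu
      ring
    rw [e] at h2
    exact h2

/-- The digits of the exact normal coordinates are the coordinates of the static box. -/
theorem dg_gx_det {r U P j : ℕ} {ω ω' : F.Ω}
    (h : F.sbx σ r (U + j) (P + j) a' s t' ω = F.sbx σ r (U + j) (P + j) a' s t' ω') (i : Fin 2) :
    Uni.dg j (gx F σ U P a' s t' i) ω = Uni.dg j (gx F σ U P a' s t' i) ω' := by
  have h1 := (Prod.ext_iff.mp h).2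
  have h2 := congrFun h1 1
  have h3 := congrFun h1 2
  have key : ∀ (K : ℕ) (z z' : ℝ), ⌊(2 : ℝ) ^ (K + j) * z⌋ = ⌊(2 : ℝ) ^ (K + j) * z'⌋ →
      ⌊(2 : ℝ) ^ j * (2 ^ K * z)⌋ = ⌊(2 : ℝ) ^ j * (2 ^ K * z')⌋ := by
    intro K z z' h
    have e : ∀ y : ℝ, (2 : ℝ) ^ j * (2 ^ K * y) = 2 ^ (K + j) * y := by
      intro y
      rw [pow_add]
      ring
    rw [e, e]
    exact h
  fin_cases i
  · exact key U _ _ h2
  · exact key P _ _ h3

/-- Conversely. -/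
theorem gx_near {U P j : ℕ} {ω ω' : F.Ω} (ha : a' ω = a' ω') (hs : s ω = s ω')
    (ht : t' ω = t' ω')
    (h : ∀ i : Fin 2, Uni.dg j (gx F σ U P a' s t' i) ω = Uni.dg j (gx F σ U P a' s t' i) ω') :
    |mco (tfr σ (a' ω) (s ω) (t' ω)) (F.x ω) 1 -
        mco (tfr σ (a' ω) (s ω) (t' ω)) (F.x ω') 1| ≤ 1 / 2 ^ (U + j) ∧
      |mco (tfr σ (a' ω) (s ω) (t' ω)) (F.x ω) 2 -
        mco (tfr σ (a' ω) (s ω) (t' ω)) (F.x ω') 2| ≤ 1 / 2 ^ (P + j) := by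
  have key : ∀ (K : ℕ) (z z' : ℝ), |2 ^ K * z - 2 ^ K * z'| ≤ 1 / (2 : ℝ) ^ j →
      |z - z'| ≤ 1 / 2 ^ (K + j) := by
    intro K z z' h
    have e : (2 : ℝ) ^ K * z - 2 ^ K * z' = 2 ^ K * (z - z') := by ring
    rw [e, abs_mul, abs_of_pos (by positivity : (0 : ℝ) < 2 ^ K), le_div_iff₀ (by positivity)] at h
    rw [le_div_iff₀ (by positivity), pow_add]
    linarith
  have h0 := near_of_dg (h 0)
  have h1 := near_of_dg (h 1)
  change |2 ^ U * mco (tfr σ (a' ω) (s ω) (t' ω)) (F.x ω) 1 -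
    2 ^ U * mco (tfr σ (a' ω') (s ω') (t' ω')) (F.x ω') 1| ≤ 1 / 2 ^ j at h0
  change |2 ^ P * mco (tfr σ (a' ω) (s ω) (t' ω)) (F.x ω) 2 -
    2 ^ P * mco (tfr σ (a' ω') (s ω') (t' ω')) (F.x ω') 2| ≤ 1 / 2 ^ j at h1
  rw [← ha, ← hs, ← ht] at h0 h1
  exact ⟨key U _ _ h0, key P _ _ h1⟩

/-- The first coordinate is known from the context. -/
theorem x0_near (hw : w ≤ J) {ω ω' : F.Ω}
    (hc : ctx F σ w q V H a s t ω = ctx F σ w q V H a s t ω') (hT : F.T ω = F.T ω') :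
    |mco (tfr σ (a' ω) (s ω) (t' ω)) (F.x ω) 0 -
        mco (tfr σ (a' ω) (s ω) (t' ω)) (F.x ω') 0| ≤ 2 / 2 ^ (q + w) := by
  rw [mco_tfr0, mco_tfr0]
  obtain ⟨p1, -, -⟩ := pos_form (σ := σ) hw q V H a s t a' s t' ω
  obtain ⟨p2, -, -⟩ := pos_form (σ := σ) hw q V H a s t a' s t' ω'
  have k1 := congrFun (mkn_ctx hc hT) 0
  have m1 := mx_mem (w := w) (q := q) (V := V) (H := H) (σ := σ) (a := a) (s := s) (t := t) ω 0
  have m2 := mx_mem (w := w) (q := q) (V := V) (H := H) (σ := σ) (a := a) (s := s) (t := t) ω' 0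
  have e : (2 : ℝ) ^ (q + w) * (F.x ω (σ 0) - F.x ω' (σ 0)) =
      F.mx w (cv q V H) (fr σ a s t) ω 0 - F.mx w (cv q V H) (fr σ a s t) ω' 0 := by
    rw [mul_sub, p1, p2, k1]
    ring
  rw [le_div_iff₀ (by positivity), mul_comm]
  rw [← abs_of_pos (by positivity : (0 : ℝ) < 2 ^ (q + w)), ← abs_mul, e, abs_le]
  constructor <;> linarith [m1.1, m1.2, m2.1, m2.2]

/-- **The dictionary.** The conditional entropy of a block of digits of the pair of the normal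
positions, from the static boxes. -/
theorem CH_nu2_le {p : F.Ω → ℝ} (hp : IsLaw p) (hA : ∀ ω, 0 < p ω → A ω)
    (hF : Frg F A w V H D a s t a' s t') (hD : 0 ≤ D) (hw : w ≤ J) {j j' : ℕ} (hj : j ≤ X)
    (hj' : j' ≤ X) :
    CH p (Pool.OCV.dgv j' (nu2 F σ w q V H X a s t a' s t'))
      (fun ω => (Pool.OCV.dgv j (nu2 F σ w q V H X a s t a' s t') ω,
        (ctx F σ w q V H a s t ω, T2 F a s t a' s t' ω))) ≤
      CH p (F.sbx σ (q + w) (q + V + w + j') (q + (V + H) + w + j') a' s t')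
        (fun ω => (F.sbx σ (q + w) (q + V + w + j) (q + (V + H) + w + j) a' s t' ω, F.W ω)) +
      (3 * Real.log 7 + 2 * (2 * Real.log (5 + 4 * (2 + 2 * (D + D * D))))) := by
  have h0 := hp.nonneg
  obtain ⟨U, hU⟩ : ∃ U, U = q + V + w := ⟨_, rfl⟩
  obtain ⟨P, hP⟩ : ∃ P, P = q + (V + H) + w := ⟨_, rfl⟩
  obtain ⟨Q, hQ⟩ : ∃ Q : F.Ω → _, Q = fun ω => (ctx F σ w q V H a s t ω, T2 F a s t a' s t' ω) :=
    ⟨_, rfl⟩
  have hQ' : ∀ ω ω', Q ω = Q ω' → ctx F σ w q V H a s t ω = ctx F σ w q V H a s t ω' ∧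
      F.T ω = F.T ω' ∧ a' ω = a' ω' ∧ s ω = s ω' ∧ t' ω = t' ω' := by
    intro ω ω' h
    rw [hQ] at h
    obtain ⟨-, h2⟩ := T2_ext (Prod.ext_iff.mp h).2
    exact ⟨(Prod.ext_iff.mp h).1, gt_ext h2⟩
  -- the exact coordinates
  have s1 := CH_blkv_near (m := 2) hp (f := fun i ω => nu2 F σ w q V H X a s t a' s t' ω i)
    (g := gx F σ U P a' s t') (E := 2 + 2 * (D + D * D)) (k := fun _ => j) (k' := fun _ => j')
    (X := X) (by positivity) (fun _ => hj) (fun _ => hj') (fun i ω hω => by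
      rw [hU, hP]
      exact nu2_gx hF hD hw (hA ω hω) i) Q
  -- the static box
  obtain ⟨B, hB⟩ : ∃ f, f = F.sbx σ (q + w) (U + j) (P + j) a' s t' := ⟨_, rfl⟩
  obtain ⟨B', hB'⟩ : ∃ f, f = F.sbx σ (q + w) (U + j') (P + j') a' s t' := ⟨_, rfl⟩
  obtain ⟨W, hW⟩ : ∃ f : F.Ω → (Fin 2 → ℤ) × _,
      f = fun ω => ((fun i => Uni.dg j (gx F σ U P a' s t' i) ω), Q ω) := ⟨_, rfl⟩
  have hW' : ∀ ω ω', W ω = W ω' → (∀ i, Uni.dg j (gx F σ U P a' s t' i) ω =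
      Uni.dg j (gx F σ U P a' s t' i) ω') ∧ Q ω = Q ω' := by
    intro ω ω' h
    rw [hW] at h
    exact ⟨fun i => congrFun (Prod.ext_iff.mp h).1 i, (Prod.ext_iff.mp h).2⟩
  have s2 : CH p (fun ω i => Uni.dg j' (gx F σ U P a' s t' i) ω) W ≤ CH p B' W := by
    refine CH_mono_left h0 fun ω ω' _ _ h => ?_
    have h1 := (Prod.ext_iff.mp h).1
    rw [hB'] at h1
    funext i
    exact dg_gx_det h1 i
  have s3 := CH_le_add h0 B' B W
  have s4 : CH p B W ≤ (3 : ℕ) * Real.log (2 * 2 + 3) := by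
    rw [hB]
    refine CH_sbx (F := F) (σ := σ) (a := a') (s := s) (t := t') hp W ?_
    intro ω ω' _ _ h
    obtain ⟨d1, d2⟩ := hW' ω ω' h
    obtain ⟨q1, q2, q3, q4, q5⟩ := hQ' ω ω' d2
    refine ⟨⟨q3, q4, q5⟩, ?_⟩
    obtain ⟨g1, g2⟩ := gx_near q3 q4 q5 d1
    intro i
    fin_cases i
    · exact x0_near hw q1 q2
    · exact g1.trans (div_le_div_of_nonneg_right (by norm_num) (by positivity))
    · exact g2.trans (div_le_div_of_nonneg_right (by norm_num) (by positivity))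
  have s5 : CH p B' (fun ω => (B ω, W ω)) ≤ CH p B' (fun ω => (B ω, F.W ω)) := by
    refine CH_mono_cond h0 fun ω ω' _ _ h => ?_
    obtain ⟨b1, b2⟩ := Prod.ext_iff.mp h
    obtain ⟨-, d2⟩ := hW' ω ω' b2
    obtain ⟨q1, q2, -⟩ := hQ' ω ω' d2
    exact Prod.ext b1 (Prod.ext q2 (Z_ctx q1))
  have e1 : Real.log (2 * 2 + 3) = Real.log 7 := by norm_num
  rw [e1] at s4
  rw [hQ] at s1
  rw [hW, hQ] at s2
  have e2 : ((3 : ℕ) : ℝ) = 3 := by norm_num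
  have e3 : ((2 : ℕ) : ℝ) = 2 := by norm_num
  rw [e2] at s4
  rw [e3] at s1
  rw [← hU, ← hP, ← hB, ← hB']
  have s6 : CH p (Pool.OCV.dgv j' (nu2 F σ w q V H X a s t a' s t'))
      (fun ω => (Pool.OCV.dgv j (nu2 F σ w q V H X a s t a' s t') ω,
        (ctx F σ w q V H a s t ω, T2 F a s t a' s t' ω))) ≤ _ := s1
  rw [hW, hQ] at s3 s4 s5
  linarith

/-- The constant of the dictionary. -/
noncomputable def CD (D : ℝ) : ℝ :=
  3 * Real.log 7 + 2 * (2 * Real.log (5 + 4 * (2 + 2 * (D + D * D))))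

/-- **The field `row`** of the data of one family, from the static boxes. -/
theorem row_field {N M w₀ Δ r V₀ q₀ κ : ℕ} {ϖ e c : ℝ} {a t : ℕ → F.Ω → ℝ} {s a' t' : F.Ω → ℝ}
    (hl : IsLaw (Pool.Agent.H49.Ent.cond F.p A True)) (hD : 0 ≤ D) (hϖ : 0 < ϖ)
    (hF : ∀ i ≤ N, Frg F A (fw w₀ Δ i) (fv V₀ r i) H D (a i) s (t i) a' s t')
    (hJ : ∀ i ≤ N, fw w₀ Δ i ≤ J) (he : e + CD D ≤ c)
    (h : ∀ i ≤ N, ∀ k < M, ∀ j : ℕ, (j + 1) * κ ≤ X → ∀ E : F.Ω → Prop,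
      ϖ ≤ Pe (Pool.Agent.H49.Ent.cond F.p A True) E →
      CH (Pool.Agent.H49.Ent.cond (Pool.Agent.H49.Ent.cond F.p A True) E True)
        (F.sbx σ (fq q₀ Δ r N i k + fw w₀ Δ i)
          (fq q₀ Δ r N i k + fv V₀ r i + fw w₀ Δ i + (j + 1) * κ)
          (fq q₀ Δ r N i k + (fv V₀ r i + H) + fw w₀ Δ i + (j + 1) * κ) a' s t')
        (fun ω => (F.sbx σ (fq q₀ Δ r N i k + fw w₀ Δ i)
          (fq q₀ Δ r N i k + fv V₀ r i + fw w₀ Δ i + j * κ)
          (fq q₀ Δ r N i k + (fv V₀ r i + H) + fw w₀ Δ i + j * κ) a' s t' ω, F.W ω)) ≤ e) :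
    ∀ i ≤ N, ∀ k < M, ∀ j : ℕ, (j + 1) * κ ≤ X → ∀ E : F.Ω → Prop,
      ϖ ≤ Pe (Pool.Agent.H49.Ent.cond F.p A True) E →
      CH (Pool.Agent.H49.Ent.cond (Pool.Agent.H49.Ent.cond F.p A True) E True)
        (Pool.OCV.dgv ((j + 1) * κ) (nu2 F σ (fw w₀ Δ i) (fq q₀ Δ r N i k) (fv V₀ r i) H X
          (a i) s (t i) a' s t'))
        (fun ω => (Pool.OCV.dgv (j * κ) (nu2 F σ (fw w₀ Δ i) (fq q₀ Δ r N i k) (fv V₀ r i) H X
          (a i) s (t i) a' s t') ω,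
          (ctx F σ (fw w₀ Δ i) (fq q₀ Δ r N i k) (fv V₀ r i) H (a i) s (t i) ω,
            T2 F (a i) s (t i) a' s t' ω))) ≤ c := by
  intro i hi k hk j hj E hE
  have hlE := isLaw_event hl hϖ hE
  have hA : ∀ ω, 0 < Pool.Agent.H49.Ent.cond (Pool.Agent.H49.Ent.cond F.p A True) E True ω →
      A ω := fun ω hω =>
    of_eq_true ((cond_pos_iff F.isLaw.nonneg A True ω).1 (of_event_pos hl hω)).2
  have hj0 : j * κ ≤ X := by
    have : j * κ ≤ (j + 1) * κ := Nat.mul_le_mul_right κ (Nat.le_succ j)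
    omega
  have k1 := CH_nu2_le (σ := σ) (q := fq q₀ Δ r N i k) hlE hA (hF i hi) hD (hJ i hi) hj0 hj
  have k2 := h i hi k hk j hj E hE
  unfold CD at he
  linarith

end lemmas

end Pool.S6H
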