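import Pool.Agent.H90.S6R.Fall1
import Pool.Agent.H21.FALL.Stmt

/-!
# (H5) with the static boxes in a frame near the exact frame

`h5rf`: the static boxes are taken in a frame `(af, sf, tf)` (of a label at a finer window) which is
known given the generalised time up to a constant, and whose normal form agrees with the exact one
up to `X` digits beyond the precisions of the context. `row_of_box`: the field `row` of the data
for falling.
-/

set_option autoImplicit false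

namespace Pool.S6N

open Finset Real
open Pool.Agent.H49.Ent Pool.Agent.H32.Dense Pool.STK Pool.KA Pool.KA.Box Pool.KSAT Pool.K2S

section h5rf

variable {J : ℕ} {F : Fam 3 J} {A : F.Ω → Prop} {σ : Fin 3 → Fin 3} {w q V H X : ℕ} {D : ℝ}
  {a s t a' s' t' af sf tf : F.Ω → ℝ}

/-- The position in the box is bounded. -/
theorem mx_le (i : Fin 3) (ω : F.Ω) : |F.mx w (cv q V H) (fr σ a s t) ω i| ≤ 2 := by
  have h1 := mu_mem F w (fun i => cv q V H i + w) (fr σ a s t) ω i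
  have h2 := md_mem F (cv q V H) (fr σ a s t) ω i
  have h3 := Lab.wt_mem F w ω
  unfold Fam.mx
  have h4 : 0 ≤ F.wt w ω * F.md (cv q V H) (fr σ a s t) ω i := mul_nonneg h3.1 h2.1
  have h5 : F.wt w ω * F.md (cv q V H) (fr σ a s t) ω i ≤ 1 * 1 :=
    mul_le_mul h3.2.le h2.2.le h2.1 zero_le_one
  rw [abs_le]
  constructor <;> linarith [h1.1, h1.2]

/-- The row in the coordinates of the context. -/
theorem rw3_SS (ω : F.Ω) :
    F.rw3 σ w (q + w) (q + V + w) (q + (V + H) + w) a s t a' s' t' 2 ω =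
      F.mx w (cv q V H) (fr σ a s t) ω 2 -
        SS V H a s t s' t' 0 ω * F.mx w (cv q V H) (fr σ a s t) ω 0 -
        SS V H a s t s' t' 1 ω * F.mx w (cv q V H) (fr σ a s t) ω 1 := by
  have e1 : F.rw3 σ w (q + w) (q + V + w) (q + (V + H) + w) a s t a' s' t' 2 ω =
      F.mr w (cv q V H) (fr σ a s t) (S3 w q V H a s t s' t') ω := by
    rw [rw3_2]
    unfold Fam.nrow
    rw [vpr_cv, ppr_cv]
    rfl
  rw [e1]
  unfold Fam.mr
  rw [Fin.sum_univ_three, S3_eq]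
  simp only [Matrix.cons_val_zero, Matrix.cons_val_one, Matrix.cons_val_two,
    Matrix.tail_cons, Matrix.head_cons]
  ring

/-- The rounded row is near the row of a near frame. -/
theorem nn_near_f (hF : Frg F A w V H D a s t a' s' t') (hw : w ≤ J) (hD : 0 ≤ D) {D' : ℝ}
    {ω : F.Ω} (hω : A ω)
    (h0 : |SS V H a s t s' t' 0 ω - SS V H a s t sf tf 0 ω| ≤ D' / 2 ^ X)
    (h1 : |SS V H a s t s' t' 1 ω - SS V H a s t sf tf 1 ω| ≤ D' / 2 ^ X) :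
    |nn F σ w q V H X a s t s' t' ω -
      F.rw3 σ w (q + w) (q + V + w) (q + (V + H) + w) a s t af sf tf 2 ω| ≤
        (2 + 4 * D + 4 * D') / 2 ^ X := by
  have k1 := nn_near (F := F) (σ := σ) (q := q) (X := X) hF hw hD hω
  have k2 : |F.rw3 σ w (q + w) (q + V + w) (q + (V + H) + w) a s t a' s' t' 2 ω -
      F.rw3 σ w (q + w) (q + V + w) (q + (V + H) + w) a s t af sf tf 2 ω| ≤
        4 * D' / 2 ^ X := by
    rw [rw3_SS, rw3_SS]
    obtain ⟨m, hm⟩ : ∃ m, m = F.mx w (cv q V H) (fr σ a s t) ω := ⟨_, rfl⟩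
    have hm2 : ∀ i, |m i| ≤ 2 := by
      intro i
      rw [hm]
      exact mx_le i ω
    rw [← hm]
    have e : (m 2 - SS V H a s t s' t' 0 ω * m 0 - SS V H a s t s' t' 1 ω * m 1) -
        (m 2 - SS V H a s t sf tf 0 ω * m 0 - SS V H a s t sf tf 1 ω * m 1) =
        -((SS V H a s t s' t' 0 ω - SS V H a s t sf tf 0 ω) * m 0) -
          (SS V H a s t s' t' 1 ω - SS V H a s t sf tf 1 ω) * m 1 := by ring
    rw [e]
    refine (abs_sub _ _).trans ?_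
    rw [abs_neg, abs_mul, abs_mul]
    have hD' : 0 ≤ D' / 2 ^ X := (abs_nonneg _).trans h0
    have g0 := mul_le_mul h0 (hm2 0) (abs_nonneg _) hD'
    have g1 := mul_le_mul h1 (hm2 1) (abs_nonneg _) hD'
    have e2 : 4 * D' / (2 : ℝ) ^ X = D' / 2 ^ X * 2 + D' / 2 ^ X * 2 := by ring
    rw [e2]
    exact add_le_add g0 g1
  have e : (2 + 4 * D + 4 * D') / (2 : ℝ) ^ X = (2 + 4 * D) / 2 ^ X + 4 * D' / 2 ^ X := by ring
  rw [e]
  exact (abs_sub_le _ _ _).trans (add_le_add k1 k2)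

/-- **(H5)** for the row `nn`, the static boxes in the frame `(af, sf, tf)`. -/
theorem h5rf (hσ : Function.Injective σ) (hF : Frg F A w V H D a s t a' s' t')
    (hFf : ∀ ω, A ω → |af ω - a ω| ≤ D / 2 ^ V ∧ |sf ω - s ω| ≤ D / 2 ^ H ∧
      |(tf ω - t ω) + (sf ω - s ω) * a ω| ≤ D / 2 ^ (V + H)) (hw : w ≤ J)
    (hD : 1 ≤ D) {D' : ℝ} (hD' : 0 ≤ D')
    (hcl : ∀ ω, A ω → |SS V H a s t s' t' 0 ω - SS V H a s t sf tf 0 ω| ≤ D' / 2 ^ X ∧
      |SS V H a s t s' t' 1 ω - SS V H a s t sf tf 1 ω| ≤ D' / 2 ^ X)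
    (hQ : IsLaw (Pool.Agent.H49.Ent.cond F.p A True)) {V' : Type} (v : F.Ω → V')
    (hv : ∀ ω ω', ctx F σ w q V H a s t ω = ctx F σ w q V H a s t ω' →
      gt F a' s' t' ω = gt F a' s' t' ω' → v ω = v ω')
    {κ : ℕ} {ϖ e Cf : ℝ} (hϖ : 0 < ϖ)
    (hCf : ∀ A' : F.Ω → Prop, ϖ ≤ Pe (Pool.Agent.H49.Ent.cond F.p A True) A' →
      CH (Pool.Agent.H49.Ent.cond (Pool.Agent.H49.Ent.cond F.p A True) A' True)
        (fun ω => (af ω, (sf ω, tf ω)))
        (fun ω => (ctx F σ w q V H a s t ω, gt F a' s' t' ω)) ≤ Cf)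
    (h : ∀ j : ℕ, (j + 1) * κ ≤ X → ∀ A' : F.Ω → Prop,
      ϖ ≤ Pe (Pool.Agent.H49.Ent.cond F.p A True) A' →
      CH (Pool.Agent.H49.Ent.cond (Pool.Agent.H49.Ent.cond F.p A True) A' True)
        (F.sbx σ (q + w) (q + V + w) (q + (V + H) + w + (j + 1) * κ) af sf tf)
        (fun ω => (F.sbx σ (q + w) (q + V + w) (q + (V + H) + w + j * κ) af sf tf ω, v ω)) ≤
          e) :
    ∀ j : ℕ, (j + 1) * κ ≤ X → ∀ A' : F.Ω → Prop,
      ϖ ≤ Pe (Pool.Agent.H49.Ent.cond F.p A True) A' →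
      CH (Pool.Agent.H49.Ent.cond (Pool.Agent.H49.Ent.cond F.p A True) A' True)
        (Uni.dg ((j + 1) * κ) (nn F σ w q V H X a s t s' t'))
        (fun ω => (Uni.dg (j * κ) (nn F σ w q V H X a s t s' t') ω,
          (ctx F σ w q V H a s t ω, gt F a' s' t' ω))) ≤
        e + (3 * Real.log (12 * D + 3) + Real.log 5 +
          2 * Real.log (5 + 4 * (2 + 4 * D + 4 * D')) + Cf) := by
  intro j hj A' hA'
  have hA : ∀ ω, 0 < Pool.Agent.H49.Ent.cond F.p A True ω → A ω := fun ω hω =>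
    of_eq_true ((cond_pos_iff F.isLaw.nonneg A True ω).1 hω).2
  have hl := isLaw_event hQ hϖ hA'
  have hfn : ∀ ω, 0 < Pool.Agent.H49.Ent.cond F.p A True ω →
      Fnr (q + w) (q + V + w) (q + (V + H) + w) D (a ω) (s ω) (t ω) (af ω) (sf ω) (tf ω) := by
    intro ω hω
    obtain ⟨c1, c2, c3⟩ := hFf ω (hA ω hω)
    have e : ∀ x y z : ℕ, y = x + z → D * 2 ^ x / (2 : ℝ) ^ y = D / 2 ^ z := by
      intro x y z h
      rw [h, pow_add]
      field_simp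
    refine ⟨?_, ?_, ?_⟩
    · rw [e (q + w) (q + V + w) V (by omega)]
      exact c1
    · rw [e (q + V + w) (q + (V + H) + w) H (by omega)]
      exact c2
    · rw [e (q + w) (q + (V + H) + w) (V + H) (by omega)]
      exact c3
  have key := h5_n (F := F) (a := a) (s := s) (t := t) (a' := af) (s' := sf) (t' := tf)
    (w := w) (r := q + w) (U := q + V + w) (P := q + (V + H) + w) hQ hw hD (by omega) (by omega)
    (by omega) hσ hfn (ctx F σ w q V H a s t)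
    (fun ω => (gt F a' s' t' ω, (af ω, (sf ω, tf ω)))) v
    (fun ω ω' _ _ h1 h2 => by
      have h3 := Prod.ext_iff.mp h2
      have h4 := Prod.ext_iff.mp h3.2
      have h5 := Prod.ext_iff.mp h4.2
      exact ⟨by rw [ctx_cv]; exact h1, (gt_ext h3.1).1, ⟨h4.1, h5.1, h5.2⟩, hv ω ω' h1 h3.1⟩)
    (fun ω _ => rfl) hϖ h j hj A' hA'
  obtain ⟨p, hp⟩ : ∃ p, p = Pool.Agent.H49.Ent.cond
    (Pool.Agent.H49.Ent.cond F.p A True) A' True := ⟨_, rfl⟩
  have hCf' := hCf A' hA'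
  have hpos : ∀ ω, 0 < p ω → A ω := fun ω hω => hA ω (of_event_pos hQ (hp ▸ hω))
  rw [← hp] at hl key hCf' ⊢
  have h0 := hl.nonneg
  obtain ⟨n, hn⟩ : ∃ n, n = nn F σ w q V H X a s t s' t' := ⟨_, rfl⟩
  obtain ⟨n', hn'⟩ : ∃ n, n = F.rw3 σ w (q + w) (q + V + w) (q + (V + H) + w) a s t af sf tf 2 :=
    ⟨_, rfl⟩
  rw [← hn'] at key
  rw [← hn]
  obtain ⟨Q, hQ'⟩ : ∃ Q, Q = fun ω => (ctx F σ w q V H a s t ω, gt F a' s' t' ω) := ⟨_, rfl⟩
  obtain ⟨f, hf⟩ : ∃ f, f = fun ω => (af ω, (sf ω, tf ω)) := ⟨_, rfl⟩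
  rw [← hQ', ← hf] at hCf'
  have g0 : (fun ω => (Uni.dg (j * κ) n ω, (ctx F σ w q V H a s t ω, gt F a' s' t' ω))) =
      fun ω => (Uni.dg (j * κ) n ω, Q ω) := by rw [hQ']
  rw [g0]
  have g1 := CH_le_add h0 (Uni.dg ((j + 1) * κ) n) f (fun ω => (Uni.dg (j * κ) n ω, Q ω))
  have g2 : CH p f (fun ω => (Uni.dg (j * κ) n ω, Q ω)) ≤ CH p f Q :=
    CH_mono_cond h0 fun ω ω' _ _ e => (Prod.ext_iff.mp e).2
  have g3 : CH p (Uni.dg ((j + 1) * κ) n) (fun ω => (f ω, (Uni.dg (j * κ) n ω, Q ω))) ≤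
      CH p (Uni.dg ((j + 1) * κ) n) (fun ω => (Uni.dg (j * κ) n ω, (f ω, Q ω))) :=
    CH_mono_cond h0 fun ω ω' _ _ e => by
      have e1 := Prod.ext_iff.mp e
      have e2 := Prod.ext_iff.mp e1.2
      exact Prod.ext e2.1 (Prod.ext e1.1 e2.2)
  have g4 := CH_blk_near (p := p) (f := n) (g := n') (k := j * κ) (k' := (j + 1) * κ) (X := X)
    hl (by linarith : (0 : ℝ) ≤ 2 + 4 * D + 4 * D') (by
      have : j * κ ≤ (j + 1) * κ := Nat.mul_le_mul_right κ (Nat.le_succ j)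
      omega) hj (fun ω hω => by
        rw [hn, hn']
        exact nn_near_f hF hw (by linarith) (hpos ω hω) (hcl ω (hpos ω hω)).1
          (hcl ω (hpos ω hω)).2) (fun ω => (f ω, Q ω))
  have g5 : CH p (Uni.dg ((j + 1) * κ) n') (fun ω => (Uni.dg (j * κ) n' ω, (f ω, Q ω))) ≤
      CH p (Uni.dg ((j + 1) * κ) n') (fun ω => (Uni.dg (j * κ) n' ω,
        (ctx F σ w q V H a s t ω, (gt F a' s' t' ω, (af ω, (sf ω, tf ω)))))) := by
    refine CH_mono_cond h0 fun ω ω' _ _ e => ?_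
    have e1 := Prod.ext_iff.mp e
    have e2 := Prod.ext_iff.mp e1.2
    have e3 : f ω = f ω' := e2.1
    have e4 : Q ω = Q ω' := e2.2
    rw [hf] at e3
    rw [hQ'] at e4
    have e5 := Prod.ext_iff.mp e4
    exact Prod.ext e1.1 (Prod.ext e5.1 (Prod.ext e5.2 e3))
  linarith

end h5rf

end Pool.S6N

namespace Pool.FALL

open Finset Real
open Pool.Agent.H49.Ent Pool.Agent.H32.Dense Pool.STK Pool.KA Pool.KSAT Pool.K2S Pool.S6N

/-- The total constant of `row_of_box`. -/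
noncomputable def cRow (D D' Cf : ℝ) : ℝ :=
  3 * Real.log (12 * D + 3) + Real.log 5 + 2 * Real.log (5 + 4 * (2 + 4 * D + 4 * D')) + Cf

/-- **The rows of the normal position** in all the contexts, from the static boxes in the frame
`(af, s, tf)`. -/
theorem row_of_box {J : ℕ} {F : Fam 3 J} {A : F.Ω → Prop} {σ : Fin 3 → Fin 3}
    {N M X Δ r w₀ V₀ H q₀ : ℕ} {D D' c c₁ κ ϖ Cf : ℝ} {a t : ℕ → F.Ω → ℝ}
    {s a' t' af tf : F.Ω → ℝ} (hσ : Function.Injective σ)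
    (hQ : IsLaw (Pool.Agent.H49.Ent.cond F.p A True)) (hD : 1 ≤ D) (hD' : 0 ≤ D')
    (top : w₀ + N * Δ + X ≤ J)
    (frg : ∀ i ≤ N, Frg F A (fw w₀ Δ i) (fv V₀ r i) H D (a i) s (t i) a' s t')
    (hf : ∀ i ≤ N, ∀ ω, A ω → |af ω - a i ω| ≤ D / 2 ^ fv V₀ r i ∧
      |tf ω - t i ω| ≤ D / 2 ^ (fv V₀ r i + H))
    (ht : ∀ ω, A ω → |t' ω - tf ω| ≤ D' / 2 ^ (fv V₀ r N + H + X)) (hϖ : 0 < ϖ)
    (hCf : ∀ E : F.Ω → Prop, ϖ ≤ Pe (Pool.Agent.H49.Ent.cond F.p A True) E →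
      CH (Pool.Agent.H49.Ent.cond (Pool.Agent.H49.Ent.cond F.p A True) E True)
        (fun ω => (af ω, tf ω)) (gt F a' s t') ≤ Cf)
    (hc : cRow D D' Cf ≤ (c₁ - c) * ⌊κ * X⌋₊ * Real.log 2)
    (hbox : ∀ i ≤ N, ∀ k < M, ∀ j : ℕ, (j + 1) * ⌊κ * X⌋₊ ≤ X → ∀ E : F.Ω → Prop,
      ϖ ≤ Pe (Pool.Agent.H49.Ent.cond F.p A True) E →
      CH (Pool.Agent.H49.Ent.cond (Pool.Agent.H49.Ent.cond F.p A True) E True)
        (F.sbx σ (fq q₀ Δ r N i k + fw w₀ Δ i) (fq q₀ Δ r N i k + fv V₀ r i + fw w₀ Δ i)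
          (fq q₀ Δ r N i k + (fv V₀ r i + H) + fw w₀ Δ i + (j + 1) * ⌊κ * X⌋₊) af s tf)
        (fun ω => (F.sbx σ (fq q₀ Δ r N i k + fw w₀ Δ i)
          (fq q₀ Δ r N i k + fv V₀ r i + fw w₀ Δ i)
          (fq q₀ Δ r N i k + (fv V₀ r i + H) + fw w₀ Δ i + j * ⌊κ * X⌋₊) af s tf ω, F.W ω)) ≤
        (1 - c₁) * ⌊κ * X⌋₊ * Real.log 2) :
    ∀ i ≤ N, ∀ k < M, ∀ j : ℕ, (j + 1) * ⌊κ * X⌋₊ ≤ X → ∀ E : F.Ω → Prop,
      ϖ ≤ Pe (Pool.Agent.H49.Ent.cond F.p A True) E →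
      CH (Pool.Agent.H49.Ent.cond (Pool.Agent.H49.Ent.cond F.p A True) E True)
        (Uni.dg ((j + 1) * ⌊κ * X⌋₊) (nn F σ (fw w₀ Δ i) (fq q₀ Δ r N i k) (fv V₀ r i) H X (a i) s
          (t i) s t'))
        (fun ω => (Uni.dg (j * ⌊κ * X⌋₊) (nn F σ (fw w₀ Δ i) (fq q₀ Δ r N i k) (fv V₀ r i) H X
          (a i) s (t i) s t') ω,
          (ctx F σ (fw w₀ Δ i) (fq q₀ Δ r N i k) (fv V₀ r i) H (a i) s (t i) ω,
            gt F a' s t' ω))) ≤
        (1 - c) * ⌊κ * X⌋₊ * Real.log 2 := by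
  intro i hi k hk j hj E hE
  have hfwi : fw w₀ Δ i ≤ J := by
    unfold fw
    have : i * Δ ≤ N * Δ := Nat.mul_le_mul_right Δ hi
    omega
  have hfvi : fv V₀ r i ≤ fv V₀ r N := by
    unfold fv
    have : i * r ≤ N * r := Nat.mul_le_mul_right r hi
    omega
  have hlE := isLaw_event hQ hϖ hE
  have key := h5rf (F := F) (A := A) (σ := σ) (w := fw w₀ Δ i) (q := fq q₀ Δ r N i k)
    (V := fv V₀ r i) (H := H) (X := X) (D := D) (a := a i) (s := s) (t := t i) (a' := a')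
    (s' := s) (t' := t') (af := af) (sf := s) (tf := tf) hσ (frg i hi) ?_ hfwi hD hD' ?_ hQ F.W ?_
    (κ := ⌊κ * X⌋₊) (ϖ := ϖ) (Cf := Cf) (e := (1 - c₁) * ⌊κ * X⌋₊ * Real.log 2) hϖ ?_
    (hbox i hi k hk) j hj E hE
  · have hc' : (1 - c₁) * (⌊κ * X⌋₊ : ℝ) * Real.log 2 + cRow D D' Cf ≤
        (1 - c) * ⌊κ * X⌋₊ * Real.log 2 := by linarith
    exact key.trans hc'
  · intro ω hω
    obtain ⟨h1, h2⟩ := hf i hi ω hω
    refine ⟨h1, ?_, ?_⟩
    · rw [sub_self, abs_zero]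
      positivity
    · rw [sub_self, zero_mul, add_zero]
      exact h2
  · intro ω hω
    constructor
    · change |2 ^ (fv V₀ r i + H) * ((t' ω - t i ω) + (s ω - s ω) * a i ω) -
        2 ^ (fv V₀ r i + H) * ((tf ω - t i ω) + (s ω - s ω) * a i ω)| ≤ D' / 2 ^ X
      have e : 2 ^ (fv V₀ r i + H) * ((t' ω - t i ω) + (s ω - s ω) * a i ω) -
        2 ^ (fv V₀ r i + H) * ((tf ω - t i ω) + (s ω - s ω) * a i ω) =
        2 ^ (fv V₀ r i + H) * (t' ω - tf ω) := by ring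
      rw [e, abs_mul, abs_of_pos (by positivity : (0 : ℝ) < 2 ^ (fv V₀ r i + H))]
      refine (mul_le_mul_of_nonneg_left (ht ω hω) (by positivity)).trans ?_
      have e2 : (2 : ℝ) ^ (fv V₀ r i + H) * (D' / 2 ^ (fv V₀ r N + H + X)) =
        D' * 2 ^ (fv V₀ r i + H) / 2 ^ (fv V₀ r N + H + X) := by ring
      rw [e2]
      have e3 : D' / (2 : ℝ) ^ X = D' * 2 ^ 0 / 2 ^ X := by ring
      rw [e3]
      exact Box.pow_le_div hD' (by omega)
    · rw [SS1_zero, SS1_zero, sub_zero, abs_zero]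
      positivity
  · intro ω ω' h1 h2
    have h3 := Box.mlb_ext (F := F) (g := fw w₀ Δ i) (M := fr σ (a i) s (t i)) h1
    exact Prod.ext (gt_ext h2).1 h3.2.2.2.2
  · intro E' hE'
    have hlE' := isLaw_event hQ hϖ hE'
    refine le_trans ?_ (hCf E' hE')
    refine (CH_mono_left hlE'.nonneg (X' := fun ω => (af ω, tf ω)) ?_).trans
      (CH_mono_cond hlE'.nonneg ?_)
    · intro ω ω' _ _ h
      have h1 := Prod.ext_iff.mp h
      have h2 := Prod.ext_iff.mp h1.1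
      have h3 := (gt_ext (Prod.ext_iff.mp h1.2).2).2.2.1
      exact Prod.ext h2.1 (Prod.ext h3 h2.2)
    · intro ω ω' _ _ h
      exact (Prod.ext_iff.mp h).2

end Pool.FALL
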