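import Pool.Agent.H75.S6C.Rot
import Pool.Agent.H40.S6.Ev
import Pool.Agent.H50.K2.Piece
import Pool.Agent.H32.Dense.Conf
import Pool.Agent.H20.OC.Tools

/-!
# Pairs of samples and subevents; the slopes of the fans are bounded off a small event
-/

set_option autoImplicit false

namespace Pool.S6N

open Finset Real
open Pool.Agent.H49.Ent Pool.Agent.H32.Dense Pool.STK Pool.KA Pool.KSAT Pool.K2S Pool.PB Pool.KS6
  Pool.S6C

/-- Pairs of samples with a common label, on a part of the space. -/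
theorem Pr_dbl_part {Ω T : Type} [Fintype Ω] {q : Ω → ℝ} (hq : IsLaw q) {G : Ω → Prop}
    (hG : 0 < Pe q G) (b : Ω → T) (E : Set (Ω × Ω)) :
    Pool.KAF.Pr (dbl q b) E ≤ Pool.KAF.Pr (dbl (Pool.Agent.H49.Ent.cond q G True) b) E +
      2 * Pe q (fun ω => ¬ G ω) := by
  classical
  have hgl : law q G True = Pe q G := by
    unfold law Pe
    refine Finset.sum_congr rfl fun ω _ => ?_
    by_cases hA : G ω <;> simp [hA]
  have hg1 : Pe q G ≤ 1 := by
    have := Pe_mono hq (A := fun _ : Ω => True) (B := G) (fun _ _ => trivial)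
    refine this.trans (le_of_eq ?_)
    rw [Pe_eq]
    simpa using hq.sum_one
  have n0 := hq.nonneg
  -- the three parts
  have m1 : Pool.KAF.Pr (dbl q b) {w | w.1 ∈ {ω | ¬ G ω}} = Pe q (fun ω => ¬ G ω) := by
    have h1 := (dbl_fst (b := b) n0).law (fun ω => ω ∈ {ω | ¬ G ω}) True
    refine Eq.trans h1 ?_
    rw [Pe_eq]
    unfold law
    refine Finset.sum_congr rfl fun ω _ => ?_
    by_cases hA : G ω <;> simp [hA]
  have m2 : Pool.KAF.Pr (dbl q b) {w | w.2 ∈ {ω | ¬ G ω}} = Pe q (fun ω => ¬ G ω) := by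
    have h1 := (dbl_snd (b := b) n0).law (fun ω => ω ∈ {ω | ¬ G ω}) True
    refine Eq.trans h1 ?_
    rw [Pe_eq]
    unfold law
    refine Finset.sum_congr rfl fun ω _ => ?_
    by_cases hA : G ω <;> simp [hA]
  rw [Pool.KAF.Pr_eq] at m1 m2 ⊢
  rw [Pool.KAF.Pr_eq]
  have key : ∀ w : Ω × Ω, (if w ∈ E then dbl q b w else 0) ≤
      (if w ∈ E then dbl (Pool.Agent.H49.Ent.cond q G True) b w else 0) +
        ((if w ∈ {w : Ω × Ω | w.1 ∈ {ω | ¬ G ω}} then dbl q b w else 0) +
          (if w ∈ {w : Ω × Ω | w.2 ∈ {ω | ¬ G ω}} then dbl q b w else 0)) := by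
    intro w
    have d0 : 0 ≤ dbl q b w := glue_nonneg n0 n0 w
    have d1 : 0 ≤ dbl (Pool.Agent.H49.Ent.cond q G True) b w :=
      glue_nonneg (fun ω => Pool.Agent.H49.Ent.cond_nonneg n0 G True ω)
        (fun ω => Pool.Agent.H49.Ent.cond_nonneg n0 G True ω) w
    by_cases hE : w ∈ E
    · rw [if_pos hE, if_pos hE]
      by_cases g1 : G w.1
      · by_cases g2 : G w.2
        · rw [if_neg (by simpa using g1), if_neg (by simpa using g2), add_zero, add_zero]
          by_cases hb : b w.1 = b w.2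
          · have e1 : dbl q b w = q w.1 * q w.2 / law q b (b w.1) := by
              unfold Pool.Agent.H32.Dense.dbl glue
              rw [if_pos hb]
            have e2 : dbl (Pool.Agent.H49.Ent.cond q G True) b w =
                (q w.1 / Pe q G) * (q w.2 / Pe q G) /
                  law (Pool.Agent.H49.Ent.cond q G True) b (b w.1) := by
              unfold Pool.Agent.H32.Dense.dbl glue Pool.Agent.H49.Ent.cond
              rw [if_pos hb, if_pos (eq_true g1), if_pos (eq_true g2), hgl]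
            rcases (n0 w.1).eq_or_lt with h0 | h0
            · rw [e1, ← h0, zero_mul, zero_div]
              exact d1
            have l1 : 0 < law q b (b w.1) := law_pos n0 b h0
            have l2 : law (Pool.Agent.H49.Ent.cond q G True) b (b w.1) ≤
                law q b (b w.1) / Pe q G := by
              unfold law
              rw [Finset.sum_div]
              refine Finset.sum_le_sum fun ω _ => ?_
              by_cases h1 : b ω = b w.1
              · rw [if_pos h1, if_pos h1]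
                unfold Pool.Agent.H49.Ent.cond
                by_cases h2 : G ω
                · rw [if_pos (eq_true h2), hgl]
                · rw [if_neg (fun h => h2 (of_eq_true h))]
                  exact div_nonneg (n0 ω) hG.le
              · rw [if_neg h1, if_neg h1, zero_div]
            have l3 : 0 < law (Pool.Agent.H49.Ent.cond q G True) b (b w.1) := by
              refine law_pos (fun ω => Pool.Agent.H49.Ent.cond_nonneg n0 G True ω) b ?_
              unfold Pool.Agent.H49.Ent.cond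
              rw [if_pos (eq_true g1), hgl]
              exact div_pos h0 hG
            rw [e1, e2]
            have h3 : 0 ≤ q w.1 * q w.2 := mul_nonneg h0.le (n0 _)
            calc q w.1 * q w.2 / law q b (b w.1) ≤ q w.1 * q w.2 / law q b (b w.1) / Pe q G := by
                  rw [le_div_iff₀ hG]
                  exact mul_le_of_le_one_right (div_nonneg h3 l1.le) hg1
              _ = (q w.1 / Pe q G) * (q w.2 / Pe q G) / (law q b (b w.1) / Pe q G) := by
                  field_simp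
              _ ≤ _ := div_le_div_of_nonneg_left
                  (mul_nonneg (div_nonneg h0.le hG.le) (div_nonneg (n0 _) hG.le)) l3 l2
          · have e1 : dbl q b w = 0 := by
              unfold Pool.Agent.H32.Dense.dbl glue
              rw [if_neg hb]
            rw [e1]
            exact d1
        · rw [if_pos (show w ∈ {w : Ω × Ω | w.2 ∈ {ω | ¬ G ω}} from g2)]
          have : 0 ≤ if w ∈ {w : Ω × Ω | w.1 ∈ {ω | ¬ G ω}} then dbl q b w else 0 := by
            split_ifs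
            · exact d0
            · exact le_rfl
          linarith
      · rw [if_pos (show w ∈ {w : Ω × Ω | w.1 ∈ {ω | ¬ G ω}} from g1)]
        have : 0 ≤ if w ∈ {w : Ω × Ω | w.2 ∈ {ω | ¬ G ω}} then dbl q b w else 0 := by
          split_ifs
          · exact d0
          · exact le_rfl
        linarith
    · rw [if_neg hE, if_neg hE]
      split_ifs <;> linarith
  refine (Finset.sum_le_sum fun w _ => key w).trans ?_
  rw [Finset.sum_add_distrib, Finset.sum_add_distrib, m1, m2]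
  linarith

section cls

variable {S : PCl 3} {a R h₁ : ℝ} {i₀ : Fin 3} {c s₂ : ℝ} {r : ℝ → ℝ} {D : Set ℝ}
  {σ : ℝ → Row}

/-- The slopes of the fans are at most `3 / 2` somewhere. -/
theorem slope_one (hC : Cs S a R h₁ i₀ c s₂ r D σ) {u : ℝ} (hu : 0 < u) :
    Clp S (fun J F A => ∀ (m : ℕ) (E N : (Fin 3 → ℤ) × (ℕ × F.ζ) → Fin 3 → ℝ), u * J ≤ m →
      OnL i₀ (1 / 2 ^ m) (ptq F J) F.d A E N → ∃ ω, A ω ∧ ∀ j, |E (ptq F J ω) j| ≤ 3 / 2) := by
  have h1 := hC.h₁0
  obtain ⟨x, hx⟩ : ∃ x : ℝ, x = min (min u h₁) 1 / 4 := ⟨_, rfl⟩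
  have hx0 : 0 < x := by
    rw [hx]
    have : 0 < min (min u h₁) 1 := lt_min (lt_min hu h1) one_pos
    positivity
  have hxu : 4 * x ≤ u := by
    rw [hx]
    have : min (min u h₁) 1 ≤ u := (min_le_left _ _).trans (min_le_left _ _)
    linarith
  have hxh : 4 * x ≤ h₁ := by
    rw [hx]
    have : min (min u h₁) 1 ≤ h₁ := (min_le_left _ _).trans (min_le_right _ _)
    linarith
  have hx1 : 4 * x ≤ 1 := by
    rw [hx]
    have : min (min u h₁) 1 ≤ 1 := min_le_right _ _
    linarith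
  obtain ⟨τ, hτ, J₁, hsp⟩ := spread_part hC.a1 hC.R0 hC.ub hC.st hC.lb hx0
  obtain ⟨J₂, hJ₂⟩ := exists_nat_gt (10 / x)
  refine Clp.of hτ (max J₁ J₂) fun J hJ F A hS m E N hm hE => ?_
  have hJ1 : J₁ ≤ J := (le_max_left _ _).trans hJ
  have hJ2 : (J₂ : ℝ) ≤ J := by exact_mod_cast (le_max_right _ _).trans hJ
  have hJ0 : (0 : ℝ) ≤ J := Nat.cast_nonneg J
  have gx : 10 < x * J := by
    have := hJ₂.trans_le hJ2
    rw [div_lt_iff₀ hx0] at this
    linarith
  have hq2 := Nat.ceil_lt_add_one (a := x * J) (by positivity)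
  have hq1 := Nat.le_ceil (x * J)
  obtain ⟨q, hq⟩ : ∃ q, q = ⌈x * J⌉₊ := ⟨_, rfl⟩
  rw [← hq] at hq1 hq2
  have k1 : q ≤ J := by
    have e1 : 4 * x * J ≤ 1 * J := mul_le_mul_of_nonneg_right hx1 hJ0
    have : (q : ℝ) ≤ J := by linarith
    exact_mod_cast this
  have k2 : q + 5 ≤ ⌊h₁ * J⌋₊ := by
    refine Nat.le_floor ?_
    push_cast
    have e1 : 4 * x * J ≤ h₁ * J := mul_le_mul_of_nonneg_right hxh hJ0
    linarith
  have k3 : q + 5 ≤ m := by
    have e1 : 4 * x * J ≤ u * J := mul_le_mul_of_nonneg_right hxu hJ0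
    have : ((q + 5 : ℕ) : ℝ) ≤ m := by
      push_cast
      linarith
    exact_mod_cast this
  obtain ⟨B, hBA, hPB, hBs⟩ := hsp J hJ1 F A hS q k1 hq1 (by omega)
  have hpos : 0 < Pe F.p B :=
    lt_of_lt_of_le (mul_pos (Real.exp_pos _)
      (lt_of_lt_of_le (Real.exp_pos _) (hC.st _ _ _ _ hS).2.2.2)) hPB
  have hne : ∃ ω, B ω := by
    by_contra hcon
    push Not at hcon
    have : Pe F.p B = 0 := by
      classical
      rw [Pe_eq]
      exact Finset.sum_eq_zero fun ω _ => if_neg (hcon ω)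
    linarith
  obtain ⟨ω, hω⟩ := hne
  obtain ⟨eb, nb, hb⟩ := hC.lb _ _ _ _ hS
  refine ⟨ω, hBA ω hω, fun j => ?_⟩
  obtain ⟨ω', ω'', b1, b2, b3, b4, b5⟩ := hBs ω hω
  have a1 := hb.line ω' (hBA _ b1) j
  have a2 := hb.line ω'' (hBA _ b2) j
  have a3 := hE ω' (hBA _ b1) j
  have a4 := hE ω'' (hBA _ b2) j
  rw [b3] at a1
  rw [b4] at a2
  rw [ptq_of_pt F le_rfl b3] at a3
  rw [ptq_of_pt F le_rfl b4] at a4
  have hcl := frame_close (U := ℕ) (d := F.d) a1 a2 a3 a4 (by positivity) b5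
  have hb' := hb.bound ω (hBA _ hω) j
  have k4 : (1 : ℝ) / 2 ^ ⌊h₁ * J⌋₊ ≤ 1 / 2 ^ (q + 5) := inv_mono k2
  have k5 : (1 : ℝ) / 2 ^ m ≤ 1 / 2 ^ (q + 5) := inv_mono k3
  have t1 : (2 * (1 / 2 ^ ⌊h₁ * J⌋₊) + 2 * (1 / 2 ^ m)) / (1 / 2 ^ (q + 1)) ≤ (1 / 2 : ℝ) := by
    rw [div_le_iff₀ (by positivity)]
    have : (1 : ℝ) / 2 ^ (q + 5) = 1 / 2 ^ (q + 1) / 16 := by
      rw [show q + 5 = q + 1 + 4 by ring, pow_add 2 (q + 1) 4]
      field_simp
      norm_num
    have h0 : (0 : ℝ) < 1 / 2 ^ (q + 1) := by positivity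
    rw [this] at k4 k5
    linarith
  have := abs_sub_abs_le_abs_sub (E (ptq F J ω) j) (eb (Fam.pt F ω) j)
  linarith

/-- The slopes of the fans are at most `3 / 2` off a small event. -/
theorem slope_off (hC : Cs S a R h₁ i₀ c s₂ r D σ) {u : ℝ} (hu : 0 < u) {ϖ : ℝ} (hϖ : 0 < ϖ) :
    Clp S (fun J F A => ∀ (m : ℕ) (E N : (Fin 3 → ℤ) × (ℕ × F.ζ) → Fin 3 → ℝ), u * J ≤ m →
      OnL i₀ (1 / 2 ^ m) (ptq F J) F.d A E N →
      Pe (Pool.Agent.H49.Ent.cond F.p A True) (fun ω => ¬ ∀ j, |E (ptq F J ω) j| ≤ 3 / 2) ≤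
        ϖ) := by
  have c2 : Clp S (fun J F A => 0 < Pe F.p A) :=
    Clp.of one_pos 0 fun J _ F A hA => lt_of_lt_of_le (Real.exp_pos _) (hC.st _ _ _ _ hA).2.2.2
  refine Clp.mono (J₂ := 0) (((slope_one hC hu).ev hϖ).and c2) ?_
  rintro J - F A ⟨h1, h2⟩ m E N hm hE
  by_contra hcon
  push Not at hcon
  rw [Pe_cond, lt_div_iff₀ h2] at hcon
  obtain ⟨ω, hω, h3⟩ := h1 (fun ω => A ω ∧ ¬ ∀ j, |E (ptq F J ω) j| ≤ 3 / 2)
    (fun ω hω => hω.1) (by simpa using hcon.le) m E N hm (fun ω hω => hE ω hω.1)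
  exact hω.2 h3

end cls

end Pool.S6N
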