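import Pool.Agent.H90.S6R.Zh6

/-!
# (H7) in the zone, at integer windows
-/

set_option autoImplicit false

namespace Pool.S6N

open Finset Real
open Pool.Agent.H49.Ent Pool.Agent.H32.Dense Pool.STK Pool.KA Pool.KSAT Pool.K3 Pool.K2S Pool.PB
  Pool.KS6 Pool.S6C

/-- A variable which is determined by another one on an event is a function of it there. -/
theorem fn_on {Ω U T : Type} {B : Ω → Prop} {g : Ω → U} {f : Ω → T} (t₀ : T)
    (h : ∀ ω ω', B ω → B ω' → g ω = g ω' → f ω = f ω') : ∃ φ : U → T, ∀ ω, B ω → f ω = φ (g ω) := by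
  classical
  refine ⟨fun z => if hz : ∃ ω, B ω ∧ g ω = z then f hz.choose else t₀, fun ω hω => ?_⟩
  have hz : ∃ ω', B ω' ∧ g ω' = g ω := ⟨ω, hω, rfl⟩
  beta_reduce
  rw [dif_pos hz]
  exact h _ _ hω hz.choose_spec.1 hz.choose_spec.2.symm

/-- **(H7)** in the zone. -/
theorem h7_zon : H7Stmt := by
  intro S a R h₁ i₀ c s₂ r D σ hC N u w₀ v₀ v g ρ e hZ j x ε h1j hj hx _ hr1 hgap hε
  have he := hZ.e0
  have hx0 : 0 < x := by linarith only [hx, he]
  have hrw := hC.row 1 one_pos le_rfl hC.D1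
  have hj1 : j - 1 ≤ N := by omega
  have hG := hrw.rot (u (j - 1)) (hZ.u_pos hj1).le (hZ.u_lt hj1).le
  have hG0 := num_nonneg hC.ne hG
  obtain ⟨c', hc', J₁, hn⟩ := num_no2 (qRot_hered i₀ 1 (u (j - 1))) hG he 0
  obtain ⟨J₂, hJ₂⟩ := exists_nat_gt (24 / e)
  obtain ⟨J₃, hJ₃⟩ := exists_nat_gt (-Real.log (min ε (1 / 4)) / c')
  refine Clp.of hc' (max J₁ (max J₂ J₃)) fun J hJ F A hS B hBA hPB Pu PN τ y z al nu k b hM
    Vx w q X hw1 hw2 V H hV hVH k1 k2 k3 _ => ?_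
  have hJ1 : J₁ ≤ J := (le_max_left _ _).trans hJ
  have hJ2 : (J₂ : ℝ) ≤ J := by
    exact_mod_cast ((le_max_left _ _).trans (le_max_right _ _)).trans hJ
  have hJ3 : (J₃ : ℝ) ≤ J := by
    exact_mod_cast ((le_max_right _ _).trans (le_max_right _ _)).trans hJ
  have hJ0 : (0 : ℝ) ≤ J := Nat.cast_nonneg J
  have geJ : 24 < e * J := by
    have := hJ₂.trans_le hJ2
    rw [div_lt_iff₀ he] at this
    linarith only [this]
  have hmin : 0 < min ε (1 / 4) := lt_min hε (by norm_num)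
  have hexp : Real.exp (-(c' * J)) ≤ min ε (1 / 4) := by
    have := (hJ₃.trans_le hJ3).le
    rw [div_le_iff₀ hc'] at this
    rw [← Real.exp_log hmin]
    exact Real.exp_le_exp.2 (by linarith only [this])
  have hApos : 0 < Pe F.p A := (Real.exp_pos _).trans_le (hC.st _ J F A hS).2.2.2
  have hBpos : 0 < Pe F.p B := by linarith only [hPB, hApos]
  have hl : IsLaw (Pool.Agent.H49.Ent.cond F.p B True) := isLaw_event F.isLaw hBpos le_rfl
  have hPB' : Real.exp (-(c' * J)) * Pe F.p A ≤ Pe F.p B := by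
    calc _ ≤ 1 / 4 * Pe F.p A :=
          mul_le_mul_of_nonneg_right (hexp.trans (min_le_right _ _)) hApos.le
      _ ≤ _ := by linarith only [hPB]
  have e1 : ⌊(1 : ℝ) * J⌋₊ = J := by rw [one_mul, Nat.floor_natCast]
  -- the numbers
  obtain ⟨n1, -, -, -, -⟩ := hZ.num hj1
  obtain ⟨s1, s2, s3, s4⟩ := hZ.step h1j hj
  rw [abs_le] at n1
  have hu1 := hZ.uR hj1
  have huj := hZ.uR hj
  have f2 := Nat.lt_floor_add_one ((g - w₀ + ρ * (u j - w₀) - 20 * e) * J)
  have f3 := Nat.lt_floor_add_one ((v₀ + v * (u j - w₀) - 10 * e) * J)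
  have hGe : 0 ≤ (σ 1).rot (u (j - 1)) + e := by linarith only [he, hG0]
  have f4 := Nat.floor_le (mul_nonneg hGe hJ0)
  have hJe : e * J ≤ x / 100 * J := mul_le_mul_of_nonneg_right (by linarith only [hx]) hJ0
  have eVH' : (V : ℝ) + H = ⌊(g - w₀ + ρ * (u j - w₀) - 20 * e) * J⌋₊ := by
    have : ((V + H : ℕ) : ℝ) = ⌊(g - w₀ + ρ * (u j - w₀) - 20 * e) * J⌋₊ := by
      rw [hVH]
      rfl
    rw [← this]
    push_cast
    ring
  have eV' : (V : ℝ) = ⌊(v₀ + v * (u j - w₀) - 10 * e) * J⌋₊ := by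
    rw [hV]
    rfl
  have K1 : ((σ 1).rot (u (j - 1)) + e) * J + 70 * (e * J) ≤
      (g - w₀ + ρ * (u j - w₀) - 20 * e) * J := by
    have : (σ 1).rot (u (j - 1)) + e + 70 * e ≤ g - w₀ + ρ * (u j - w₀) - 20 * e := by
      linarith only [hx, hgap, he, n1, s3, n1.2]
    have := mul_le_mul_of_nonneg_right this hJ0
    linarith only [this]
  have K2 : ((σ 1).rot (u (j - 1)) + e) * J + 80 * (e * J) ≤
      (v₀ + v * (u j - w₀) - 10 * e) * J + x * J := by
    have : (σ 1).rot (u (j - 1)) + e + 80 * e ≤ (v₀ + v * (u j - w₀) - 10 * e) + x := by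
      linarith only [hx, he, n1, s3, n1.2]
    have := mul_le_mul_of_nonneg_right this hJ0
    linarith only [this]
  obtain ⟨m, hm⟩ : ∃ m : ℕ, m = ⌊((σ 1).rot (u (j - 1)) + e) * J⌋₊ := ⟨_, rfl⟩
  rw [← hm] at f4
  have c1 : m + 18 ≤ V + H := by
    have : ((m + 18 : ℕ) : ℝ) ≤ ((V + H : ℕ) : ℝ) := by
      push_cast
      rw [eVH']
      linarith only [hx, hr1, he, hG0, geJ, f2, K1, f4]
    exact_mod_cast this
  have c2 : (m : ℝ) + 7 ≤ V + x * J := by
    rw [eV']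
    linarith only [hx, hr1, he, hG0, geJ, f3, K2, f4]
  have c3 : m + 7 ≤ Pu := by
    have : ((m + 7 : ℕ) : ℝ) ≤ Pu := by
      push_cast
      linarith only [hx, hr1, he, hG0, k2, geJ, f3, eV', K2, f4]
    exact_mod_cast this
  have c4 : m + 7 ≤ PN := by
    have : ((m + 7 : ℕ) : ℝ) ≤ PN := by
      push_cast
      linarith only [hx, hr1, he, hG0, k3, geJ, f3, eV', K2, f4]
    exact_mod_cast this
  have c8 : V ≤ Vx := by
    have : (V : ℝ) ≤ Vx := by linarith only [hx, hr1, he, hG0, k1, geJ, hJe, mul_nonneg hx0.le hJ0]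
    exact_mod_cast this
  have hwJ : wl u J (j - 1) ≤ J := by
    refine Nat.floor_le_of_le ?_
    calc (u (j - 1) : ℝ) * J ≤ 1 * J := mul_le_mul_of_nonneg_right hu1.2.le hJ0
      _ = J := one_mul _
  have eH : H = rl u w₀ g ρ e J j - vl u w₀ v₀ v e J j := by omega
  have hFj := frg_of (j := j) (Vx := Vx) (Hx := H) (Rx := V + H) hM.frx hM.fre hj
    (vl_le_rl hZ J hj) (vl_anti hZ J (Nat.zero_le j) hj) (rl_anti hZ J (Nat.zero_le j) hj)
    (hV ▸ c8) (eH ▸ le_rfl) (by omega)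
  rw [← eH, ← hV] at hFj
  have hwle : w ≤ J := hw2.trans hwJ
  have hFw := frg_up hw1 hwle hFj
  obtain ⟨φ, hφ⟩ := hM.frx.yp
  have hyp : ∀ ω ω', B ω → B ω' → ptq F J ω = ptq F J ω' → y ω = y ω' := by
    intro ω ω' hω hω' h
    rw [hφ ω hω, hφ ω' hω', h]
  have hls : ∀ ω ω', slam F (wl u J (j - 1)) ω = slam F (wl u J (j - 1)) ω' →
      (blk F τ w q V H X (fun ω => za V (z j ω)) (fun ω => zs H (z j ω))
          (fun ω => zt V H (z j ω)) ω,
        ctx F τ w q V H (fun ω => za V (z j ω)) (fun ω => zs H (z j ω))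
          (fun ω => zt V H (z j ω)) ω) =
      (blk F τ w q V H X (fun ω => za V (z j ω)) (fun ω => zs H (z j ω))
          (fun ω => zt V H (z j ω)) ω',
        ctx F τ w q V H (fun ω => za V (z j ω)) (fun ω => zs H (z j ω))
          (fun ω => zt V H (z j ω)) ω') := fun ω ω' h =>
    lab_slam hFw ω ω' (Pool.S6K.slam_mono hw2 hwJ h)
  have pm : (0 : ℝ) < 2 ^ m := by positivity
  have p5 : (1 : ℝ) / 2 ^ (m + 5) = 1 / 32 / 2 ^ m := by
    rw [pow_add]
    field_simp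
    norm_num
  refine (Pr_dbl_self hl ?_ (h7_lab F (Qt := J) (i0 := i₀) (iu := τ 1) (iN := τ 2)
    (by rw [← hM.i0]; exact sig_all hM.inj) (v := wl u J (j - 1)) (κ := c' * J)
    (r := 1 / 2 ^ m) (ρ := 1 / 2 ^ (m + 5)) (Bs := 21) hl (al := al)
    (be := fun ω => k ω - (y ω).c - (y ω).s * al ω) (nu := nu)
    (ga := fun ω => b ω - (y ω).s * nu ω) ?_ ?_ ?_ hls (s := fun ω => zs H (z j ω))
    (t := fun ω => zt V H (z j ω)) ?_ (by norm_num) ?_ ?_ (by positivity) ?_)).trans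
    (hexp.trans (min_le_left _ _))
  · -- closeness of the directions
    rintro ⟨ω, ω'⟩ hg hx1 hx2 hx3
    have hA : ∀ ω, 0 < Pool.Agent.H49.Ent.cond F.p B True ω → B ω := fun ω hω =>
      of_eq_true ((cond_pos_iff F.isLaw.nonneg B True ω).1 hω).2
    have hb : ctx F τ w q V H (fun ω => za V (z j ω)) (fun ω => zs H (z j ω))
        (fun ω => zt V H (z j ω)) ω = ctx F τ w q V H (fun ω => za V (z j ω))
        (fun ω => zs H (z j ω)) (fun ω => zt V H (z j ω)) ω' := (Prod.ext_iff.mp hg).2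
    obtain ⟨f1, -, -⟩ := ctx_frm hM.inj hb
    have q1 : |2 ^ V * (xa Vx (al ω) - za V (z j ω)) - 2 ^ V * (xa Vx (al ω') - za V (z j ω'))| <
      (2 : ℝ) ^ (-(x * J)) := hx3
    have q2 := scaled_le q1.le
    have f1' : za V (z j ω) = za V (z j ω') := f1
    have q3 := rd_near Vx (al ω)
    have q4 := rd_near Vx (al ω')
    have pV : (0 : ℝ) < 2 ^ V := by positivity
    have q5 : (1 : ℝ) / 2 ^ Vx ≤ (2 : ℝ) ^ (-(x * J)) / 2 ^ V := by
      rw [← Real.rpow_natCast 2 V, ← Real.rpow_natCast 2 Vx, ← Real.rpow_sub two_pos, one_div,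
        ← Real.rpow_neg two_pos.le]
      exact Real.rpow_le_rpow_of_exponent_le (by norm_num) (by linarith only [k1])
    have q6 : 3 * ((2 : ℝ) ^ (-(x * J)) / 2 ^ V) ≤ 1 / 2 ^ (m + 5) := by
      have t1 : (2 : ℝ) ^ (-(x * J)) / 2 ^ V = (2 : ℝ) ^ (-(x * J) - V) := by
        rw [Real.rpow_sub two_pos, Real.rpow_natCast]
      have t2 : (1 : ℝ) / 2 ^ (m + 5) = (2 : ℝ) ^ (-((m : ℝ) + 5)) := by
        rw [Real.rpow_neg two_pos.le, ← one_div]
        congr 1
        rw [← Real.rpow_natCast]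
        push_cast
        rfl
      rw [t1, t2]
      calc 3 * (2 : ℝ) ^ (-(x * J) - V) ≤ 2 ^ (2 : ℝ) * (2 : ℝ) ^ (-(x * J) - V) := by
            refine mul_le_mul_of_nonneg_right ?_ (by positivity)
            rw [Real.rpow_ofNat]
            norm_num
        _ = (2 : ℝ) ^ ((2 : ℝ) + (-(x * J) - V)) := by rw [Real.rpow_add two_pos]
        _ ≤ _ := Real.rpow_le_rpow_of_exponent_le (by norm_num) (by linarith only [hx, hr1, he, hG0, geJ, f3, eV', K2, f4])
    show |al ω - al ω'| ≤ 1 / 2 ^ (m + 5)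
    refine le_trans ?_ q6
    have e2 : al ω - al ω' = -(rd Vx (al ω) - al ω) + ((xa Vx (al ω) - za V (z j ω)) -
        (xa Vx (al ω') - za V (z j ω'))) + (rd Vx (al ω') - al ω') := by
      rw [f1']
      unfold xa
      ring
    rw [e2]
    rw [abs_le] at q2 q3 q4 ⊢
    constructor <;> linarith only [q2, q3, q4, q5, q2.1, q2.2, q3.1, q3.2, q4.1, q4.2]
  · -- visibility
    refine fn_on ((0 : ℝ), (0 : ℝ), (0 : ℝ), (0 : ℝ)) fun ω ω' hω hω' h => ?_
    obtain ⟨g1, g2, g3, g4⟩ := hM.fre.fp ω ω' hω hω' h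
    have g5 := hyp ω ω' hω hω' h
    beta_reduce
    rw [g1, g2, g3, g4, g5]
  · intro ω hω
    have g1 := hM.fre.su ω hω
    rw [hM.i0] at g1
    exact g1.trans (inv_pow_mono (by omega))
  · intro ω hω
    have g1 := hM.fre.su ω hω
    have g2 := hM.fre.sN ω hω
    rw [hM.i0] at g1 g2
    have g3 := (hM.frx.inc ω hω).s_le
    have e2 : F.d ω (τ 2) - (k ω - (y ω).c - (y ω).s * al ω) * F.d ω i₀ -
        (b ω - (y ω).s * nu ω) =
        (fn i₀ (τ 1) (τ 2) (y ω).c (y ω).s (F.d ω) - b ω - k ω * F.d ω i₀) -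
          (y ω).s * (F.d ω (τ 1) - al ω * F.d ω i₀ - nu ω) := by
      unfold fn
      ring
    have e3 : F.d ω (τ 2) - (k ω - (y ω).c - (y ω).s * al ω) * F.d ω i₀ -
        (b ω - (y ω).s * nu ω) = F.d ω (τ 2) - (k ω - (y ω).c - (y ω).s * al ω) * F.d ω i₀ -
        (b ω - (y ω).s * nu ω) := rfl
    rw [e2]
    refine (abs_sub _ _).trans ?_
    rw [abs_mul]
    have g4 : |(y ω).s| * |F.d ω (τ 1) - al ω * F.d ω i₀ - nu ω| ≤ 4 * (1 / 2 ^ Pu) :=
      mul_le_mul g3 g1 (abs_nonneg _) (by norm_num)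
    have g5 : (1 : ℝ) / 2 ^ Pu ≤ 1 / 2 ^ (m + 5) := inv_pow_mono (by omega)
    have g6 : (1 : ℝ) / 2 ^ PN ≤ 1 / 2 ^ (m + 5) := inv_pow_mono (by omega)
    have g7 : (1 : ℝ) / 2 ^ m = 32 * (1 / 2 ^ (m + 5)) := by
      rw [p5]
      ring
    have g8 : (0 : ℝ) ≤ 1 / 2 ^ (m + 5) := by positivity
    rw [g7]
    linarith only [g2, g4, g5, g6, g8]
  · intro ω ω' h
    have hb : ctx F τ w q V H (fun ω => za V (z j ω)) (fun ω => zs H (z j ω))
        (fun ω => zt V H (z j ω)) ω = ctx F τ w q V H (fun ω => za V (z j ω))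
        (fun ω => zs H (z j ω)) (fun ω => zt V H (z j ω)) ω' := (Prod.ext_iff.mp h).2
    exact (ctx_frm hM.inj hb).2
  · intro ω hω
    have g1 := rd_near H (-(z j ω).s)
    have g2 := (hM.frx.zb j hj ω hω).2.2
    have g3 : (1 : ℝ) / 2 ^ H ≤ 1 := by
      rw [div_le_one (by positivity)]
      exact one_le_pow₀ (by norm_num)
    show |rd H (-(z j ω).s)| ≤ 21
    rw [abs_le] at g1 g2 ⊢
    constructor <;> linarith only [g1, g2, g3, g1.1, g1.2, g2.1, g2.2]
  · intro ω hω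
    beta_reduce
    have g1 := hFw.ca ω hω
    have g2 := hFw.cs ω hω
    have g3 := hFw.ct ω hω
    beta_reduce at g1 g2 g3
    have g4 := rd_near (V + H) (-(y ω).c + k ω + (-(y ω).s - xs H (y ω)) * xa Vx (al ω))
    have g5 := rd_near Vx (al ω)
    have g6 := rd_near H (-(y ω).s)
    have g7 := inv_pow_mono c8
    have pV : (0 : ℝ) < 2 ^ V := by positivity
    have pH : (0 : ℝ) < 2 ^ H := by positivity
    have e2 : k ω - (y ω).c - (y ω).s * al ω - (zt V H (z j ω) + zs H (z j ω) * al ω) =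
        -(rd (V + H) (-(y ω).c + k ω + (-(y ω).s - xs H (y ω)) * xa Vx (al ω)) -
          (-(y ω).c + k ω + (-(y ω).s - xs H (y ω)) * xa Vx (al ω))) +
        ((xt Vx H (V + H) (al ω) (k ω) (y ω) - zt V H (z j ω)) +
          (xs H (y ω) - zs H (z j ω)) * za V (z j ω)) +
        (xs H (y ω) - zs H (z j ω)) * (xa Vx (al ω) - za V (z j ω)) +
        (zs H (z j ω) + (y ω).s) * (xa Vx (al ω) - al ω) := by
      unfold xt
      ring
    have m1 : |(xs H (y ω) - zs H (z j ω)) * (xa Vx (al ω) - za V (z j ω))| ≤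
        4096 / 2 ^ (V + H) := by
      rw [abs_mul]
      calc _ ≤ 64 / 2 ^ H * (64 / 2 ^ V) := mul_le_mul g2 g1 (abs_nonneg _) (by positivity)
        _ = _ := by
            rw [pow_add]
            field_simp
            norm_num
    have m2 : |(zs H (z j ω) + (y ω).s) * (xa Vx (al ω) - al ω)| ≤ 65 / 2 ^ (V + H) := by
      have h1 : |zs H (z j ω) + (y ω).s| ≤ 65 / 2 ^ H := by
        have e3 : zs H (z j ω) + (y ω).s = -(xs H (y ω) - zs H (z j ω)) +
            (rd H (-(y ω).s) - -(y ω).s) := by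
          unfold xs
          ring
        have e4 : (65 : ℝ) / 2 ^ H = 64 / 2 ^ H + 1 / 2 ^ H := by ring
        rw [e3, e4]
        refine (abs_add_le _ _).trans ?_
        rw [abs_neg]
        exact add_le_add g2 g6
      have h2 : |xa Vx (al ω) - al ω| ≤ 1 / 2 ^ V := g5.trans g7
      rw [abs_mul]
      calc _ ≤ 65 / 2 ^ H * (1 / 2 ^ V) := mul_le_mul h1 h2 (abs_nonneg _) (by positivity)
        _ = _ := by
            rw [pow_add]
            field_simp
    have m3 : (8192 : ℝ) / 2 ^ (V + H) ≤ 1 / 2 ^ (m + 5) := by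
      rw [div_le_div_iff₀ (by positivity) (by positivity), one_mul]
      calc (8192 : ℝ) * 2 ^ (m + 5) = 2 ^ (m + 18) := by
            rw [pow_add, pow_add]
            norm_num
            ring
        _ ≤ _ := pow_le_pow_right₀ (by norm_num) c1
    refine le_trans ?_ m3
    have e5 : (8192 : ℝ) / 2 ^ (V + H) = 1 / 2 ^ (V + H) + 64 / 2 ^ (V + H) +
      4096 / 2 ^ (V + H) + 65 / 2 ^ (V + H) + 3966 / 2 ^ (V + H) := by ring
    have e6 : (0 : ℝ) ≤ 3966 / 2 ^ (V + H) := by positivity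
    rw [e2, e5]
    rw [abs_le] at g3 g4 m1 m2 ⊢
    constructor <;> linarith only [g3, g4, m1, m2, e6, g3.1, g3.2, g4.1, g4.2, m1.1, m1.2, m2.1, m2.2]
  · intro E hEB hPE hLE
    refine hn J hJ1 F A hS B hBA hPB' E hEB ?_ (Or.inr ⟨by linarith only [hx, hr1, he], ?_⟩)
    · rw [add_zero]
      exact hPE
    · unfold qRot
      rw [e1, ← hm]
      refine RotU.mono le_rfl ?_ hLE
      rw [p5]
      have : (1 + 21) * (1 / 32 / 2 ^ m) = 22 / 32 * (1 / (2 : ℝ) ^ m) := by ring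
      rw [this]
      have : (0 : ℝ) < 1 / 2 ^ m := by positivity
      linarith only [this]

end Pool.S6N
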