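import Pool.Agent.H88.S6F.Frm
import Pool.Agent.H90.S6R.Tur
import Pool.Agent.H90.S6R.Zh7
import Pool.Agent.H90.S6R.Sle

/-!
# The field `tur` of the falling case
-/

set_option autoImplicit false

namespace Pool.S6C

open Finset Real
open Pool.Agent.H49.Ent Pool.Agent.H32.Dense Pool.STK Pool.KA Pool.KSAT Pool.K2S Pool.PB Pool.KS6
  Pool.Sel51 Pool.FALL Pool.S6N

section one

variable {J : ℕ} {F : Fam 3 J} {A : F.Ω → Prop} {sg : Fin 3 → Fin 3}
  {N w₀ Δ r V₀ H X Va Rt Pu PN : ℕ} {a t : ℕ → F.Ω → ℝ} {s a' t' al nu kk bb : F.Ω → ℝ}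

/-- The plank of the exact frame, through the exact point. The slope is a little smaller, by the
factor `1 - 1 / 2 ^ n`, `n = H + X`, such that the plank is a plank of the class. -/
noncomputable def pkf (F : Fam 3 J) (sg : Fin 3 → Fin 3) (n : ℕ) (s a' t' nu bb : F.Ω → ℝ)
    (ω : F.Ω) : Pln where
  e := a' ω
  c := -(t' ω + 1 / 2 ^ n * (s ω * a' ω))
  s := -((1 - 1 / 2 ^ n) * s ω)
  xb := fun i => (F.X J ω i : ℝ) / 2 ^ J -
    F.t ω * (if i = sg 0 then 0 else if i = sg 1 then nu ω else bb ω + s ω * nu ω)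
  db := fun i => if i = sg 0 then 0 else if i = sg 1 then nu ω else bb ω + s ω * nu ω

/-- The directions of the fans. -/
noncomputable def Eon (sg : Fin 3 → Fin 3) (al kk s : ℝ) (j : Fin 3) : ℝ :=
  if j = sg 0 then 1 else if j = sg 1 then al else kk + s * al

theorem inc_pkf (hF : FFr F A sg N w₀ Δ r V₀ H X Va Rt Pu PN a t s a' t' al nu kk bb)
    (hPu : fv V₀ r N ≤ Pu) (hPN : fv V₀ r N + H + X ≤ PN) (hJ : fv V₀ r N + H + X ≤ J)
    (h6 : 6 ≤ fv V₀ r N) {ω : F.Ω} (hω : A ω)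
    (hE : ∀ j, |Eon sg (al ω) (kk ω) (s ω) j| ≤ 3 / 2) :
    Inc (sg 0) (sg 1) (sg 2) 0 (fv V₀ r N) (fv V₀ r N + H + X) 25
      (pkf F sg (H + X) s a' t' nu bb ω) (F.t ω) (F.x ω) (F.d ω) := by
  obtain ⟨b1, b2, b3⟩ := hF.bd ω hω
  have n01 : sg 1 ≠ sg 0 := fun e => by have := hF.bij.1 e; omega
  have n02 : sg 2 ≠ sg 0 := fun e => by have := hF.bij.1 e; omega
  have n12 : sg 2 ≠ sg 1 := fun e => by have := hF.bij.1 e; omega
  have hx : ∀ i, |F.x ω i - (F.X J ω i : ℝ) / 2 ^ J| ≤ 1 / 2 ^ J := by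
    intro i
    have := rd_near J (F.x ω i)
    rw [abs_sub_comm] at this
    exact this
  have pJ : (0 : ℝ) < 2 ^ J := by positivity
  obtain ⟨η, hη⟩ : ∃ η : ℝ, η = 1 / 2 ^ (H + X) := ⟨_, rfl⟩
  have η0 : 0 < η := by rw [hη]; positivity
  have η1 : η ≤ 1 := by
    rw [hη, div_le_one (by positivity)]
    exact one_le_pow₀ (by norm_num)
  rw [← hη] at b3
  have hxb : ∀ i, (pkf F sg (H + X) s a' t' nu bb ω).xb i +
      F.t ω * (pkf F sg (H + X) s a' t' nu bb ω).db i = (F.X J ω i : ℝ) / 2 ^ J := by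
    intro i
    show (F.X J ω i : ℝ) / 2 ^ J - F.t ω * (if i = sg 0 then 0 else if i = sg 1 then nu ω else
      bb ω + s ω * nu ω) + F.t ω * (if i = sg 0 then 0 else if i = sg 1 then nu ω else
      bb ω + s ω * nu ω) = _
    ring
  have d0 : (pkf F sg (H + X) s a' t' nu bb ω).db (sg 0) = 0 := if_pos rfl
  have d1 : (pkf F sg (H + X) s a' t' nu bb ω).db (sg 1) = nu ω := by
    show (if sg 1 = sg 0 then 0 else if sg 1 = sg 1 then nu ω else bb ω + s ω * nu ω) = _
    rw [if_neg n01, if_pos rfl]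
  have d2 : (pkf F sg (H + X) s a' t' nu bb ω).db (sg 2) = bb ω + s ω * nu ω := by
    show (if sg 2 = sg 0 then 0 else if sg 2 = sg 1 then nu ω else bb ω + s ω * nu ω) = _
    rw [if_neg n02, if_neg n12]
  exact by
   have o1 := hF.on1 ω hω
   have o2 := hF.on2 ω hω
   have a1 := hF.an1 ω hω
   have a2 := hF.an2 ω hω
   have hd := F.dir ω (sg 0)
   have h0 := hx (sg 0)
   have h1 := hx (sg 1)
   have h2 := hx (sg 2)
   have i1 : (1 : ℝ) / 2 ^ Pu ≤ 1 / 2 ^ fv V₀ r N := inv_pow_mono hPu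
   have i2 : (1 : ℝ) / 2 ^ PN ≤ 1 / 2 ^ (fv V₀ r N + H + X) := inv_pow_mono hPN
   have i3 : (1 : ℝ) / 2 ^ J ≤ 1 / 2 ^ (fv V₀ r N + H + X) := inv_pow_mono hJ
   have i4 : (1 : ℝ) / 2 ^ J ≤ 1 / 2 ^ fv V₀ r N := inv_pow_mono (by omega)
   have i5 : (1 : ℝ) / 2 ^ J ≤ 1 := by
     rw [div_le_one (by positivity)]
     exact one_le_pow₀ (by norm_num)
   have i6 : (1 : ℝ) / 2 ^ fv V₀ r N ≤ 1 / 64 := by
     refine (inv_pow_mono h6).trans (le_of_eq ?_)
     norm_num
   have i7 : (1 : ℝ) / 2 ^ (fv V₀ r N + H + X) ≤ 1 / 64 := by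
     refine (inv_pow_mono (by omega : 6 ≤ fv V₀ r N + H + X)).trans (le_of_eq ?_)
     norm_num
   have p1 : (0 : ℝ) < 1 / 2 ^ fv V₀ r N := by positivity
   have p2 : (0 : ℝ) < 1 / 2 ^ (fv V₀ r N + H + X) := by positivity
   have e9 : ∀ n : ℕ, (25 : ℝ) / 2 ^ n = 25 * (1 / 2 ^ n) := fun n => by ring
   have e4 : ∀ n : ℕ, (4 : ℝ) / 2 ^ n = 4 * (1 / 2 ^ n) := fun n => by ring
   have eη : η * (1 / 2 ^ fv V₀ r N) = 1 / 2 ^ (fv V₀ r N + H + X) := by
     rw [hη, show fv V₀ r N + H + X = (H + X) + fv V₀ r N by omega, pow_add _ (H + X)]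
     field_simp
   rw [e4] at a1 a2
   -- the bound of the normal form
   exact by
    have hE2 := hE (sg 2)
    unfold Eon at hE2
    rw [if_neg n02, if_neg n12] at hE2
    have hτ : |t' ω + s ω * a' ω| ≤ 2 := by
      have e1 : t' ω + s ω * a' ω = (kk ω + s ω * al ω) - (kk ω - t' ω) - s ω * (al ω - a' ω) := by
        ring
      have m1 : |s ω * (al ω - a' ω)| ≤ 4 * (4 * (1 / 2 ^ fv V₀ r N)) := by
        rw [abs_mul]
        exact mul_le_mul b2 a1 (abs_nonneg _) (by norm_num)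
      rw [e1]
      rw [abs_le] at hE2 a2 m1 ⊢
      constructor <;> linarith only [a2, i6, i7, p1, hE2, m1, hE2.1, hE2.2, a2.1, a2.2, m1.1, m1.2]
    have hc : |t' ω + η * (s ω * a' ω)| ≤ 4 := by
      have e1 : t' ω + η * (s ω * a' ω) = (1 - η) * t' ω + η * (t' ω + s ω * a' ω) := by ring
      rw [e1]
      refine (abs_add_le _ _).trans ?_
      rw [abs_mul, abs_mul, abs_of_pos η0, abs_of_nonneg (by linarith only [η1] : 0 ≤ 1 - η)]
      have h3 := mul_le_mul_of_nonneg_left b3 (by linarith only [η1] : 0 ≤ 1 - η)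
      have h4 := mul_le_mul_of_nonneg_left hτ η0.le
      nlinarith only [η0, h3, h4]
    have hs : |(1 - η) * s ω| ≤ 4 := by
      rw [abs_mul, abs_of_nonneg (by linarith only [η1] : 0 ≤ 1 - η)]
      have h3 := mul_le_mul_of_nonneg_left b2 (by linarith only [η1] : 0 ≤ 1 - η)
      nlinarith only [η0, h3]
    refine ⟨b1, ?_, ?_, ?_, ?_, ?_, ?_, ?_, ?_⟩
    · show |-(t' ω + 1 / 2 ^ (H + X) * (s ω * a' ω))| ≤ 4
      rw [abs_neg, ← hη]
      exact hc
    · show |-((1 - 1 / 2 ^ (H + X)) * s ω)| ≤ 4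
      rw [abs_neg, ← hη]
      exact hs
    · rw [hxb, pow_zero]
      linarith only [h0, i4, i6, p1]
    · rw [zero_add, e9]
      unfold fu
      beta_reduce
      rw [hxb, hxb]
      show |F.x ω (sg 1) - a' ω * F.x ω (sg 0) - ((F.X J ω (sg 1) : ℝ) / 2 ^ J -
        a' ω * ((F.X J ω (sg 0) : ℝ) / 2 ^ J))| ≤ _
      have e1 : F.x ω (sg 1) - a' ω * F.x ω (sg 0) - ((F.X J ω (sg 1) : ℝ) / 2 ^ J -
          a' ω * ((F.X J ω (sg 0) : ℝ) / 2 ^ J)) = (F.x ω (sg 1) - (F.X J ω (sg 1) : ℝ) / 2 ^ J) -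
          a' ω * (F.x ω (sg 0) - (F.X J ω (sg 0) : ℝ) / 2 ^ J) := by ring
      rw [e1]
      refine (abs_sub _ _).trans ?_
      rw [abs_mul]
      have h3 : |a' ω| * |F.x ω (sg 0) - (F.X J ω (sg 0) : ℝ) / 2 ^ J| ≤ 2 * (1 / 2 ^ J) :=
        mul_le_mul b1 h0 (abs_nonneg _) (by norm_num)
      linarith only [h1, i4, p1, h3]
    · rw [e9]
      unfold fn
      beta_reduce
      rw [hxb, hxb, hxb]
      show |-(t' ω + 1 / 2 ^ (H + X) * (s ω * a' ω)) * F.x ω (sg 0) +
        -((1 - 1 / 2 ^ (H + X)) * s ω) * F.x ω (sg 1) + F.x ω (sg 2) -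
        (-(t' ω + 1 / 2 ^ (H + X) * (s ω * a' ω)) * ((F.X J ω (sg 0) : ℝ) / 2 ^ J) +
          -((1 - 1 / 2 ^ (H + X)) * s ω) * ((F.X J ω (sg 1) : ℝ) / 2 ^ J) +
          (F.X J ω (sg 2) : ℝ) / 2 ^ J)| ≤ _
      rw [← hη]
      have e1 : -(t' ω + η * (s ω * a' ω)) * F.x ω (sg 0) +
          -((1 - η) * s ω) * F.x ω (sg 1) + F.x ω (sg 2) -
          (-(t' ω + η * (s ω * a' ω)) * ((F.X J ω (sg 0) : ℝ) / 2 ^ J) +
          -((1 - η) * s ω) * ((F.X J ω (sg 1) : ℝ) / 2 ^ J) +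
          (F.X J ω (sg 2) : ℝ) / 2 ^ J) =
          -(t' ω + η * (s ω * a' ω)) * (F.x ω (sg 0) - (F.X J ω (sg 0) : ℝ) / 2 ^ J) +
          -((1 - η) * s ω) * (F.x ω (sg 1) - (F.X J ω (sg 1) : ℝ) / 2 ^ J) +
          (F.x ω (sg 2) - (F.X J ω (sg 2) : ℝ) / 2 ^ J) := by ring
      rw [e1]
      refine (abs_add_three _ _ _).trans ?_
      rw [abs_mul, abs_mul, abs_neg, abs_neg]
      have h3 : |t' ω + η * (s ω * a' ω)| * |F.x ω (sg 0) - (F.X J ω (sg 0) : ℝ) / 2 ^ J| ≤
          4 * (1 / 2 ^ J) := mul_le_mul hc h0 (abs_nonneg _) (by norm_num)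
      have h4 : |(1 - η) * s ω| * |F.x ω (sg 1) - (F.X J ω (sg 1) : ℝ) / 2 ^ J| ≤
          4 * (1 / 2 ^ J) := mul_le_mul hs h1 (abs_nonneg _) (by norm_num)
      linarith only [h2, i3, p2, h3, h4]
    · rw [d0, sub_zero]
      linarith only [hd, i6, p1]
    · rw [e9]
      unfold fu
      rw [d0, d1]
      show |F.d ω (sg 1) - a' ω * F.d ω (sg 0) - (nu ω - a' ω * 0)| ≤ _
      have e1 : F.d ω (sg 1) - a' ω * F.d ω (sg 0) - (nu ω - a' ω * 0) =
          (F.d ω (sg 1) - al ω * F.d ω (sg 0) - nu ω) + (al ω - a' ω) * F.d ω (sg 0) := by ring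
      rw [e1]
      refine (abs_add_le _ _).trans ?_
      rw [abs_mul]
      have h3 : |al ω - a' ω| * |F.d ω (sg 0)| ≤ 4 * (1 / 2 ^ fv V₀ r N) * 1 :=
        mul_le_mul a1 hd (abs_nonneg _) (by positivity)
      linarith only [o1, i1, p1, h3]
    · rw [pow_zero, mul_one, e9]
      unfold fn
      rw [d0, d1, d2]
      show |-(t' ω + 1 / 2 ^ (H + X) * (s ω * a' ω)) * F.d ω (sg 0) +
        -((1 - 1 / 2 ^ (H + X)) * s ω) * F.d ω (sg 1) + F.d ω (sg 2) -
        (-(t' ω + 1 / 2 ^ (H + X) * (s ω * a' ω)) * 0 + -((1 - 1 / 2 ^ (H + X)) * s ω) * nu ω +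
          (bb ω + s ω * nu ω))| ≤ _
      rw [← hη]
      have e1 : -(t' ω + η * (s ω * a' ω)) * F.d ω (sg 0) + -((1 - η) * s ω) * F.d ω (sg 1) +
          F.d ω (sg 2) - (-(t' ω + η * (s ω * a' ω)) * 0 + -((1 - η) * s ω) * nu ω +
          (bb ω + s ω * nu ω)) =
          (F.d ω (sg 2) - s ω * F.d ω (sg 1) - kk ω * F.d ω (sg 0) - bb ω) +
            (kk ω - t' ω) * F.d ω (sg 0) + s ω * (η * ((F.d ω (sg 1) - al ω * F.d ω (sg 0) - nu ω) +
              (al ω - a' ω) * F.d ω (sg 0))) := by ring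
      rw [e1]
      refine (abs_add_three _ _ _).trans ?_
      have h3 : |(kk ω - t' ω) * F.d ω (sg 0)| ≤ 4 * (1 / 2 ^ (fv V₀ r N + H + X)) * 1 := by
        rw [abs_mul]
        exact mul_le_mul a2 hd (abs_nonneg _) (by positivity)
      have h5 : |(F.d ω (sg 1) - al ω * F.d ω (sg 0) - nu ω) + (al ω - a' ω) * F.d ω (sg 0)| ≤
          5 * (1 / 2 ^ fv V₀ r N) := by
        refine (abs_add_le _ _).trans ?_
        rw [abs_mul]
        have h6 : |al ω - a' ω| * |F.d ω (sg 0)| ≤ 4 * (1 / 2 ^ fv V₀ r N) * 1 :=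
          mul_le_mul a1 hd (abs_nonneg _) (by positivity)
        linarith only [o1, i1, h6]
      have h7 : |s ω * (η * ((F.d ω (sg 1) - al ω * F.d ω (sg 0) - nu ω) +
          (al ω - a' ω) * F.d ω (sg 0)))| ≤ 20 * (1 / 2 ^ (fv V₀ r N + H + X)) := by
        rw [abs_mul, abs_mul, abs_of_pos η0]
        calc _ ≤ 4 * (η * (5 * (1 / 2 ^ fv V₀ r N))) :=
              mul_le_mul b2 (mul_le_mul_of_nonneg_left h5 η0.le)
                (mul_nonneg η0.le (abs_nonneg _)) (by norm_num)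
          _ = 20 * (η * (1 / 2 ^ fv V₀ r N)) := by ring
          _ = _ := by rw [eη]
      linarith only [o2, i2, h3, h7]

/-- The plank is visible. -/
theorem vis_pkf (hF : FFr F A sg N w₀ Δ r V₀ H X Va Rt Pu PN a t s a' t' al nu kk bb) (n : ℕ) :
    ∃ φ : (Fin 3 → ℤ) × (ℕ × F.ζ) → Pln, ∀ ω, A ω →
      pkf F sg n s a' t' nu bb ω = φ (ptq F J ω) := by
  refine fn_on (⟨0, 0, 0, 0, 0⟩ : Pln) fun ω ω' hω hω' h => ?_
  obtain ⟨g1, g2, g3, g4, g5, g6, g7⟩ := hF.fp ω ω' hω hω' h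
  obtain ⟨h1, h2⟩ := Prod.ext_iff.mp h
  obtain ⟨h3, h4⟩ := Prod.ext_iff.mp h2
  have h1' : F.X J ω = F.X J ω' := h1
  have h3' : F.T ω = F.T ω' := h3
  have ht : F.t ω = F.t ω' := by
    unfold Fam.t
    rw [h3']
  unfold pkf
  rw [g1, g2, g3, g5, g7, h1', ht]

/-- The contexts are functions of the line and the window. -/
theorem ctx_ffr (hF : FFr F A sg N w₀ Δ r V₀ H X Va Rt Pu PN a t s a' t' al nu kk bb) {i : ℕ}
    (hi : i ≤ N) (q : ℕ) {ω ω' : F.Ω}
    (h : slam F (fw w₀ Δ i) ω = slam F (fw w₀ Δ i) ω') :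
    (Pool.S6N.blk F sg (fw w₀ Δ i) q (fv V₀ r i) H X (a i) s (t i) ω,
      Pool.S6N.ctx F sg (fw w₀ Δ i) q (fv V₀ r i) H (a i) s (t i) ω) =
    (Pool.S6N.blk F sg (fw w₀ Δ i) q (fv V₀ r i) H X (a i) s (t i) ω',
      Pool.S6N.ctx F sg (fw w₀ Δ i) q (fv V₀ r i) H (a i) s (t i) ω') := by
  have hfr : fr sg (a i) s (t i) ω = fr sg (a i) s (t i) ω' := by
    obtain ⟨g1, g2, g3⟩ := hF.fn i hi ω ω' h
    unfold fr
    rw [g1, g2, g3]
  have h1 := Box.label_det F (g := fw w₀ Δ i) (k := fun j => cv q (fv V₀ r i) H j + fw w₀ Δ i)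
    (c := cv q (fv V₀ r i) H) (M := fr sg (a i) s (t i)) (l_slam h) (T1_slam h) hfr (Z_slam h)
  refine Prod.ext ?_ h1.1
  show Pool.S6N.blk F sg (fw w₀ Δ i) q (fv V₀ r i) H X (a i) s (t i) ω =
    Pool.S6N.blk F sg (fw w₀ Δ i) q (fv V₀ r i) H X (a i) s (t i) ω'
  unfold blk
  rw [h1.2.1, h1.2.2]

/-- The directions of the fans at the exact points. -/
theorem onl_ffr (hF : FFr F A sg N w₀ Δ r V₀ H X Va Rt Pu PN a t s a' t' al nu kk bb) {m : ℕ}
    (h1 : m + 3 ≤ Pu) (h2 : m + 3 ≤ PN) :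
    ∃ E n : (Fin 3 → ℤ) × (ℕ × F.ζ) → Fin 3 → ℝ, OnL (sg 0) (1 / 2 ^ m) (ptq F J) F.d A E n ∧
      ∀ ω, A ω → E (ptq F J ω) = Eon sg (al ω) (kk ω) (s ω) := by
  obtain ⟨φ, hφ⟩ := fn_on (B := A) (g := ptq F J) (f := fun ω => (al ω, nu ω, kk ω, bb ω, s ω))
    ((0 : ℝ), (0 : ℝ), (0 : ℝ), (0 : ℝ), (0 : ℝ)) (fun ω ω' hω hω' h => by
      obtain ⟨g1, g2, g3, g4, g5, g6, g7⟩ := hF.fp ω ω' hω hω' h
      beta_reduce
      rw [g2, g4, g5, g6, g7])
  have n01 : sg 1 ≠ sg 0 := fun e => by have := hF.bij.1 e; omega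
  have n02 : sg 2 ≠ sg 0 := fun e => by have := hF.bij.1 e; omega
  have n12 : sg 2 ≠ sg 1 := fun e => by have := hF.bij.1 e; omega
  refine ⟨fun z => Eon sg (φ z).1 (φ z).2.2.1 (φ z).2.2.2.2, fun z j => if j = sg 0 then 0 else
    if j = sg 1 then (φ z).2.1 else (φ z).2.2.2.1 + (φ z).2.2.2.2 * (φ z).2.1, ?_, ?_⟩
  · intro ω hω j
    beta_reduce
    rw [← hφ ω hω]
    beta_reduce
    unfold Eon
    have o1 := hF.on1 ω hω
    have o2 := hF.on2 ω hω
    have i1 : (1 : ℝ) / 2 ^ Pu ≤ 1 / 2 ^ (m + 3) := inv_pow_mono h1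
    have i2 : (1 : ℝ) / 2 ^ PN ≤ 1 / 2 ^ (m + 3) := inv_pow_mono h2
    have e8 : (1 : ℝ) / 2 ^ m = 8 * (1 / 2 ^ (m + 3)) := by
      rw [pow_add]
      field_simp
      norm_num
    have p0 : (0 : ℝ) < 1 / 2 ^ (m + 3) := by positivity
    have b2 := (hF.bd ω hω).2.1
    by_cases j0 : j = sg 0
    · subst j0
      rw [if_pos rfl, if_pos rfl, one_mul, sub_self, sub_zero, abs_zero]
      positivity
    by_cases j1 : j = sg 1
    · subst j1
      rw [if_neg j0, if_pos rfl, if_neg j0, if_pos rfl, e8]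
      linarith only [o1, i1, p0]
    · have j2 : j = sg 2 := by
        rcases sig_all hF.bij.1 j with h | h | h
        · exact (j0 h).elim
        · exact (j1 h).elim
        · exact h
      subst j2
      rw [if_neg n02, if_neg n12, if_neg n02, if_neg n12, e8]
      have e1 : F.d ω (sg 2) - (kk ω + s ω * al ω) * F.d ω (sg 0) - (bb ω + s ω * nu ω) =
          (F.d ω (sg 2) - s ω * F.d ω (sg 1) - kk ω * F.d ω (sg 0) - bb ω) +
            s ω * (F.d ω (sg 1) - al ω * F.d ω (sg 0) - nu ω) := by ring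
      rw [e1]
      refine (abs_add_le _ _).trans ?_
      rw [abs_mul]
      have h3 : |s ω| * |F.d ω (sg 1) - al ω * F.d ω (sg 0) - nu ω| ≤ 4 * (1 / 2 ^ (m + 3)) :=
        mul_le_mul b2 (o1.trans i1) (abs_nonneg _) (by norm_num)
      linarith only [o2, i2, p0, h3]
  · intro ω hω
    beta_reduce
    rw [← hφ ω hω]

end one

/-- **(TUR)** -/
theorem tur_ffr : TurFStmt := by
  intro S a R h₁ i₀ c s₂ r' D σ hC act v₁ t e₁ P g wr v₀ v ρ a₀ α L e G hZ N ul us x ε hx hxL hε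
  have he := hZ.e0
  have hρ := hZ.ρ0
  have hv := hZ.vρ
  have heL := hZ.eL
  have hLG := hZ.LG
  have hL0 : 0 < L := by linarith only [he, heL]
  have hx0 : 0 < x := by
    have : 0 < 200 * (1 + ρ) * e := by positivity
    linarith only [hx, this]
  have hv0 : 0 < v := by linarith
  have hvL : 0 ≤ v * L := by positivity
  have hρL : ρ * L ≤ v * L := mul_le_mul_of_nonneg_right hv.le hL0.le
  have hρL0 : 0 ≤ ρ * L := by positivity
  have hG10 : 10 * L + 4 * (v * L) ≤ G := by linarith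
  have g7 := hZ.g7
  have g8 := hZ.g8
  have g9 := hZ.g9
  have g10 := hZ.g10
  have g11 := hZ.g11
  have hρe : 0 < ρ * e := mul_pos hρ he
  have hx1 : 200 * e + 200 * (ρ * e) ≤ x := by linarith
  obtain ⟨n₀, hn₀⟩ := exists_nat_gt ((1 + ρ) / e)
  have hn0 : (0 : ℝ) < n₀ := lt_of_le_of_lt (by positivity) hn₀
  have hm : (1 + ρ) * (1 / (n₀ : ℝ)) ≤ e := by
    rw [div_lt_iff₀ he] at hn₀
    rw [mul_one_div, div_le_iff₀ hn0]
    linarith only [hn₀]
  have hm0 : 0 < 1 / (n₀ : ℝ) := by positivity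
  have hρm : 0 < ρ * (1 / (n₀ : ℝ)) := mul_pos hρ hm0
  exact by
   have hm1 : 1 / (n₀ : ℝ) ≤ e := by linarith only [hm, hρm]
   have hρm1 : ρ * (1 / (n₀ : ℝ)) ≤ e := by linarith only [hm, hm0]
   have hrw := hC.row 1 one_pos le_rfl hC.D1
   have key : ∀ k < n₀ + 1, Clp S (fun J F A => |(((k : ℚ) / n₀ : ℚ) : ℝ) - wr| ≤ L →
       IsLaw (Pool.Agent.H49.Ent.cond F.p A True) → ∀ sg : Fin 3 → Fin 3,
       Function.Injective sg → sg 0 = i₀ → ∀ (W lam P ag : ℕ) (y : F.Ω → Pln),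
       (∀ ω, A ω → Inc (sg 0) (sg 1) (sg 2) W lam P 25 (y ω) (F.t ω) (F.x ω) (F.d ω)) →
       (∃ φ : (Fin 3 → ℤ) × (ℕ × F.ζ) → Pln, ∀ ω, A ω → y ω = φ (ptq F ⌊(1 : ℝ) * J⌋₊ ω)) →
       ⌊(((k : ℚ) / n₀ : ℚ) : ℝ) * J⌋₊ ≤ ⌊(1 : ℝ) * J⌋₊ → 3 ≤ ag →
       ⌊((σ 1).th ((k : ℚ) / n₀) + e) * J⌋₊ + 3 ≤ ⌊(((k : ℚ) / n₀ : ℚ) : ℝ) * J⌋₊ + ag →
       W + ⌊((σ 1).th ((k : ℚ) / n₀) + e) * J⌋₊ ≤ ⌊(((k : ℚ) / n₀ : ℚ) : ℝ) * J⌋₊ + P →
       ∀ (T : Type) (b : F.Ω → T),
       (∀ ω ω', slam F ⌊(((k : ℚ) / n₀ : ℚ) : ℝ) * J⌋₊ ω =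
         slam F ⌊(((k : ℚ) / n₀ : ℚ) : ℝ) * J⌋₊ ω' → b ω = b ω') →
       ∀ (f : F.Ω → ℝ) (δ : ℝ), (∀ ω ω', A ω → A ω' → b ω = b ω' → |f ω - f ω'| < δ →
         |(y ω).s - (y ω').s| ≤ 1 / 2 ^ ag ∧
         |Ae (y ω).c (y ω).s (y ω').c (y ω').s (y ω').e| ≤ 1 / 2 ^ ag) →
       Pool.KAF.Pr (dbl (Pool.Agent.H49.Ent.cond F.p A True) b)
         {x | |f x.1 - f x.2| < δ} ≤ ε / 2) := by
     intro k hk
     refine Clp.cnd fun hkL => ?_
     have hk1 : ((k : ℚ) / n₀ : ℚ) ≤ 1 := by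
       have h1 : (0 : ℚ) < n₀ := by exact_mod_cast hn0
       rw [div_le_one h1]
       exact_mod_cast (by omega : k ≤ n₀)
     have hk0 : (0 : ℚ) ≤ (k : ℚ) / n₀ := by positivity
     have hG := hrw.th _ hk0 hk1
     have h1 := (hZ.aff _ hkL).2
     rw [abs_le] at h1 hkL
     have h2 : ρ * ((((k : ℚ) / n₀ : ℚ) : ℝ) - wr) ≤ ρ * L :=
       mul_le_mul_of_nonneg_left hkL.2 hρ.le
     obtain ⟨c', hc', J₁, hn⟩ := tur_cls (i0 := i₀) (le_refl (1 : ℝ)) hG he
       (by linarith only [hx, hxL, hLG, hvL, hρL, g7, g8, hρe, hm, hm0, hρm, hkL, h1, h2, h1.2, hkL.2]) (C := 25) (by norm_num)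
     obtain ⟨J₃, hJ₃⟩ := exists_nat_gt (-Real.log (ε / 2) / c')
     refine Clp.of hc' (max J₁ J₃) fun J hJ F A hS hl sg hsg hsg0 W lam P ag y hI hvis q1 q2 q3 q4
       T b hb f δ hcl => ?_
     have hJ1 : J₁ ≤ J := (le_max_left _ _).trans hJ
     have hJ3 : (J₃ : ℝ) ≤ J := by exact_mod_cast (le_max_right _ _).trans hJ
     refine (hn J hJ1 F A hS hl sg hsg hsg0 W lam P ag y hI hvis q1 q2 q3 q4 T b hb f δ hcl).trans ?_
     have := (hJ₃.trans_le hJ3).le
     rw [div_le_iff₀ hc'] at this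
     rw [← Real.exp_log (half_pos hε)]
     exact Real.exp_le_exp.2 (by linarith only [this])
   exact by
    have c2 : Clp S (fun J F A => 0 < Pe F.p A) :=
      Clp.of one_pos 0 fun J _ F A hA => lt_of_lt_of_le (Real.exp_pos _) (hC.st _ _ _ _ hA).2.2.2
    have hmin : 0 < min (ε / 8) (1 / 2) := lt_min (by positivity) (by norm_num)
    obtain ⟨J₂, hJ₂⟩ := exists_nat_gt (24 / e)
    refine Clp.mono (J₂ := J₂ + 1) ((((Clp.all (n₀ + 1) key).ev (ϖ := 1 / 2) (by norm_num)).and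
      (slope_off hC hL0 hmin)).and c2) ?_
    rintro J hJ F A ⟨⟨hk, hsl⟩, hpos⟩ w₀ Δ r V₀ H X Va Rt Pu PN sg a t s a' t' al nu kk bb hsg hL hF
      hPu hPN hxX i hi q y hy
    have hJ0' : (0 : ℝ) < J := by
      have : 0 < J := by omega
      exact_mod_cast this
    have hJ0 : (0 : ℝ) ≤ J := hJ0'.le
    have geJ : 24 < e * J := by
      have h1 : (J₂ : ℝ) ≤ J := by exact_mod_cast (by omega : J₂ ≤ J)
      have := hJ₂.trans_le h1
      rw [div_lt_iff₀ he] at this
      linarith only [this]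
    have hl : IsLaw (Pool.Agent.H49.Ent.cond F.p A True) := isLaw_event F.isLaw hpos le_rfl
    have e1 : ⌊(1 : ℝ) * J⌋₊ = J := by rw [one_mul, Nat.floor_natCast]
    -- the windows
    have fwi : (fw w₀ Δ i : ℝ) = ((w₀ + i * Δ : ℕ) : ℝ) := rfl
    have fwN : fw w₀ Δ i ≤ w₀ + N * Δ := by
      unfold fw
      have := Nat.mul_le_mul_right Δ hi
      omega
    have w1 : (wr - L / 2) * J ≤ fw w₀ Δ i := by
      refine hL.zl.trans ?_
      rw [fwi]
      push_cast
      have : (0 : ℝ) ≤ i * Δ := by positivity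
      linarith only [this]
    exact by
     have w2 : (fw w₀ Δ i : ℝ) ≤ (wr + L / 2) * J := by
       refine le_trans ?_ hL.zu
       exact_mod_cast fwN
     -- the rational window
     obtain ⟨k, hkd⟩ : ∃ k : ℕ, k = ⌈(fw w₀ Δ i : ℝ) * n₀ / J⌉₊ := ⟨_, rfl⟩
     have k1 := Nat.le_ceil ((fw w₀ Δ i : ℝ) * n₀ / J)
     have k2 := Nat.ceil_lt_add_one (a := (fw w₀ Δ i : ℝ) * n₀ / J) (by positivity)
     rw [← hkd] at k1 k2
     obtain ⟨u, hu⟩ : ∃ u : ℝ, u = (((k : ℚ) / n₀ : ℚ) : ℝ) := ⟨_, rfl⟩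
     have hu' : u = (k : ℝ) / n₀ := by
       rw [hu]
       push_cast
       rfl
     have u1 : (fw w₀ Δ i : ℝ) ≤ u * J := by
       rw [div_le_iff₀ hJ0'] at k1
       rw [hu', div_mul_eq_mul_div, le_div_iff₀ hn0]
       linarith only [k1]
     have u2 : u * J ≤ fw w₀ Δ i + 1 / n₀ * J := by
       have h1 : (k : ℝ) * J ≤ fw w₀ Δ i * n₀ + J := by
         have := mul_le_mul_of_nonneg_right k2.le hJ0
         rw [add_mul, div_mul_cancel₀ _ hJ0'.ne', one_mul] at this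
         exact this
       rw [hu', div_mul_eq_mul_div, div_le_iff₀ hn0]
       have e2 : ((fw w₀ Δ i : ℝ) + 1 / n₀ * J) * n₀ = fw w₀ Δ i * n₀ + J := by
         field_simp
       rw [e2]
       exact h1
     have u3 : wr - L / 2 ≤ u := by
       have : (wr - L / 2) * J ≤ u * J := w1.trans u1
       exact le_of_mul_le_mul_right this hJ0'
     exact by
      have u4 : u ≤ wr + L / 2 + 1 / n₀ := by
        have : u * J ≤ (wr + L / 2 + 1 / n₀) * J := by linarith only [w2, u2]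
        exact le_of_mul_le_mul_right this hJ0'
      have hkL : |(((k : ℚ) / n₀ : ℚ) : ℝ) - wr| ≤ L := by
        rw [← hu, abs_le]
        constructor <;> linarith
      have hkn : k < n₀ + 1 := by
        have h1 : u < 1 := by linarith only [hx, hxL, hLG, hvL, g7, g8, g10, g11, hρe, hm, hm0, hρm, u4]
        rw [hu', div_lt_one hn0] at h1
        have : k < n₀ := by exact_mod_cast h1
        omega
      have h1 := (hZ.aff _ hkL).2
      rw [← hu, abs_le] at h1
      have hG := num_nonneg hC.ne (hrw.th ((k : ℚ) / n₀) (by positivity) (by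
        have h3 : (0 : ℚ) < n₀ := by exact_mod_cast hn0
        rw [div_le_one h3]
        exact_mod_cast (by omega : k ≤ n₀)))
      have f1 := Nat.lt_floor_add_one (u * J)
      have f4 := Nat.floor_le (mul_nonneg (by linarith only [hm, hm0, hρm, hG] : 0 ≤ (σ 1).th ((k : ℚ) / n₀) + e) hJ0)
      have f5 := Nat.floor_le (mul_nonneg hx0.le hJ0)
      have f5' := Nat.lt_floor_add_one (x * J)
      have fle : fw w₀ Δ i ≤ ⌊u * J⌋₊ := Nat.le_floor u1
      -- the thickness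
      have T1 : ((σ 1).th ((k : ℚ) / n₀) + e) * J ≤
          g * J + (1 + ρ) * (u * J - wr * J) + 2 * (e * J) := by
        have : (σ 1).th ((k : ℚ) / n₀) + e ≤ g + (1 + ρ) * (u - wr) + 2 * e := by linarith only [h1, h1.2]
        have := mul_le_mul_of_nonneg_right this hJ0
        linarith only [this]
      have T2 : ρ * (u * J) ≤ ρ * fw w₀ Δ i + e * J := by
        have h2 := mul_le_mul_of_nonneg_left u2 hρ.le
        have h3 := mul_le_mul_of_nonneg_right hρm1 hJ0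
        linarith only [h2, h3]
      exact by
       have T3 : 200 * (e * J) ≤ x * J := by
         have : 200 * e ≤ x := by linarith only [hx, hρe]
         have := mul_le_mul_of_nonneg_right this hJ0
         linarith only [this]
       have rti := hL.rt' i hi
       have rtN := hL.rt' N le_rfl
       have fvi : ((V₀ + i * r + H : ℕ) : ℝ) = ((fv V₀ r i + H : ℕ) : ℝ) := rfl
       have fvN : ((V₀ + N * r + H : ℕ) : ℝ) = ((fv V₀ r N + H : ℕ) : ℝ) := rfl
       rw [fvi, ← fwi] at rti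
       have fwN' : (fw w₀ Δ i : ℝ) ≤ ((w₀ + N * Δ : ℕ) : ℝ) := by exact_mod_cast fwN
       have T4 : ρ * (fw w₀ Δ i : ℝ) ≤ ρ * ((w₀ + N * Δ : ℕ) : ℝ) :=
         mul_le_mul_of_nonneg_left fwN' hρ.le
       rw [fvN] at rtN
       -- the direction is known to many digits
       have hVN : 10 * (L * J) ≤ (fv V₀ r N : ℝ) := by
         have q1 := hL.hs
         have q2 := hL.ul0
         have q3 : (wr - L / 2) * J ≤ ((w₀ + N * Δ : ℕ) : ℝ) := w1.trans fwN'
         have q4 : ρ * ((wr - L / 2) * J) ≤ ρ * ((w₀ + N * Δ : ℕ) : ℝ) :=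
           mul_le_mul_of_nonneg_left q3 hρ.le
         have q5 : (v - ρ) * (wr - L / 2) ≤ (v - ρ) * ul :=
           mul_le_mul_of_nonneg_left q2 (by linarith only [hv])
         have q6 := mul_le_mul_of_nonneg_right q5 hJ0
         have q7 : 0 ≤ (v₀ - 10 * L - 4 * (v * L)) * J := mul_nonneg (by linarith only [hLG, g10]) hJ0
         have q8 : 0 ≤ v * L * J := mul_nonneg hvL hJ0
         have q9 : (0 : ℝ) ≤ X := Nat.cast_nonneg X
         push_cast at q1 rtN q4 ⊢
         linarith only [hx, hxL, hLG, hvL, g7, g8, g9, g10, g11, hρe, hm, hm0, hρm, hxX, geJ, T3, q6, q7, q8, q1, rtN, q4]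
       have hLJ : 2400 < L * J := by
         have : 100 * e * J ≤ L * J := mul_le_mul_of_nonneg_right heL hJ0
         linarith only [geJ, this]
       exact by
        have hVN6 : 6 ≤ fv V₀ r N := by
          have : ((6 : ℕ) : ℝ) ≤ fv V₀ r N := by
            push_cast
            linarith only [hx, hxL, hLG, hvL, g7, g8, g9, g10, g11, hρe, hm, hm0, hρm, hVN, hLJ]
          exact_mod_cast this
        have c3 : ⌊((σ 1).th ((k : ℚ) / n₀) + e) * J⌋₊ + 3 ≤
            ⌊u * J⌋₊ + (fv V₀ r i + H + ⌊x * J⌋₊ - 6) := by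
          have : ((⌊((σ 1).th ((k : ℚ) / n₀) + e) * J⌋₊ + 3 + 6 : ℕ) : ℝ) ≤
              ((⌊u * J⌋₊ + (fv V₀ r i + H + ⌊x * J⌋₊) : ℕ) : ℝ) := by
            push_cast at rti ⊢
            linarith only [hx, hxL, hLG, hvL, g7, g8, g9, g10, g11, hρe, hm, hm0, hρm, geJ, f1, f4, f5', T1, T2, T3, rti]
          have : ⌊((σ 1).th ((k : ℚ) / n₀) + e) * J⌋₊ + 3 + 6 ≤
              ⌊u * J⌋₊ + (fv V₀ r i + H + ⌊x * J⌋₊) := by exact_mod_cast this
          omega
        have c4 : 0 + ⌊((σ 1).th ((k : ℚ) / n₀) + e) * J⌋₊ ≤ ⌊u * J⌋₊ + (fv V₀ r N + H + X) := by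
          have : ((0 + ⌊((σ 1).th ((k : ℚ) / n₀) + e) * J⌋₊ : ℕ) : ℝ) ≤
              ((⌊u * J⌋₊ + (fv V₀ r N + H + X) : ℕ) : ℝ) := by
            push_cast at rtN T4 ⊢
            linarith only [hx, hxL, hLG, hvL, g7, g8, g9, g10, g11, hρe, hm, hm0, hρm, hxX, geJ, f1, f4, T1, T2, T3, rtN, T4]
          exact_mod_cast this
        have c5 : fv V₀ r N + H + X ≤ J := by
          have h2 : ((fv V₀ r N + H + X : ℕ) : ℝ) ≤ J := by
            have h3 := hL.rs
            have h4 : ρ * (us - wr) ≤ ρ * L := mul_le_mul_of_nonneg_left (by linarith only [hx, hxL, hρe, hm, hm0, hρm, hL, hL.us1]) hρ.le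
            have h5 : (g - wr) + ρ * (us - wr) - 20 * e ≤ 1 := by linarith only [hx, hxL, hLG, hvL, hρL, g7, g8, g9, hρe, hm, hm0, hρm, h4]
            have h6 := mul_le_mul_of_nonneg_right h5 hJ0
            have e3 : ((fv V₀ r N + H + X : ℕ) : ℝ) = ((V₀ + N * r + H + X : ℕ) : ℝ) := rfl
            rw [e3]
            linarith only [h3, h6]
          exact_mod_cast h2
        exact by
         have c6 : 9 ≤ ⌊x * J⌋₊ := Nat.le_floor (by push_cast; linarith only [hx, hxL, hLG, hvL, g7, g8, g9, g10, g11, hρe, hm, hm0, hρm, geJ, T3])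
         have c7 : ⌊x * J⌋₊ ≤ X := by
           have : (⌊x * J⌋₊ : ℝ) ≤ X := f5.trans hxX
           exact_mod_cast this
         have huJ : ⌊u * J⌋₊ ≤ J := by
           refine Nat.floor_le_of_le ?_
           calc u * J ≤ 1 * J := mul_le_mul_of_nonneg_right (by linarith only [hx, hxL, hLG, hvL, g7, g8, g10, g11, hρe, hm, hm0, hρm, u4]) hJ0
             _ = J := one_mul _
         -- the good event
         obtain ⟨m, hmd⟩ : ∃ m : ℕ, m = fv V₀ r N - 3 := ⟨_, rfl⟩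
         obtain ⟨E, n, hOn, hEE⟩ := onl_ffr hF (m := m) (by omega) (by omega)
         have hmL : L * J ≤ m := by
           have : (m : ℝ) = fv V₀ r N - 3 := by
             rw [hmd, Nat.cast_sub (by omega)]
             norm_num
           rw [this]
           linarith only [hx, hxL, hLG, hvL, g7, g8, g9, g10, g11, hρe, hm, hm0, hρm, hVN, hLJ]
         rw [hsg] at hOn
         have hbad := hsl m E n hmL hOn
         obtain ⟨Nb, hNb⟩ : ∃ Nb : F.Ω → Prop, Nb = fun ω => ¬ ∀ j, |E (ptq F J ω) j| ≤ 3 / 2 :=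
           ⟨_, rfl⟩
         rw [← hNb] at hbad
         obtain ⟨B, hB⟩ : ∃ B : F.Ω → Prop, B = fun ω => A ω ∧ ¬ Nb ω := ⟨_, rfl⟩
         have hBA : Sub B A := by rw [hB]; exact fun ω hω => hω.1
         have hthin : Pe F.p (fun ω => A ω ∧ Nb ω) ≤ Pe F.p A / 2 := by
           have h2 := hbad.trans (min_le_right _ _)
           rw [Pe_cond, div_le_iff₀ hpos] at h2
           linarith only [h2]
         have hPB : 1 / 2 * Pe F.p A ≤ Pe F.p B := by
           have h2 := Pe_diff hthin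
           rw [Real.exp_neg, Real.exp_log two_pos] at h2
           rw [hB]
           linarith only [h2]
         exact by
          have hBpos : 0 < Pe F.p B := by linarith only [hpos, hPB]
          have hlB : IsLaw (Pool.Agent.H49.Ent.cond F.p B True) := isLaw_event F.isLaw hBpos le_rfl
          have hcc : Pool.Agent.H49.Ent.cond (Pool.Agent.H49.Ent.cond F.p A True) B True =
              Pool.Agent.H49.Ent.cond F.p B True := Piece.cond_cond hBA hpos.ne'
          have hGp : 0 < Pe (Pool.Agent.H49.Ent.cond F.p A True) B := by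
            rw [Pe_cond]
            refine div_pos ?_ hpos
            have e2 : (fun ω => A ω ∧ B ω) = B := by
              funext ω
              exact propext ⟨fun h => h.2, fun h => ⟨hBA ω h, h⟩⟩
            rw [e2]
            exact hBpos
          have hbad2 : Pe (Pool.Agent.H49.Ent.cond F.p A True) (fun ω => ¬ B ω) ≤ ε / 8 := by
            refine le_trans (le_of_eq ?_) (hbad.trans (min_le_left _ _))
            rw [Pe_cond, Pe_cond]
            congr 2
            funext ω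
            rw [hB]
            refine propext ⟨fun h => ⟨h.1, ?_⟩, fun h => ⟨h.1, fun h' => h'.2 h.2⟩⟩
            by_contra hcon
            exact h.2 ⟨h.1, hcon⟩
          refine (Pr_dbl_part hl hGp _ _).trans ?_
          rw [hcc]
          have main := hk B hBA hPB k hkn hkL hlB sg hF.bij.1 hsg 0 (fv V₀ r N) (fv V₀ r N + H + X)
            (fv V₀ r i + H + ⌊x * J⌋₊ - 6) (pkf F sg (H + X) s a' t' nu bb)
            (fun ω hω => inc_pkf hF hPu hPN c5 hVN6 (hBA ω hω) (by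
              rw [hB, hNb] at hω
              have h2 := not_not.mp hω.2
              intro j
              have h3 := h2 j
              rw [hEE ω hω.1] at h3
              exact h3)) (by
              rw [e1]
              obtain ⟨φ, hφ⟩ := vis_pkf hF (H + X)
              exact ⟨φ, fun ω hω => hφ ω (hBA ω hω)⟩)
            (by rw [e1, ← hu]; exact huJ) (by omega) (by rw [← hu]; exact c3) (by rw [← hu]; exact c4) _
            (fun ω => (Pool.S6N.blk F sg (fw w₀ Δ i) q (fv V₀ r i) H X (a i) s (t i) ω,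
              Pool.S6N.ctx F sg (fw w₀ Δ i) q (fv V₀ r i) H (a i) s (t i) ω))
            (fun ω ω' h => ctx_ffr hF hi q (Pool.S6K.slam_mono fle huJ (by rw [← hu] at h; exact h)))
            (fun ω => Pool.S6N.SS (fv V₀ r i) H (a i) s (t i) s t' 0 ω) ((2 : ℝ) ^ (-y)) ?_
          · linarith only [hε, hbad2, main]
          exact by
           intro ω ω' hω hω' hb hS
           have hb2 : Pool.S6N.ctx F sg (fw w₀ Δ i) q (fv V₀ r i) H (a i) s (t i) ω =
             Pool.S6N.ctx F sg (fw w₀ Δ i) q (fv V₀ r i) H (a i) s (t i) ω' := (Prod.ext_iff.mp hb).2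
           obtain ⟨f1', f2', f3'⟩ := ctx_frm hF.bij.1 hb2
           have hS' : |(2 : ℝ) ^ (fv V₀ r i + H) * ((t' ω - t i ω) + (s ω - s ω) * a i ω) -
               2 ^ (fv V₀ r i + H) * ((t' ω' - t i ω') + (s ω' - s ω') * a i ω')| < (2 : ℝ) ^ (-y) := hS
           have q1 := scaled_le hS'.le
           have q2 : |t' ω - t' ω'| ≤ (2 : ℝ) ^ (-y) / 2 ^ (fv V₀ r i + H) := by
             have e3 : t' ω - t' ω' = (t' ω - t i ω + (s ω - s ω) * a i ω) -
                 (t' ω' - t i ω' + (s ω' - s ω') * a i ω') := by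
               rw [f3']
               ring
             rw [e3]
             exact q1
           have q3 : (2 : ℝ) ^ (-y) ≤ 1 / 2 ^ ⌊x * J⌋₊ := by
             rw [Real.rpow_neg (by norm_num), ← one_div]
             refine div_le_div_of_nonneg_left (by norm_num) (by positivity) ?_
             rw [← Real.rpow_natCast]
             exact Real.rpow_le_rpow_of_exponent_le (by norm_num) (f5.trans hy)
           have pR : (0 : ℝ) < 2 ^ (fv V₀ r i + H) := by positivity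
           have q4 : |t' ω - t' ω'| ≤ 1 / 2 ^ (fv V₀ r i + H + ⌊x * J⌋₊) := by
             refine q2.trans ?_
             rw [pow_add 2 (fv V₀ r i + H), ← one_div_mul_one_div, mul_comm, div_eq_mul_one_div]
             exact mul_le_mul_of_nonneg_right q3 (by positivity)
           -- the directions have the same first digits
           have q5 : |a' ω - a' ω'| ≤ 8 / 2 ^ fv V₀ r i := by
             have h2 := hF.ca i hi ω (hBA ω hω)
             have h3 := hF.ca i hi ω' (hBA ω' hω')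
             have e3 : a' ω - a' ω' = (a' ω - a i ω) - (a' ω' - a i ω') := by
               rw [f1']
               ring
             have e4 : (8 : ℝ) / 2 ^ fv V₀ r i = 4 / 2 ^ fv V₀ r i + 4 / 2 ^ fv V₀ r i := by ring
             rw [e3, e4]
             exact (abs_sub _ _).trans (add_le_add h2 h3)
           exact by
            have bs := (hF.bd ω (hBA ω hω)).2.1
            constructor
            · show |-((1 - 1 / 2 ^ (H + X)) * s ω) - -((1 - 1 / 2 ^ (H + X)) * s ω')| ≤ _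
              rw [f2', sub_self, abs_zero]
              positivity
            · show |(-(t' ω + 1 / 2 ^ (H + X) * (s ω * a' ω)) -
                -(t' ω' + 1 / 2 ^ (H + X) * (s ω' * a' ω'))) +
                (-((1 - 1 / 2 ^ (H + X)) * s ω) - -((1 - 1 / 2 ^ (H + X)) * s ω')) * a' ω'| ≤ _
              have e3 : (-(t' ω + 1 / 2 ^ (H + X) * (s ω * a' ω)) -
                  -(t' ω' + 1 / 2 ^ (H + X) * (s ω' * a' ω'))) +
                  (-((1 - 1 / 2 ^ (H + X)) * s ω) - -((1 - 1 / 2 ^ (H + X)) * s ω')) * a' ω' =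
                  -(t' ω - t' ω') - 1 / 2 ^ (H + X) * (s ω * (a' ω - a' ω')) := by
                rw [← f2']
                ring
              rw [e3]
              refine (abs_sub _ _).trans ?_
              rw [abs_neg]
              have m1 : |1 / 2 ^ (H + X) * (s ω * (a' ω - a' ω'))| ≤
                  32 * (1 / 2 ^ (fv V₀ r i + H + ⌊x * J⌋₊)) := by
                rw [abs_mul, abs_mul, abs_of_pos (by positivity : (0 : ℝ) < 1 / 2 ^ (H + X))]
                calc _ ≤ 1 / 2 ^ (H + X) * (4 * (8 / 2 ^ fv V₀ r i)) :=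
                      mul_le_mul_of_nonneg_left (mul_le_mul bs q5 (abs_nonneg _) (by norm_num))
                        (by positivity)
                  _ = 32 * (1 / 2 ^ (fv V₀ r i + H + X)) := by
                      rw [show fv V₀ r i + H + X = (H + X) + fv V₀ r i by omega, pow_add _ (H + X)]
                      field_simp
                      norm_num
                  _ ≤ _ := mul_le_mul_of_nonneg_left (inv_pow_mono (by omega)) (by norm_num)
              have m2 : (1 : ℝ) / 2 ^ (fv V₀ r i + H + ⌊x * J⌋₊ - 6) =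
                  64 * (1 / 2 ^ (fv V₀ r i + H + ⌊x * J⌋₊)) := by
                have e4 : (2 : ℝ) ^ (fv V₀ r i + H + ⌊x * J⌋₊) =
                    2 ^ (fv V₀ r i + H + ⌊x * J⌋₊ - 6) * 2 ^ 6 := by
                  rw [← pow_add]
                  congr 1
                  omega
                rw [e4]
                field_simp
                norm_num
              have m3 : (0 : ℝ) < 1 / 2 ^ (fv V₀ r i + H + ⌊x * J⌋₊) := by positivity
              rw [m2]
              linarith only [q4, m1, m3]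

end Pool.S6C
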