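import Pool.Agent.H90.S6R.Row3

/-!
# (H5) in the variables of theorems OC, OCS and OCM, from the static boxes, on events
-/

set_option autoImplicit false

namespace Pool.K2S

open Finset Real
open Pool.Agent.H49.Ent Pool.Agent.H32.Dense Pool.STK Pool.KA Pool.KA.Box

section h5

variable {J : ℕ} {F : Fam 3 J} {p : F.Ω → ℝ} {σ : Fin 3 → Fin 3} {a s t a' s' t' : F.Ω → ℝ}
  {w r U P : ℕ} {β Θ V : Type}

theorem isLaw_event {Ω : Type} [Fintype Ω] {p : Ω → ℝ} (hp : IsLaw p) {ϖ : ℝ} (hϖ : 0 < ϖ)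
    {A : Ω → Prop} (hA : ϖ ≤ Pe p A) : IsLaw (Pool.Agent.H49.Ent.cond p A True) := by
  refine Uni.isLaw_cond' hp.nonneg A ?_
  have e : law p A True = Pe p A := by
    unfold law Pe
    refine Finset.sum_congr rfl fun ω _ => ?_
    by_cases hA : A ω <;> simp [hA]
  rw [e]
  linarith

theorem of_event_pos {Ω : Type} [Fintype Ω] {p : Ω → ℝ} (hp : IsLaw p) {A : Ω → Prop} {ω : Ω}
    (h : 0 < Pool.Agent.H49.Ent.cond p A True ω) : 0 < p ω :=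
  ((cond_pos_iff hp.nonneg A True ω).1 h).1

/-- Two conditional entropies of variables which agree on the support. -/
theorem CH_congr_supp {Ω S S' : Type} [Fintype Ω] {p : Ω → ℝ} {X X' : Ω → S} {W W' : Ω → S'}
    (hX : ∀ ω, 0 < p ω → X ω = X' ω) (hW : ∀ ω, 0 < p ω → W ω = W' ω) (hp : IsLaw p) :
    CH p X W = CH p X' W' := by
  have h0 := hp.nonneg
  refine le_antisymm ?_ ?_
  · refine (CH_mono_left h0 (X' := X') ?_).trans (CH_mono_cond h0 ?_)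
    · intro ω ω' hω hω' h
      rw [hX ω hω, hX ω' hω']
      exact (Prod.ext_iff.mp h).1
    · intro ω ω' hω hω' h
      rw [← hW ω hω, ← hW ω' hω']
      exact h
  · refine (CH_mono_left h0 (X' := X) ?_).trans (CH_mono_cond h0 ?_)
    · intro ω ω' hω hω' h
      rw [← hX ω hω, ← hX ω' hω']
      exact (Prod.ext_iff.mp h).1
    · intro ω ω' hω hω' h
      rw [hW ω hω, hW ω' hω']
      exact h

/-- **(H5) scalar**: the row of the normal coordinate, on events. -/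
theorem h5_n (hp : IsLaw p) {D : ℝ} (hw : w ≤ J) (hD : 1 ≤ D) (hr : w ≤ r) (hU : w ≤ U)
    (hP : w ≤ P) (hσ : Function.Injective σ)
    (hn : ∀ ω, 0 < p ω → Fnr r U P D (a ω) (s ω) (t ω) (a' ω) (s' ω) (t' ω))
    (b : F.Ω → β) (T : F.Ω → Θ) (v : F.Ω → V)
    (hQ : ∀ ω ω', 0 < p ω → 0 < p ω' → b ω = b ω' → T ω = T ω' →
      F.ctx σ w r U P a s t ω = F.ctx σ w r U P a s t ω' ∧ F.T ω = F.T ω' ∧
      (a' ω = a' ω' ∧ s' ω = s' ω' ∧ t' ω = t' ω') ∧ v ω = v ω')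
    {nu : F.Ω → ℝ} (hnu : ∀ ω, 0 < p ω → nu ω = F.rw3 σ w r U P a s t a' s' t' 2 ω)
    {q X : ℕ} {ϖ e : ℝ} (hϖ : 0 < ϖ)
    (h : ∀ j : ℕ, (j + 1) * q ≤ X → ∀ A : F.Ω → Prop, ϖ ≤ Pe p A →
      CH (Pool.Agent.H49.Ent.cond p A True) (F.sbx σ r U (P + (j + 1) * q) a' s' t')
        (fun ω => (F.sbx σ r U (P + j * q) a' s' t' ω, v ω)) ≤ e) :
    ∀ j : ℕ, (j + 1) * q ≤ X → ∀ A : F.Ω → Prop, ϖ ≤ Pe p A →
      CH (Pool.Agent.H49.Ent.cond p A True) (Uni.dg ((j + 1) * q) nu)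
        (fun ω => (Uni.dg (j * q) nu ω, (b ω, T ω))) ≤
        e + (3 * Real.log (12 * D + 3) + Real.log 5) := by
  intro j hj A hA
  have hl := isLaw_event hp hϖ hA
  have hpos : ∀ {ω : F.Ω}, 0 < Pool.Agent.H49.Ent.cond p A True ω → 0 < p ω := fun h =>
    of_event_pos hp h
  have key := CH_rows1 (F := F) (a := a) (s := s) (t := t) hl hw hD hr hU hP hσ (j * q)
    ((j + 1) * q) (fun ω hω => hn ω (hpos hω)) (fun ω => (b ω, T ω)) v
    (fun ω ω' hω hω' h => hQ ω ω' (hpos hω) (hpos hω') (Prod.ext_iff.mp h).1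
      (Prod.ext_iff.mp h).2)
  have e1 := CH_congr_supp (p := Pool.Agent.H49.Ent.cond p A True)
    (X := Uni.dg ((j + 1) * q) nu)
    (X' := Uni.dg ((j + 1) * q) (F.nrow σ w r U P a s t s' t'))
    (W := fun ω => (Uni.dg (j * q) nu ω, (b ω, T ω)))
    (W' := fun ω => (Uni.dg (j * q) (F.nrow σ w r U P a s t s' t') ω, (b ω, T ω)))
    (fun ω hω => by
      unfold Uni.dg
      rw [hnu ω (hpos hω)]
      rfl)
    (fun ω hω => by
      unfold Uni.dg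
      rw [hnu ω (hpos hω)]
      rfl) hl
  rw [e1]
  have := h j hj A hA
  linarith

/-- **(H5) for pairs**: the rows of the second and of the normal coordinate, on events. -/
theorem h5_un (hp : IsLaw p) {D : ℝ} (hw : w ≤ J) (hD : 1 ≤ D) (hr : w ≤ r) (hU : w ≤ U)
    (hP : w ≤ P) (hσ : Function.Injective σ)
    (hn : ∀ ω, 0 < p ω → Fnr r U P D (a ω) (s ω) (t ω) (a' ω) (s' ω) (t' ω))
    (b : F.Ω → β) (T : F.Ω → Θ) (v : F.Ω → V)
    (hQ : ∀ ω ω', 0 < p ω → 0 < p ω' → b ω = b ω' → T ω = T ω' →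
      F.ctx σ w r U P a s t ω = F.ctx σ w r U P a s t ω' ∧ F.T ω = F.T ω' ∧
      (a' ω = a' ω' ∧ s' ω = s' ω' ∧ t' ω = t' ω') ∧ v ω = v ω')
    {nu₁ nu₂ : F.Ω → ℝ} (hnu₁ : ∀ ω, 0 < p ω → nu₁ ω = F.rw3 σ w r U P a s t a' s' t' 1 ω)
    (hnu₂ : ∀ ω, 0 < p ω → nu₂ ω = F.rw3 σ w r U P a s t a' s' t' 2 ω)
    {q X : ℕ} {ϖ e : ℝ} (hϖ : 0 < ϖ)
    (h : ∀ j : ℕ, (j + 1) * q ≤ X → ∀ A : F.Ω → Prop, ϖ ≤ Pe p A →
      CH (Pool.Agent.H49.Ent.cond p A True)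
        (F.sbx σ r (U + (j + 1) * q) (P + (j + 1) * q) a' s' t')
        (fun ω => (F.sbx σ r (U + j * q) (P + j * q) a' s' t' ω, v ω)) ≤ e) :
    ∀ j : ℕ, (j + 1) * q ≤ X → ∀ A : F.Ω → Prop, ϖ ≤ Pe p A →
      CH (Pool.Agent.H49.Ent.cond p A True)
        (fun ω => (Uni.dg ((j + 1) * q) nu₁ ω, Uni.dg ((j + 1) * q) nu₂ ω))
        (fun ω => ((Uni.dg (j * q) nu₁ ω, Uni.dg (j * q) nu₂ ω), (b ω, T ω))) ≤
        e + (3 * Real.log (12 * D + 3) + 2 * Real.log 5) := by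
  intro j hj A hA
  have hl := isLaw_event hp hϖ hA
  have hpos : ∀ {ω : F.Ω}, 0 < Pool.Agent.H49.Ent.cond p A True ω → 0 < p ω := fun h =>
    of_event_pos hp h
  have key := CH_rows2 (F := F) (a := a) (s := s) (t := t) hl hw hD hr hU hP hσ (j * q)
    ((j + 1) * q) (j * q) ((j + 1) * q) (fun ω hω => hn ω (hpos hω)) (fun ω => (b ω, T ω)) v
    (fun ω ω' hω hω' h => hQ ω ω' (hpos hω) (hpos hω') (Prod.ext_iff.mp h).1
      (Prod.ext_iff.mp h).2)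
  have e1 := CH_congr_supp (p := Pool.Agent.H49.Ent.cond p A True)
    (X := fun ω => (Uni.dg ((j + 1) * q) nu₁ ω, Uni.dg ((j + 1) * q) nu₂ ω))
    (X' := fun ω => (Uni.dg ((j + 1) * q) (F.urow σ w r U P a s t a') ω,
      Uni.dg ((j + 1) * q) (F.nrow σ w r U P a s t s' t') ω))
    (W := fun ω => ((Uni.dg (j * q) nu₁ ω, Uni.dg (j * q) nu₂ ω), (b ω, T ω)))
    (W' := fun ω => ((Uni.dg (j * q) (F.urow σ w r U P a s t a') ω,
      Uni.dg (j * q) (F.nrow σ w r U P a s t s' t') ω), (b ω, T ω)))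
    (fun ω hω => by
      unfold Uni.dg
      rw [hnu₁ ω (hpos hω), hnu₂ ω (hpos hω)]
      rfl)
    (fun ω hω => by
      unfold Uni.dg
      rw [hnu₁ ω (hpos hω), hnu₂ ω (hpos hω)]
      rfl) hl
  rw [e1]
  have := h j hj A hA
  linarith

/-- **(H5) for the first and the normal coordinate**, on events. -/
theorem h5_en (hp : IsLaw p) {D : ℝ} (hw : w ≤ J) (hD : 1 ≤ D) (hr : w ≤ r) (hU : w ≤ U)
    (hP : w ≤ P) (hσ : Function.Injective σ)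
    (hn : ∀ ω, 0 < p ω → Fnr r U P D (a ω) (s ω) (t ω) (a' ω) (s' ω) (t' ω))
    (b : F.Ω → β) (T : F.Ω → Θ) (v : F.Ω → V)
    (hQ : ∀ ω ω', 0 < p ω → 0 < p ω' → b ω = b ω' → T ω = T ω' →
      F.ctx σ w r U P a s t ω = F.ctx σ w r U P a s t ω' ∧ F.T ω = F.T ω' ∧
      (a' ω = a' ω' ∧ s' ω = s' ω' ∧ t' ω = t' ω') ∧ v ω = v ω')
    {nu₀ nu₂ : F.Ω → ℝ} (hnu₀ : ∀ ω, 0 < p ω → nu₀ ω = F.rw3 σ w r U P a s t a' s' t' 0 ω)
    (hnu₂ : ∀ ω, 0 < p ω → nu₂ ω = F.rw3 σ w r U P a s t a' s' t' 2 ω)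
    {q X : ℕ} {ϖ e : ℝ} (hϖ : 0 < ϖ)
    (h : ∀ j : ℕ, (j + 1) * q ≤ X → ∀ A : F.Ω → Prop, ϖ ≤ Pe p A →
      CH (Pool.Agent.H49.Ent.cond p A True)
        (F.sbx σ (r + (j + 1) * q) U (P + (j + 1) * q) a' s' t')
        (fun ω => (F.sbx σ (r + j * q) U (P + j * q) a' s' t' ω, v ω)) ≤ e) :
    ∀ j : ℕ, (j + 1) * q ≤ X → ∀ A : F.Ω → Prop, ϖ ≤ Pe p A →
      CH (Pool.Agent.H49.Ent.cond p A True)
        (fun ω => (Uni.dg ((j + 1) * q) nu₀ ω, Uni.dg ((j + 1) * q) nu₂ ω))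
        (fun ω => ((Uni.dg (j * q) nu₀ ω, Uni.dg (j * q) nu₂ ω), (b ω, T ω))) ≤
        e + (4 * Real.log (12 * D + 3) + 3 * Real.log 5) := by
  intro j hj A hA
  have hl := isLaw_event hp hϖ hA
  have hpos : ∀ {ω : F.Ω}, 0 < Pool.Agent.H49.Ent.cond p A True ω → 0 < p ω := fun h =>
    of_event_pos hp h
  have key := CH_rows_en (F := F) (a := a) (s := s) (t := t) hl hw hD hr hU hP hσ (j * q)
    ((j + 1) * q) (j * q) ((j + 1) * q) (fun ω hω => hn ω (hpos hω)) (fun ω => (b ω, T ω)) v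
    (fun ω ω' hω hω' h => hQ ω ω' (hpos hω) (hpos hω') (Prod.ext_iff.mp h).1
      (Prod.ext_iff.mp h).2)
  have e1 := CH_congr_supp (p := Pool.Agent.H49.Ent.cond p A True)
    (X := fun ω => (Uni.dg ((j + 1) * q) nu₀ ω, Uni.dg ((j + 1) * q) nu₂ ω))
    (X' := fun ω => (Uni.dg ((j + 1) * q) (F.rw3 σ w r U P a s t a' s' t' 0) ω,
      Uni.dg ((j + 1) * q) (F.rw3 σ w r U P a s t a' s' t' 2) ω))
    (W := fun ω => ((Uni.dg (j * q) nu₀ ω, Uni.dg (j * q) nu₂ ω), (b ω, T ω)))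
    (W' := fun ω => ((Uni.dg (j * q) (F.rw3 σ w r U P a s t a' s' t' 0) ω,
      Uni.dg (j * q) (F.rw3 σ w r U P a s t a' s' t' 2) ω), (b ω, T ω)))
    (fun ω hω => by
      unfold Uni.dg
      rw [hnu₀ ω (hpos hω), hnu₂ ω (hpos hω)])
    (fun ω hω => by
      unfold Uni.dg
      rw [hnu₀ ω (hpos hω), hnu₂ ω (hpos hω)]) hl
  rw [e1]
  have := h j hj A hA
  linarith

/-- **(H5) for the three coordinates**, on events. -/
theorem h5_eun (hp : IsLaw p) {D : ℝ} (hw : w ≤ J) (hD : 1 ≤ D) (hr : w ≤ r) (hU : w ≤ U)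
    (hP : w ≤ P) (hσ : Function.Injective σ)
    (hn : ∀ ω, 0 < p ω → Fnr r U P D (a ω) (s ω) (t ω) (a' ω) (s' ω) (t' ω))
    (b : F.Ω → β) (T : F.Ω → Θ) (v : F.Ω → V)
    (hQ : ∀ ω ω', 0 < p ω → 0 < p ω' → b ω = b ω' → T ω = T ω' →
      F.ctx σ w r U P a s t ω = F.ctx σ w r U P a s t ω' ∧ F.T ω = F.T ω' ∧
      (a' ω = a' ω' ∧ s' ω = s' ω' ∧ t' ω = t' ω') ∧ v ω = v ω')
    {nu : Fin 3 → F.Ω → ℝ}
    (hnu : ∀ i ω, 0 < p ω → nu i ω = F.rw3 σ w r U P a s t a' s' t' i ω)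
    {q X : ℕ} {ϖ e : ℝ} (hϖ : 0 < ϖ)
    (h : ∀ j : ℕ, (j + 1) * q ≤ X → ∀ A : F.Ω → Prop, ϖ ≤ Pe p A →
      CH (Pool.Agent.H49.Ent.cond p A True)
        (F.sbx σ (r + (j + 1) * q) (U + (j + 1) * q) (P + (j + 1) * q) a' s' t')
        (fun ω => (F.sbx σ (r + j * q) (U + j * q) (P + j * q) a' s' t' ω, v ω)) ≤ e) :
    ∀ j : ℕ, (j + 1) * q ≤ X → ∀ A : F.Ω → Prop, ϖ ≤ Pe p A →
      CH (Pool.Agent.H49.Ent.cond p A True) (fun ω i => Uni.dg ((j + 1) * q) (nu i) ω)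
        (fun ω => (fun i => Uni.dg (j * q) (nu i) ω, (b ω, T ω))) ≤
        e + (3 * Real.log (12 * D + 3) + 3 * Real.log 5) := by
  intro j hj A hA
  have hl := isLaw_event hp hϖ hA
  have hpos : ∀ {ω : F.Ω}, 0 < Pool.Agent.H49.Ent.cond p A True ω → 0 < p ω := fun h =>
    of_event_pos hp h
  have key := CH_rows3 (F := F) (a := a) (s := s) (t := t) hl hw hD hr hU hP hσ
    (fun _ => j * q) (fun _ => (j + 1) * q) (fun ω hω => hn ω (hpos hω))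
    (fun ω => (b ω, T ω)) v
    (fun ω ω' hω hω' h => hQ ω ω' (hpos hω) (hpos hω') (Prod.ext_iff.mp h).1
      (Prod.ext_iff.mp h).2)
  have e1 := CH_congr_supp (p := Pool.Agent.H49.Ent.cond p A True)
    (X := fun ω i => Uni.dg ((j + 1) * q) (nu i) ω)
    (X' := fun ω i => Uni.dg ((j + 1) * q) (F.rw3 σ w r U P a s t a' s' t' i) ω)
    (W := fun ω => (fun i => Uni.dg (j * q) (nu i) ω, (b ω, T ω)))
    (W' := fun ω => (fun i => Uni.dg (j * q) (F.rw3 σ w r U P a s t a' s' t' i) ω, (b ω, T ω)))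
    (fun ω hω => by
      funext i
      unfold Uni.dg
      rw [hnu i ω (hpos hω)])
    (fun ω hω => by
      refine Prod.ext ?_ rfl
      funext i
      change ⌊(2 : ℝ) ^ (j * q) * nu i ω⌋ =
        ⌊(2 : ℝ) ^ (j * q) * F.rw3 σ w r U P a s t a' s' t' i ω⌋
      rw [hnu i ω (hpos hω)]) hl
  rw [e1]
  have := h j hj A hA
  linarith

/-- **The data of theorem OCS** in the natural box. The tangential coordinates of the box are `0`
and `1`, the normal coordinate is `2`; the slopes are bounded if the frames differ by less than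
the precisions. `E` is the direction of the fans relative to the box. -/
theorem ocsData_row (hp : IsLaw p) {D : ℝ} {B : ℕ} (hr : w ≤ r)
    (hU : w ≤ U) (hP : w ≤ P) (hσ : Function.Injective σ) (hDB : D ≤ 2 ^ B)
    (hn : ∀ ω, 0 < p ω → Fnr r U P D (a ω) (s ω) (t ω) (a' ω) (s' ω) (t' ω))
    (b : F.Ω → β) (T : F.Ω → Θ) {Λ : Type} (L : F.Ω → Λ) (E : F.Ω → ℝ)
    (hb : ∀ ω ω', 0 < p ω → 0 < p ω' → b ω = b ω' →
      F.ctx σ w r U P a s t ω = F.ctx σ w r U P a s t ω')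
    (hL : ∀ ω ω', 0 < p ω → 0 < p ω' → b ω = b ω' → L ω = L ω' → F.l ω = F.l ω')
    (hT : ∀ ω ω', 0 < p ω → 0 < p ω' → b ω = b ω' → T ω = T ω' → F.T ω = F.T ω' ∧
      (a' ω = a' ω' ∧ s' ω = s' ω' ∧ t' ω = t' ω') ∧ E ω = E ω')
    (hE : ∀ ω, 0 < p ω → |E ω| ≤ 2 ^ B) :
    OCSData B p b L T
      (fun j ω => F.mu w (ppr r U P) (fun o => tfr σ (a o) (s o) (t o)) ω (Fin.castSucc j))
      (fun j ω => F.md (vpr w r U P) (fun o => tfr σ (a o) (s o) (t o)) ω (Fin.castSucc j))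
      (fun ω => F.md (vpr w r U P) (fun o => tfr σ (a o) (s o) (t o)) ω 2)
      (fun ω => F.mu w (ppr r U P) (fun o => tfr σ (a o) (s o) (t o)) ω 2)
      (fun ω => F.wt w ω)
      (fun j ω => -F.cf3 r U P a s t a' s' t' 2 ω (Fin.castSucc j)) E
      (F.rw3 σ w r U P a s t a' s' t' 2) := by
  have hlab : ∀ ω ω', 0 < p ω → 0 < p ω' → b ω = b ω' → L ω = L ω' →
      F.mu w (ppr r U P) (fun o => tfr σ (a o) (s o) (t o)) ω =
        F.mu w (ppr r U P) (fun o => tfr σ (a o) (s o) (t o)) ω' ∧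
      F.md (vpr w r U P) (fun o => tfr σ (a o) (s o) (t o)) ω =
        F.md (vpr w r U P) (fun o => tfr σ (a o) (s o) (t o)) ω' := by
    intro ω ω' hω hω' h1 h2
    obtain ⟨c1, ⟨c2, c3, c4⟩, c5⟩ := ctx_ext hσ (hb ω ω' hω hω' h1)
    have key := label_det F (g := w) (k := ppr r U P) (c := vpr w r U P)
      (M := fun o => tfr σ (a o) (s o) (t o)) (hL ω ω' hω hω' h1 h2) c1 (by
        change tfr σ (a ω) (s ω) (t ω) = tfr σ (a ω') (s ω') (t ω')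
        rw [c2, c3, c4]) c5
    exact key.2
  refine ⟨hp, ?_, ?_, ?_, ?_, ?_, ?_, ?_, ?_, ?_, ?_, ?_, ?_, hE, ?_⟩
  · intro j ω ω' hω hω' h
    have h1 := Prod.ext_iff.mp h
    exact congrFun (hlab ω ω' hω hω' h1.1 h1.2).1 _
  · intro j ω ω' hω hω' h
    have h1 := Prod.ext_iff.mp h
    exact congrFun (hlab ω ω' hω hω' h1.1 h1.2).2 _
  · intro ω ω' hω hω' h
    have h1 := Prod.ext_iff.mp h
    exact congrFun (hlab ω ω' hω hω' h1.1 h1.2).2 2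
  · intro ω ω' hω hω' h
    have h1 := Prod.ext_iff.mp h
    exact congrFun (hlab ω ω' hω hω' h1.1 h1.2).1 2
  · intro ω ω' hω hω' h
    have h1 := Prod.ext_iff.mp h
    have h2 := (hT ω ω' hω hω' h1.1 h1.2).1
    change F.wt w ω = F.wt w ω'
    unfold Fam.wt
    rw [h2]
  · intro j ω ω' hω hω' h
    have h1 := Prod.ext_iff.mp h
    obtain ⟨h2, ⟨h3, h4, h5⟩, -⟩ := hT ω ω' hω hω' h1.1 h1.2
    obtain ⟨c1, ⟨c2, c3, c4⟩, c5⟩ := ctx_ext hσ (hb ω ω' hω hω' h1.1)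
    change -tsl (ppr r U P) P (s' ω - s ω) ((t' ω - t ω) + (s' ω - s ω) * a ω)
      (Fin.castSucc j) = -tsl (ppr r U P) P (s' ω' - s ω')
      ((t' ω' - t ω') + (s' ω' - s ω') * a ω') (Fin.castSucc j)
    rw [c2, c3, c4, h4, h5]
  · intro ω ω' hω hω' h
    have h1 := Prod.ext_iff.mp h
    exact (hT ω ω' hω hω' h1.1 h1.2).2.2
  · exact fun j ω _ => mu_mem F w _ _ ω _
  · exact fun j ω _ => md_mem F _ _ ω _
  · exact fun ω _ => md_mem F _ _ ω _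
  · intro ω _
    exact Lab.wt_mem F w ω
  · intro j ω hω
    obtain ⟨n1, n2, n3⟩ := hn ω hω
    have aux : ∀ {x : ℝ} {k : ℕ}, |x| ≤ D * 2 ^ k / 2 ^ P → |2 ^ P / 2 ^ k * -x| ≤ 2 ^ B := by
      intro x k h
      rw [abs_mul, abs_neg, abs_of_pos (by positivity : (0 : ℝ) < 2 ^ P / 2 ^ k)]
      refine le_trans ?_ hDB
      calc (2 : ℝ) ^ P / 2 ^ k * |x| ≤ 2 ^ P / 2 ^ k * (D * 2 ^ k / 2 ^ P) :=
            mul_le_mul_of_nonneg_left h (by positivity)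
        _ = D := by field_simp
    change |-tsl (ppr r U P) P (s' ω - s ω) ((t' ω - t ω) + (s' ω - s ω) * a ω)
      (Fin.castSucc j)| ≤ 2 ^ B
    rw [abs_neg]
    fin_cases j
    · exact aux n3
    · exact aux n2
  · intro ω _
    have e1 : (fun i => vpr w r U P i + w) = ppr r U P := vpr_fun hr hU hP
    change ∑ j, F.cf3 r U P a s t a' s' t' 2 ω j *
      F.mx w (vpr w r U P) (fun o => tfr σ (a o) (s o) (t o)) ω j = _
    have e2 : ∀ j, F.mx w (vpr w r U P) (fun o => tfr σ (a o) (s o) (t o)) ω j =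
        F.mu w (ppr r U P) (fun o => tfr σ (a o) (s o) (t o)) ω j +
        F.wt w ω * F.md (vpr w r U P) (fun o => tfr σ (a o) (s o) (t o)) ω j := by
      intro j
      unfold Fam.mx
      rw [e1]
    have e3 : F.cf3 r U P a s t a' s' t' 2 ω 2 = 1 := by
      change (2 : ℝ) ^ P / 2 ^ P = 1
      field_simp
    rw [Fin.sum_univ_three, Fin.sum_univ_two, e2, e2, e2, e3]
    change F.cf3 r U P a s t a' s' t' 2 ω 0 * _ + F.cf3 r U P a s t a' s' t' 2 ω 1 * _ + _ =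
      _ - (-F.cf3 r U P a s t a' s' t' 2 ω 0 * _ + -F.cf3 r U P a s t a' s' t' 2 ω 1 * _)
    simp only [Fin.castSucc_zero]
    ring_nf
    rfl

end h5

end Pool.K2S
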