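import Pool.Agent.H9.S6.H67G
import Pool.Agent.H97.S6.Lev
import Pool.Agent.H21.FALL.One
import Pool.Agent.H90.S6R.Ocs
import Pool.Agent.H80.KS6.Start
import Pool.Agent.H80.S6C.Num

/-!
# (H6) in the zone, at integer windows
-/

set_option autoImplicit false

namespace Pool.S6N

open Finset Real
open Pool.Agent.H49.Ent Pool.Agent.H32.Dense Pool.STK Pool.KA Pool.KSAT Pool.K3 Pool.K2S Pool.PB
  Pool.KS6 Pool.S6C

section one

variable {J : ℕ} {F : Fam 3 J} {A : F.Ω → Prop} {σ : Fin 3 → Fin 3} {w q V H X k : ℕ} {D : ℝ}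
  {a s t a' s' t' : F.Ω → ℝ}

/-- Frames of a window are frames of the smaller windows. -/
theorem frg_up {v : ℕ} (hwv : w ≤ v) (hv : v ≤ J) (hF : Frg F A w V H D a s t a' s' t') :
    Frg F A v V H D a s t a' s' t' :=
  { hF with fn := fun ω ω' h => hF.fn ω ω' (Pool.S6K.slam_mono hwv hv h) }

/-- **(H6)** in the contexts at the window `w`, with the planks of a smaller window `v`. -/
theorem h6_frw {Qt : ℕ} (hQJ : Qt ≤ J) (hσ : Function.Injective σ) {W lam P P2 k₀ v : ℕ}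
    {C κ δ : ℝ} (hC : 1 ≤ C) (hl : IsLaw (Pool.Agent.H49.Ent.cond F.p A True))
    (hF : Frg F A w V H D a s t a' s' t') (hwv : w ≤ v) (hvJ : v ≤ J)
    {y : F.Ω → Pln} (hn : ∀ ω, A ω → Nex V H k D (y ω) (a ω) (a' ω) (s' ω) (t' ω))
    (hI : ∀ ω, A ω → Inc (σ 0) (σ 1) (σ 2) W lam P C (y ω) (F.t ω) (F.x ω) (F.d ω))
    {φ : (Fin 3 → ℤ) × (ℕ × F.ζ) → Pln} (hφ : ∀ ω, A ω → y ω = φ (ptq F Qt ω))
    (hD0 : 1 ≤ D) (hD : 4 * D ≤ 2 ^ k₀) (h1 : V ≤ lam + k₀) (h2 : v + V ≤ Qt) (hk0 : k₀ ≤ k)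
    (h3 : k₀ + 3 ≤ V + H) (h4 : P2 + 2 * k₀ + 3 ≤ v + (V + H + k))
    (h5 : W + P2 ≤ v + P) (h6 : P2 ≤ Qt)
    (hB : ∀ B : F.Ω → Prop, Sub B A → Real.exp (-(κ + Real.log 9 + KC C)) * Pe F.p A ≤ Pe F.p B →
      ¬ LABq F Qt (σ 0) (σ 1) (σ 2) v 0 P2 2 B) (hδ : δ ≤ 1 / 2 ^ k) :
    Pool.KAF.Pr (dbl (Pool.Agent.H49.Ent.cond F.p A True)
        (fun ω => (blk F σ w q V H X a s t ω, ctx F σ w q V H a s t ω)))
      {x | ∀ j, |SS V H a s t s' t' j x.1 - SS V H a s t s' t' j x.2| < δ} ≤ Real.exp (-κ) := by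
  have hA : ∀ ω, 0 < Pool.Agent.H49.Ent.cond F.p A True ω → A ω := fun ω hω => by
    have := ((cond_pos_iff F.isLaw.nonneg A True ω).1 hω).2
    simpa using this
  have hls : ∀ ω ω', slam F v ω = slam F v ω' →
      (blk F σ w q V H X a s t ω, ctx F σ w q V H a s t ω) =
        (blk F σ w q V H X a s t ω', ctx F σ w q V H a s t ω') := fun ω ω' h =>
    lab_slam hF ω ω' (Pool.S6K.slam_mono hwv hvJ h)
  have hl9 : 0 ≤ Real.log 9 := Real.log_nonneg (by norm_num)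
  have hkk : (1 : ℝ) / 2 ^ k + 2 * (D / 2 ^ k) ≤ 1 / 2 ^ (k - k₀) := by
    have e1 : (2 : ℝ) ^ k = 2 ^ k₀ * 2 ^ (k - k₀) := by
      rw [← pow_add]
      congr 1
      omega
    have e2 : (1 : ℝ) / 2 ^ k + 2 * (D / 2 ^ k) = (1 + 2 * D) / 2 ^ k := by ring
    rw [e2, e1, ← div_div, div_le_div_iff_of_pos_right (by positivity),
      div_le_one (by positivity)]
    linarith only [hD0, hD]
  have tr : ∀ x : F.Ω × F.Ω, (blk F σ w q V H X a s t x.1, ctx F σ w q V H a s t x.1) =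
      (blk F σ w q V H X a s t x.2, ctx F σ w q V H a s t x.2) →
      0 < Pool.Agent.H49.Ent.cond F.p A True x.1 → 0 < Pool.Agent.H49.Ent.cond F.p A True x.2 →
      x ∈ {x : F.Ω × F.Ω | ∀ j, |SS V H a s t s' t' j x.1 - SS V H a s t s' t' j x.2| < δ} →
      ∃ z : Pln, Nfr V H (V + H) (2 * D) (y x.1) z ∧ Nfr V H (V + H) (2 * D) (y x.2) z ∧
        |Sc0 (V + H) (y x.1) z - Sc0 (V + H) (y x.2) z| ≤ 1 / 2 ^ (k - k₀) ∧
        |Sc1 H (y x.1) z - Sc1 H (y x.2) z| ≤ 1 / 2 ^ (k - k₀) := by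
    rintro x hg hx1 hx2 hx3
    have k1 := hA _ hx1
    have k2 := hA _ hx2
    have hb : ctx F σ w q V H a s t x.1 = ctx F σ w q V H a s t x.2 :=
      (Prod.ext_iff.mp hg).2
    obtain ⟨f1, f2, f3⟩ := ctx_frm hσ hb
    have n1 := nfr_of_nex hF (by linarith only [hD0]) k1 (hn _ k1)
    have n2 := nfr_of_nex hF (by linarith only [hD0]) k2 (hn _ k2)
    have q1 : |SS V H a s t s' t' 0 x.1 - SS V H a s t s' t' 0 x.2| < δ := hx3 0
    have q2 : |SS V H a s t s' t' 1 x.1 - SS V H a s t s' t' 1 x.2| < δ := hx3 1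
    have s1 := abs_le.1 (sc0_nex (s := s) (t := t) (hn _ k1))
    have s2 := abs_le.1 (sc0_nex (s := s) (t := t) (hn _ k2))
    have s3 := abs_le.1 (sc1_nex (s := s) (t := t) (hn _ k1))
    have s4 := abs_le.1 (sc1_nex (s := s) (t := t) (hn _ k2))
    have q3 := abs_lt.1 (q1.trans_le hδ)
    have q4 := abs_lt.1 (q2.trans_le hδ)
    rw [f1, f2, f3] at n1 s1 s3
    refine ⟨_, n1, n2, le_trans (abs_le.2 ?_) hkk, le_trans (abs_le.2 ?_) hkk⟩
    · constructor <;> linarith only [s1, s2, q3]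
    · constructor <;> linarith only [s3, s4, q4]
  exact by
   by_cases hk : k₀ ≤ V
   · refine Pr_dbl_self hl ?_ (h6b F hQJ (sig_all hσ) (v := v) (W := W) (lam := lam) (P := P)
       (l2 := V - k₀) (sg := H + (k - k₀)) (ag := V + H + (k - k₀) - k₀) (P2 := P2) (κ := κ) hC hl
       hI hφ hls (by omega) (by omega) (by omega) (by omega) h5 h6 ?_)
     · intro x hg hx1 hx2 hx3
       obtain ⟨z, n1, n2, q1, q2⟩ := tr x hg hx1 hx2 hx3
       exact agr_of_sc (by omega) hk (by linarith only [hD0]) (by linarith only [hD]) n1 n2 q1 q2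
     · intro B hBA hPB hLB
       refine hB B hBA (le_trans ?_ hPB) ?_
       · refine mul_le_mul_of_nonneg_right (Real.exp_le_exp.2 ?_) (Pe_nonneg F.isLaw A)
         linarith only [hl9]
       obtain ⟨y', q1, q2, q3⟩ := hLB
       refine ⟨y', fun ω hω => ?_, q2, q3⟩
       have q := q1 ω hω
       refine ⟨q.e_le, q.c_le, q.s_le, q.pe, q.pu.trans ?_, q.pn, q.ve, q.vu.trans ?_, q.vn⟩
       · exact div_le_div_of_nonneg_left (by norm_num) (by positivity)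
           (pow_le_pow_right₀ (by norm_num) (by omega))
       · exact div_le_div_of_nonneg_left (by norm_num) (by positivity)
           (pow_le_pow_right₀ (by norm_num) (by omega))
   · refine Pr_dbl_self hl ?_ (h6b0 F hQJ (sig_all hσ) (v := v) (W := W) (lam := lam) (P := P)
       (sg := H + (k - k₀)) (ag := V + H + (k - k₀) - k₀) (P2 := P2) (κ := κ) hC hl hI hφ
       hls (by omega) (by omega) (by omega) (by omega) h5 h6 hB)
     intro x hg hx1 hx2 hx3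
     obtain ⟨z, n1, n2, q1, q2⟩ := tr x hg hx1 hx2 hx3
     refine ⟨?_, agr_of_sc0 (by omega) (by omega) (by linarith only [hD0]) (by linarith only [hD]) n2 q1 q2⟩
     have e1 := (hI _ (hA _ hx1)).e_le
     have e2 := (hI _ (hA _ hx2)).e_le
     exact (abs_sub _ _).trans (by linarith only [e1, e2])

end one

/-! ### The numbers of the zone -/

section zone

variable {σ : ℝ → Row} {N : ℕ} {u : ℕ → ℚ} {w₀ v₀ v g ρ e : ℝ}

theorem Zon.u_pos (hZ : Zon σ N u w₀ v₀ v g ρ e) {j : ℕ} (hj : j ≤ N) : 0 < u j :=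
  hZ.pos.trans_le (hZ.anti hj le_rfl)

theorem Zon.u_lt (hZ : Zon σ N u w₀ v₀ v g ρ e) {j : ℕ} (hj : j ≤ N) : u j < 1 :=
  (hZ.anti (Nat.zero_le j) hj).trans_lt hZ.lt1

theorem Zon.uR (hZ : Zon σ N u w₀ v₀ v g ρ e) {j : ℕ} (hj : j ≤ N) :
    (0 : ℝ) < u j ∧ (u j : ℝ) < 1 := by
  have h1 := hZ.u_pos hj
  have h2 := hZ.u_lt hj
  constructor
  · exact_mod_cast h1
  · exact_mod_cast h2

/-- The numbers at the windows of the grid. -/
theorem Zon.num (hZ : Zon σ N u w₀ v₀ v g ρ e) {j : ℕ} (hj : j ≤ N) :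
    |(σ 1).rot (u j) - v₀ - v * (u j - w₀)| ≤ e ∧
    |(σ 1).th (u j) - g - (1 + ρ) * (u j - w₀)| ≤ e ∧ (σ 1).rot (u j) + 20 * e < (σ 1).pi ∧
    (σ 1).th (u j) < 1 ∧ v₀ + v * (u j - w₀) + 40 * e < g - w₀ + ρ * (u j - w₀) :=
  hZ.aff (u j) (hZ.anti hj le_rfl) (hZ.anti (Nat.zero_le j) hj)

/-- The steps of the grid. -/
theorem Zon.step (hZ : Zon σ N u w₀ v₀ v g ρ e) {j : ℕ} (h1 : 1 ≤ j) (hj : j ≤ N) :
    0 ≤ (u (j - 1) : ℝ) - u j ∧ (u (j - 1) : ℝ) - u j ≤ e ∧ v * ((u (j - 1) : ℝ) - u j) ≤ e ∧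
      ρ * ((u (j - 1) : ℝ) - u j) ≤ e := by
  have h2 := hZ.stp (j - 1) (by omega)
  have h3 : (u j : ℝ) ≤ u (j - 1) := hZ.antiR (by omega) hj
  rw [Nat.sub_add_cancel h1] at h2
  have h4 := hZ.v0
  have h5 := hZ.ρ0
  have h6 : 0 ≤ (u (j - 1) : ℝ) - u j := by linarith only [h3]
  have h7 : 0 ≤ v * ((u (j - 1) : ℝ) - u j) := mul_nonneg h4 h6
  have h8 : 0 ≤ ρ * ((u (j - 1) : ℝ) - u j) := mul_nonneg h5 h6
  refine ⟨h6, ?_, ?_, ?_⟩ <;> linarith [h2, h7, h8, h6]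

end zone

/-! ### (H6) -/

/-- The exact frame is near the exact plank. -/
theorem nex_of {J : ℕ} {F : Fam 3 J} {B : F.Ω → Prop} {i₀ iu iN : Fin 3} {y : F.Ω → Pln}
    {Pu PN V₀ R₀ w' Vj Hj kk Vx Hx Rx : ℕ} {al nu k b : F.Ω → ℝ}
    (hE : FrE F B i₀ iu iN Pu PN V₀ R₀ y al nu k b) {a s t : F.Ω → ℝ}
    (hF : Frg F B w' Vj Hj 64 a s t (fun ω => xa Vx (al ω)) (fun ω => xs Hx (y ω))
      (fun ω => xt Vx Hx Rx (al ω) (k ω) (y ω)))
    (h1 : Vj ≤ Vx) (h2 : Vj ≤ V₀) (h3 : Hj + kk ≤ Hx) (h4 : Vj + Hj + kk ≤ Rx)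
    (h5 : Vj + Hj + kk ≤ R₀) {ω : F.Ω} (hω : B ω) :
    Nex Vj Hj kk 128 (y ω) (a ω) (xa Vx (al ω)) (xs Hx (y ω))
      (xt Vx Hx Rx (al ω) (k ω) (y ω)) := by
  have g1 := rd_near Vx (al ω)
  have g2 := hE.ae ω hω
  have g3 := inv_pow_mono h1
  have g4 : (8 : ℝ) / 2 ^ V₀ ≤ 8 / 2 ^ Vj :=
    div_le_div_of_nonneg_left (by norm_num) (by positivity) (pow_le_pow_right₀ (by norm_num) h2)
  have g5 := rd_near Hx (-(y ω).s)
  have g6 := inv_pow_mono h3
  have g7 := rd_near Rx (-(y ω).c + k ω + (-(y ω).s - xs Hx (y ω)) * xa Vx (al ω))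
  have g8 := inv_pow_mono h4
  have g9 := hE.kb ω hω
  have g10 : (8 : ℝ) / 2 ^ R₀ ≤ 8 / 2 ^ (Vj + Hj + kk) :=
    div_le_div_of_nonneg_left (by norm_num) (by positivity) (pow_le_pow_right₀ (by norm_num) h5)
  have g11 := hF.ca ω hω
  refine ⟨?_, ?_, ?_⟩
  · have e1 : xa Vx (al ω) - (y ω).e = (rd Vx (al ω) - al ω) + (al ω - (y ω).e) := by
      unfold xa
      ring
    have e2 : (128 : ℝ) / 2 ^ Vj = 1 / 2 ^ Vj + 8 / 2 ^ Vj + 119 / 2 ^ Vj := by ring
    have e3 : (0 : ℝ) ≤ 119 / 2 ^ Vj := by positivity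
    rw [e1, e2]
    exact (abs_add_le _ _).trans (by linarith only [g1, g2, g3, g4, e3])
  · have e1 : xs Hx (y ω) + (y ω).s = rd Hx (-(y ω).s) - -(y ω).s := by
      unfold xs
      ring
    have e2 : (128 : ℝ) / 2 ^ (Hj + kk) = 1 / 2 ^ (Hj + kk) + 127 / 2 ^ (Hj + kk) := by ring
    have e3 : (0 : ℝ) ≤ 127 / 2 ^ (Hj + kk) := by positivity
    rw [e1, e2]
    linarith only [g5, g6, e3]
  · have m1 : |(-(y ω).s - xs Hx (y ω)) * (xa Vx (al ω) - a ω)| ≤ 64 / 2 ^ (Vj + Hj + kk) := by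
      rw [abs_mul]
      have g5' : |-(y ω).s - xs Hx (y ω)| ≤ 1 / 2 ^ (Hj + kk) := by
        rw [abs_sub_comm]
        exact g5.trans g6
      calc _ ≤ 1 / 2 ^ (Hj + kk) * (64 / 2 ^ Vj) :=
            mul_le_mul g5' g11 (abs_nonneg _) (by positivity)
        _ = _ := by
            rw [show Vj + Hj + kk = (Hj + kk) + Vj by omega, pow_add 2 (Hj + kk) Vj]
            field_simp
    have e1 : xt Vx Hx Rx (al ω) (k ω) (y ω) + (y ω).c + (xs Hx (y ω) + (y ω).s) * a ω =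
        (rd Rx (-(y ω).c + k ω + (-(y ω).s - xs Hx (y ω)) * xa Vx (al ω)) -
          (-(y ω).c + k ω + (-(y ω).s - xs Hx (y ω)) * xa Vx (al ω))) + k ω +
        (-(y ω).s - xs Hx (y ω)) * (xa Vx (al ω) - a ω) := by
      unfold xt
      ring
    have e2 : (128 : ℝ) / 2 ^ (Vj + Hj + kk) = 1 / 2 ^ (Vj + Hj + kk) + 8 / 2 ^ (Vj + Hj + kk) +
      64 / 2 ^ (Vj + Hj + kk) + 55 / 2 ^ (Vj + Hj + kk) := by ring
    have e3 : (0 : ℝ) ≤ 55 / 2 ^ (Vj + Hj + kk) := by positivity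
    rw [e1, e2]
    exact (abs_add_three _ _ _).trans (by linarith only [g7, g8, g9, g10, m1, e3])

/-- **(H6)** in the zone. -/
theorem h6_zon : H6Stmt := by
  intro S a R h₁ i₀ c s₂ r D σ hC N u w₀ v₀ v g ρ e hZ j x ε h1j hj hx hxρ hth hε
  have he := hZ.e0
  have hx0 : 0 < x := by linarith only [hx, he]
  have hrw := hC.row 1 one_pos le_rfl hC.D1
  have hj1 : j - 1 ≤ N := by omega
  have hG := hrw.th (u (j - 1)) (hZ.u_pos hj1).le (hZ.u_lt hj1).le
  have hG0 := num_nonneg hC.ne hG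
  have hrot := hrw.rot (u j) (hZ.u_pos hj).le (hZ.u_lt hj).le
  have hrot0 := num_nonneg hC.ne hrot
  obtain ⟨c', hc', J₁, hn⟩ := num_no2 (qTh_hered i₀ 1 (u (j - 1))) hG he (Real.log 9 + KC 2)
  obtain ⟨J₂, hJ₂⟩ := exists_nat_gt (24 / e)
  obtain ⟨J₃, hJ₃⟩ := exists_nat_gt (-Real.log (min ε (1 / 4)) / c')
  refine Clp.of hc' (max J₁ (max J₂ J₃)) fun J hJ F A hS B hBA hPB Pu PN τ y z al nu k b hM
    Vx Hx Rx w q X hw1 hw2 V H hV hVH k1 k2 k3 _ _ _ => ?_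
  have hJ1 : J₁ ≤ J := (le_max_left _ _).trans hJ
  have hJ2 : (J₂ : ℝ) ≤ J := by
    exact_mod_cast ((le_max_left _ _).trans (le_max_right _ _)).trans hJ
  have hJ3 : (J₃ : ℝ) ≤ J := by
    exact_mod_cast ((le_max_right _ _).trans (le_max_right _ _)).trans hJ
  have hJ0 : (0 : ℝ) ≤ J := Nat.cast_nonneg J
  have geJ : 24 < e * J := by
    have := hJ₂.trans_le hJ2
    rw [div_lt_iff₀ he] at this
    linarith only [this]
  have hmin : 0 < min ε (1 / 4) := lt_min hε (by norm_num)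
  have hexp : Real.exp (-(c' * J)) ≤ min ε (1 / 4) := by
    have := (hJ₃.trans_le hJ3).le
    rw [div_le_iff₀ hc'] at this
    rw [← Real.exp_log hmin]
    exact Real.exp_le_exp.2 (by linarith only [this])
  exact by
   have hApos : 0 < Pe F.p A := (Real.exp_pos _).trans_le (hC.st _ J F A hS).2.2.2
   have hBpos : 0 < Pe F.p B := by linarith only [hPB, hApos]
   have hl : IsLaw (Pool.Agent.H49.Ent.cond F.p B True) := isLaw_event F.isLaw hBpos le_rfl
   have hPB' : Real.exp (-(c' * J)) * Pe F.p A ≤ Pe F.p B := by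
     calc _ ≤ 1 / 4 * Pe F.p A :=
           mul_le_mul_of_nonneg_right (hexp.trans (min_le_right _ _)) hApos.le
       _ ≤ _ := by linarith only [hPB]
   have e1 : ⌊(1 : ℝ) * J⌋₊ = J := by rw [one_mul, Nat.floor_natCast]
   -- the numbers
   obtain ⟨-, n2, -, n4, -⟩ := hZ.num hj1
   obtain ⟨m1, m2, -, m4, m5⟩ := hZ.num hj
   obtain ⟨s1, s2, -, s4⟩ := hZ.step h1j hj
   rw [abs_le] at n2 m1 m2
   have hu1 := hZ.uR hj1
   have huj := hZ.uR hj
   have hρ := hZ.ρ0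
   have hu0 : (u (j - 1) : ℝ) ≤ u 0 := hZ.antiR (Nat.zero_le _) hj1
   have r0 : 0 ≤ g - w₀ + ρ * (u j - w₀) - 20 * e := by linarith only [he, hrot0, m1, m5, m1.1]
   have f1 := Nat.lt_floor_add_one ((u (j - 1) : ℝ) * J)
   have f1' := Nat.floor_le (mul_nonneg hu1.1.le hJ0)
   have f2 := Nat.lt_floor_add_one ((g - w₀ + ρ * (u j - w₀) - 20 * e) * J)
   have f2' := Nat.floor_le (mul_nonneg r0 hJ0)
   have f3 := Nat.lt_floor_add_one ((g - w₀ + ρ * (u 0 - w₀) - 20 * e) * J)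
   have hGe : 0 ≤ (σ 1).th (u (j - 1)) + e := by linarith only [he, hG0]
   have f4 := Nat.floor_le (mul_nonneg hGe hJ0)
   have f5 := Nat.floor_le (mul_nonneg hx0.le hJ0)
   have f5' := Nat.lt_floor_add_one (x * J)
   have d1 : (24 : ℝ) * e ≤ ρ * (u 0 - u (j - 1)) := by
     have : ρ * ((u 0 : ℝ) - u (j - 1)) = ρ * (u 0 - u j) - ρ * (u (j - 1) - u j) := by ring
     linarith only [hx, hxρ, he, s4]
   exact by
    have hJe : e * J ≤ x / 100 * J := mul_le_mul_of_nonneg_right (by linarith only [hx]) hJ0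
    -- levels as reals
    have eVH : ((V + H : ℕ) : ℝ) = ⌊(g - w₀ + ρ * (u j - w₀) - 20 * e) * J⌋₊ := by
      rw [hVH]
      rfl
    have eVH' : (V : ℝ) + H = ⌊(g - w₀ + ρ * (u j - w₀) - 20 * e) * J⌋₊ := by
      rw [← eVH]
      push_cast
      ring
    have K1 : ((σ 1).th (u (j - 1)) + e) * J + 24 * (e * J) ≤
        u (j - 1) * J + (g - w₀ + ρ * (u j - w₀) - 20 * e) * J + x * J := by
      have : (σ 1).th (u (j - 1)) + e + 24 * e ≤
          u (j - 1) + (g - w₀ + ρ * (u j - w₀) - 20 * e) + x := by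
        linarith only [hx, he, n2, s4, n2.2]
      have := mul_le_mul_of_nonneg_right this hJ0
      linarith only [this]
    have K2 : ((σ 1).th (u (j - 1)) + e) * J + 2 * (e * J) ≤
        u (j - 1) * J + (g - w₀ + ρ * (u 0 - w₀) - 20 * e) * J := by
      have : (σ 1).th (u (j - 1)) + e + 2 * e ≤
          u (j - 1) + (g - w₀ + ρ * (u 0 - w₀) - 20 * e) := by
        linarith only [hx, hxρ, he, n2, s4, n2.2]
      have := mul_le_mul_of_nonneg_right this hJ0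
      linarith only [this]
    have K3 : (g - w₀ + ρ * (u j - w₀) - 20 * e) * J + x * J + 100 * (e * J) ≤
        (g - w₀ + ρ * (u 0 - w₀) - 20 * e) * J := by
      have : (g - w₀ + ρ * (u j - w₀) - 20 * e) + x + 100 * e ≤
          (g - w₀ + ρ * (u 0 - w₀) - 20 * e) := by linarith only [hxρ]
      have := mul_le_mul_of_nonneg_right this hJ0
      linarith only [this]
    have K4 : 19 * (e * J) ≤ (g - w₀ + ρ * (u j - w₀) - 20 * e) * J := by
      have : 19 * e ≤ g - w₀ + ρ * (u j - w₀) - 20 * e := by linarith only [hrot0, m1, m5, m1.1]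
      have := mul_le_mul_of_nonneg_right this hJ0
      linarith only [this]
    exact by
     have c1 : V ≤ vl u w₀ v₀ v e J 0 := by
       rw [hV]
       exact vl_anti hZ J (Nat.zero_le j) hj
     have hwJ : wl u J (j - 1) ≤ J := by
       refine Nat.floor_le_of_le ?_
       calc (u (j - 1) : ℝ) * J ≤ 1 * J := mul_le_mul_of_nonneg_right hu1.2.le hJ0
         _ = J := one_mul _
     have c2 : wl u J (j - 1) + V ≤ J := by
       have : V ≤ J - wl u J (j - 1) := by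
         rw [hV]
         refine Nat.floor_le_of_le ?_
         rw [Nat.cast_sub hwJ]
         have d2 : v₀ + v * (u j - w₀) - 10 * e ≤ 1 - u (j - 1) := by linarith only [he, m2, m4, m5, s2, m2.1]
         have d3 := mul_le_mul_of_nonneg_right d2 hJ0
         have d4 : ((wl u J (j - 1) : ℕ) : ℝ) ≤ u (j - 1) * J := f1'
         linarith only [d3, d4]
       omega
     have c3 : 9 ≤ ⌊x * J⌋₊ := by
       refine Nat.le_floor ?_
       push_cast
       linarith only [hx, hth, he, hG0, geJ, hJe]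
     have c4 : 9 + 3 ≤ V + H := by
       have : ((9 + 3 : ℕ) : ℝ) ≤ ((V + H : ℕ) : ℝ) := by
         rw [eVH]
         push_cast
         linarith only [hx, hth, he, hG0, geJ, f2, K4]
       exact_mod_cast this
     have c5 : ⌊((σ 1).th (u (j - 1)) + e) * J⌋₊ + 2 * 9 + 3 ≤
         wl u J (j - 1) + (V + H + ⌊x * J⌋₊) := by
       have : ((⌊((σ 1).th (u (j - 1)) + e) * J⌋₊ + 2 * 9 + 3 : ℕ) : ℝ) ≤
           ((wl u J (j - 1) + (V + H + ⌊x * J⌋₊) : ℕ) : ℝ) := by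
         have d4 : (u (j - 1) : ℝ) * J < (wl u J (j - 1) : ℕ) + 1 := f1
         push_cast
         rw [eVH']
         linarith only [hx, hth, he, hG0, geJ, f2, f4, f5', K1, d4]
       exact_mod_cast this
     exact by
      have c6 : wl u J 0 + ⌊((σ 1).th (u (j - 1)) + e) * J⌋₊ ≤
          wl u J (j - 1) + (wl u J 0 + rl u w₀ g ρ e J 0) := by
        have : ((⌊((σ 1).th (u (j - 1)) + e) * J⌋₊ : ℕ) : ℝ) ≤
            ((wl u J (j - 1) + rl u w₀ g ρ e J 0 : ℕ) : ℝ) := by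
          have d4 : (u (j - 1) : ℝ) * J < (wl u J (j - 1) : ℕ) + 1 := f1
          have d5 : (g - w₀ + ρ * (u 0 - w₀) - 20 * e) * J < (rl u w₀ g ρ e J 0 : ℕ) + 1 := f3
          push_cast
          linarith only [hx, hth, he, hG0, geJ, f4, K1, K3, d4, d5]
        have : ⌊((σ 1).th (u (j - 1)) + e) * J⌋₊ ≤ wl u J (j - 1) + rl u w₀ g ρ e J 0 := by
          exact_mod_cast this
        omega
      have hGe1 : (σ 1).th (u (j - 1)) + e ≤ 1 := by linarith only [hx, hth, he]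
      have c7 : ⌊((σ 1).th (u (j - 1)) + e) * J⌋₊ ≤ J := by
        refine Nat.floor_le_of_le ?_
        calc ((σ 1).th (u (j - 1)) + e) * J ≤ 1 * J := mul_le_mul_of_nonneg_right hGe1 hJ0
          _ = J := one_mul _
      have c8 : V ≤ Vx := by
        have : (V : ℝ) ≤ Vx := by linarith only [hx, hth, he, hG0, k1, geJ, hJe, mul_nonneg hx0.le hJ0]
        exact_mod_cast this
      have c9 : H + ⌊x * J⌋₊ ≤ Hx := by
        have : ((H + ⌊x * J⌋₊ : ℕ) : ℝ) ≤ Hx := by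
          push_cast
          linarith only [k2, f5]
        exact_mod_cast this
      have c10 : V + H + ⌊x * J⌋₊ ≤ Rx := by
        have : ((V + H + ⌊x * J⌋₊ : ℕ) : ℝ) ≤ Rx := by
          push_cast
          linarith only [k3, f5]
        exact_mod_cast this
      have c11 : V + H + ⌊x * J⌋₊ ≤ rl u w₀ g ρ e J 0 := by
        have : ((V + H + ⌊x * J⌋₊ : ℕ) : ℝ) ≤ (rl u w₀ g ρ e J 0 : ℕ) := by
          have d5 : (g - w₀ + ρ * (u 0 - w₀) - 20 * e) * J < (rl u w₀ g ρ e J 0 : ℕ) + 1 := f3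
          push_cast
          rw [eVH']
          linarith only [hx, hth, he, hG0, geJ, f2', f5, K3, d5]
        exact_mod_cast this
      exact by
       have eH : H = rl u w₀ g ρ e J j - vl u w₀ v₀ v e J j := by omega
       have hFj := frg_of (j := j) (Vx := Vx) (Hx := Hx) (Rx := Rx) hM.frx hM.fre hj
         (vl_le_rl hZ J hj) (vl_anti hZ J (Nat.zero_le j) hj) (rl_anti hZ J (Nat.zero_le j) hj)
         (hV ▸ c8) (eH ▸ (by omega : H ≤ Hx)) (by omega)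
       rw [← eH, ← hV] at hFj
       have hwle : w ≤ J := hw2.trans hwJ
       have hFw := frg_up hw1 hwle hFj
       obtain ⟨φ, hφ⟩ := hM.frx.yp
       have hδ : (2 : ℝ) ^ (-(x * J)) ≤ 1 / 2 ^ ⌊x * J⌋₊ := by
         rw [Real.rpow_neg (by norm_num), ← one_div]
         refine div_le_div_of_nonneg_left (by norm_num) (by positivity) ?_
         rw [← Real.rpow_natCast]
         exact Real.rpow_le_rpow_of_exponent_le (by norm_num) f5
       refine (h6_frw (F := F) (A := B) (σ := τ) (w := w) (q := q) (V := V) (H := H) (X := X)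
         (k := ⌊x * J⌋₊) (D := 128) (Qt := J) le_rfl hM.inj (W := wl u J 0)
         (lam := vl u w₀ v₀ v e J 0) (P := wl u J 0 + rl u w₀ g ρ e J 0)
         (P2 := ⌊((σ 1).th (u (j - 1)) + e) * J⌋₊) (k₀ := 9) (v := wl u J (j - 1)) (C := 2)
         (κ := c' * J) (by norm_num) hl (Pool.FALL.frg_mono (by norm_num) hFw) hw2 hwJ (y := y)
         (fun ω hω => nex_of hM.fre hFw c8 c1 c9 c10 c11 hω) hM.frx.inc hφ
         (by norm_num) (by norm_num) (by omega) c2 c3 c4 c5 c6 c7 ?_ hδ).trans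
         (hexp.trans (min_le_left _ _))
       intro E hEB hPE hLE
       refine hn J hJ1 F A hS B hBA hPB' E hEB ?_ (Or.inr ⟨hGe1, τ 1, τ 2, ?_, ?_⟩)
       · rw [← add_assoc]
         exact hPE
       · rw [← hM.i0]
         exact sig_all hM.inj
       · rw [← hM.i0, e1]
         exact hLE

end Pool.S6N
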