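import Mathlib

/-!
# A good place of a grid

`j < N` are the columns (windows), `k < 2 N` the rows. The sums over the rows, over the columns and
over the diagonals (or antidiagonals) are bounded: at some place all the three are small.
-/

set_option autoImplicit false

namespace Pool.S6N

open Finset

theorem sum_shift_le {f : ℕ → ℝ} (hf : ∀ k, 0 ≤ f k) {N j : ℕ} (hj : j ≤ N) :
    ∑ d ∈ range N, f (j + d) ≤ ∑ k ∈ range (2 * N), f k := by
  have e1 : ∑ d ∈ range N, f (j + d) = ∑ k ∈ (range N).image (fun d => j + d), f k := by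
    rw [Finset.sum_image]
    intro x _ y _ h
    exact Nat.add_left_cancel h
  rw [e1]
  refine Finset.sum_le_sum_of_subset_of_nonneg ?_ fun k _ _ => hf k
  intro k hk
  obtain ⟨d, hd, rfl⟩ := Finset.mem_image.1 hk
  rw [Finset.mem_range] at hd ⊢
  omega

/-- **A good place of a grid**, diagonals `k - j = d`. -/
theorem grid_diag {f₁ f₂ f₃ : ℕ → ℕ → ℝ} (h₁ : ∀ j k, 0 ≤ f₁ j k) (h₂ : ∀ j k, 0 ≤ f₂ j k)
    {N : ℕ} (hN : 0 < N) {S₁ S₂ S₃ : ℝ}
    (hR : ∀ j < N, ∑ k ∈ range (2 * N), f₁ j k ≤ S₁)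
    (hC : ∀ k < 2 * N, ∑ j ∈ range N, f₂ j k ≤ S₂)
    (hD : ∀ d < N, ∑ j ∈ range N, f₃ j (j + d) ≤ S₃) :
    ∃ j < N, ∃ d < N, f₁ j (j + d) + f₂ j (j + d) + f₃ j (j + d) ≤ (S₁ + 2 * S₂ + S₃) / N := by
  have hN' : (0 : ℝ) < N := by exact_mod_cast hN
  by_contra hcon
  push Not at hcon
  have t1 : ∑ j ∈ range N, ∑ d ∈ range N, f₁ j (j + d) ≤ N * S₁ := by
    calc ∑ j ∈ range N, ∑ d ∈ range N, f₁ j (j + d) ≤ ∑ _j ∈ range N, S₁ :=
          Finset.sum_le_sum fun j hj =>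
            (sum_shift_le (h₁ j) (Finset.mem_range.1 hj).le).trans (hR j (Finset.mem_range.1 hj))
      _ = N * S₁ := by rw [Finset.sum_const, Finset.card_range, nsmul_eq_mul]
  have t2 : ∑ j ∈ range N, ∑ d ∈ range N, f₂ j (j + d) ≤ 2 * N * S₂ := by
    calc ∑ j ∈ range N, ∑ d ∈ range N, f₂ j (j + d) ≤
          ∑ j ∈ range N, ∑ k ∈ range (2 * N), f₂ j k :=
          Finset.sum_le_sum fun j hj => sum_shift_le (h₂ j) (Finset.mem_range.1 hj).le
      _ = ∑ k ∈ range (2 * N), ∑ j ∈ range N, f₂ j k := Finset.sum_comm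
      _ ≤ ∑ _k ∈ range (2 * N), S₂ :=
          Finset.sum_le_sum fun k hk => hC k (Finset.mem_range.1 hk)
      _ = 2 * N * S₂ := by
          rw [Finset.sum_const, Finset.card_range, nsmul_eq_mul]
          push_cast
          ring
  have t3 : ∑ j ∈ range N, ∑ d ∈ range N, f₃ j (j + d) ≤ N * S₃ := by
    calc ∑ j ∈ range N, ∑ d ∈ range N, f₃ j (j + d) =
          ∑ d ∈ range N, ∑ j ∈ range N, f₃ j (j + d) := Finset.sum_comm
      _ ≤ ∑ _d ∈ range N, S₃ := Finset.sum_le_sum fun d hd => hD d (Finset.mem_range.1 hd)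
      _ = N * S₃ := by rw [Finset.sum_const, Finset.card_range, nsmul_eq_mul]
  have t4 : ∑ _j ∈ range N, ∑ _d ∈ range N, (S₁ + 2 * S₂ + S₃) / N <
      ∑ j ∈ range N, ∑ d ∈ range N, (f₁ j (j + d) + f₂ j (j + d) + f₃ j (j + d)) := by
    refine Finset.sum_lt_sum_of_nonempty ⟨0, Finset.mem_range.2 hN⟩ fun j hj => ?_
    exact Finset.sum_lt_sum_of_nonempty ⟨0, Finset.mem_range.2 hN⟩ fun d hd =>
      hcon j (Finset.mem_range.1 hj) d (Finset.mem_range.1 hd)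
  have t5 : ∑ j ∈ range N, ∑ d ∈ range N, (f₁ j (j + d) + f₂ j (j + d) + f₃ j (j + d)) =
      ∑ j ∈ range N, ∑ d ∈ range N, f₁ j (j + d) + ∑ j ∈ range N, ∑ d ∈ range N, f₂ j (j + d) +
      ∑ j ∈ range N, ∑ d ∈ range N, f₃ j (j + d) := by
    simp only [Finset.sum_add_distrib]
  have t6 : ∑ _j ∈ range N, ∑ _d ∈ range N, (S₁ + 2 * S₂ + S₃) / N =
      N * (S₁ + 2 * S₂ + S₃) := by
    rw [Finset.sum_const, Finset.sum_const, Finset.card_range, nsmul_eq_mul, nsmul_eq_mul]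
    field_simp
  rw [t5, t6] at t4
  nlinarith

/-- **A good place of a grid**, antidiagonals `j + k = N - 1 + d`. -/
theorem grid_anti {f₁ f₂ f₃ : ℕ → ℕ → ℝ} (h₁ : ∀ j k, 0 ≤ f₁ j k) (h₂ : ∀ j k, 0 ≤ f₂ j k)
    {N : ℕ} (hN : 0 < N) {S₁ S₂ S₃ : ℝ}
    (hR : ∀ j < N, ∑ k ∈ range (2 * N), f₁ j k ≤ S₁)
    (hC : ∀ k < 2 * N, ∑ j ∈ range N, f₂ j k ≤ S₂)
    (hD : ∀ d < N, ∑ j ∈ range N, f₃ j (N - 1 - j + d) ≤ S₃) :
    ∃ j < N, ∃ d < N, f₁ j (N - 1 - j + d) + f₂ j (N - 1 - j + d) + f₃ j (N - 1 - j + d) ≤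
      (S₁ + 2 * S₂ + S₃) / N := by
  obtain ⟨j, hj, d, hd, h⟩ := grid_diag (f₁ := fun j k => f₁ (N - 1 - j) k)
    (f₂ := fun j k => f₂ (N - 1 - j) k) (f₃ := fun j k => f₃ (N - 1 - j) k)
    (S₁ := S₁) (S₂ := S₂) (S₃ := S₃) (N := N)
    (fun j k => h₁ _ k) (fun j k => h₂ _ k) hN (fun j _ => hR (N - 1 - j) (by omega))
    (fun k hk => by
      rw [Finset.sum_range_reflect (fun j => f₂ j k) N]
      exact hC k hk)
    (fun d hd => by
      have e : ∑ j ∈ range N, f₃ (N - 1 - j) (j + d) =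
          ∑ j ∈ range N, f₃ j (N - 1 - j + d) := by
        rw [← Finset.sum_range_reflect (fun j => f₃ j (N - 1 - j + d)) N]
        refine Finset.sum_congr rfl fun j hj => ?_
        have hj' := Finset.mem_range.1 hj
        have e2 : N - 1 - (N - 1 - j) = j := by omega
        rw [e2]
      rw [e]
      exact hD d hd)
  refine ⟨N - 1 - j, by omega, d, hd, ?_⟩
  have e2 : N - 1 - (N - 1 - j) = j := by omega
  rw [e2]
  exact h

end Pool.S6N
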