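import Pool.Agent.H90.S6R.H5R

/-!
# (H4) in the contexts of the N-step

`h4_cx`: the digits of the base velocity are free given the tangential position, the two normal
velocities, the context and the generalised time, if they are free given the exact point. The fans
at exact points are straight: the two normal velocities in the exact frame are functions of the
exact point up to the precision.
-/

set_option autoImplicit false

namespace Pool.S6N

open Finset Real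
open Pool.Agent.H49.Ent Pool.Agent.H32.Dense Pool.STK Pool.KA Pool.KA.Box Pool.KSAT Pool.K2S
open Pool.K2S.Ocs

section h4r

variable {J : ℕ} {F : Fam 3 J} {A : F.Ω → Prop} {σ : Fin 3 → Fin 3} {w q V H X : ℕ} {D : ℝ}
  {a s t a' s' t' : F.Ω → ℝ}

/-- The velocities in a direction, relative to the context. -/
theorem vrow_sub {ω ω' : F.Ω} (h : ctx F σ w q V H a s t ω = ctx F σ w q V H a s t ω')
    {n : Fin 3 → ℝ} {k : ℕ} {S : Fin 3 → ℝ} (hS : Cf (fr σ a s t ω) (cv q V H) n k S) :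
    ∑ j, S j * F.md (cv q V H) (fr σ a s t) ω j - ∑ j, S j * F.md (cv q V H) (fr σ a s t) ω' j =
      2 ^ k * (∑ j, n j * F.d ω j - ∑ j, n j * F.d ω' j) := by
  obtain ⟨-, h2, -, h4, -⟩ := mlb_ext (F := F) (g := w) (M := fr σ a s t) h
  have e1 := hS (F.d ω)
  have e2 := hS (F.d ω')
  have k1 : ∀ j, (2 : ℝ) ^ cv q V H j * mco (fr σ a s t ω) (F.d ω) j =
      F.mvl (cv q V H) (fr σ a s t) ω j + F.md (cv q V H) (fr σ a s t) ω j :=
    fun j => mvl_add F (cv q V H) (fr σ a s t) ω j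
  have k2 : ∀ j, (2 : ℝ) ^ cv q V H j * mco (fr σ a s t ω) (F.d ω') j =
      F.mvl (cv q V H) (fr σ a s t) ω j + F.md (cv q V H) (fr σ a s t) ω' j := by
    intro j
    have := mvl_add F (cv q V H) (fr σ a s t) ω' j
    rw [← h2, ← h4] at this
    exact this
  simp only [k1] at e1
  simp only [k2] at e2
  rw [mul_sub, e1, e2, ← Finset.sum_sub_distrib, ← Finset.sum_sub_distrib]
  exact Finset.sum_congr rfl fun j _ => by ring

/-- The rounded velocities are near the velocities. -/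
theorem om_near (i : Fin 3) (ω : F.Ω) : |om F σ q V H X a s t i ω -
    F.md (cv q V H) (fr σ a s t) ω i| ≤ 1 / 2 ^ X := floor_div_near _ X

/-- The rounded position is near the position. -/
theorem yt_near (i : Fin 3) (ω : F.Ω) : |yy F σ w q V H X a s t i ω +
    F.wt w ω * om F σ q V H X a s t i ω - F.mx w (cv q V H) (fr σ a s t) ω i| ≤ 2 / 2 ^ X := by
  have hwt := Lab.wt_mem F w ω
  have k1 := floor_div_near (F.mu w (fun i => cv q V H i + w) (fr σ a s t) ω i) X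
  have k2 := om_near (F := F) (σ := σ) (q := q) (V := V) (H := H) (X := X) (a := a) (s := s)
    (t := t) i ω
  have e1 : yy F σ w q V H X a s t i ω + F.wt w ω * om F σ q V H X a s t i ω -
      F.mx w (cv q V H) (fr σ a s t) ω i =
      (yy F σ w q V H X a s t i ω - F.mu w (fun i => cv q V H i + w) (fr σ a s t) ω i) +
        F.wt w ω * (om F σ q V H X a s t i ω - F.md (cv q V H) (fr σ a s t) ω i) := by
    unfold Fam.mx
    ring
  rw [e1]
  refine (abs_add_le _ _).trans ?_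
  rw [abs_mul, abs_of_nonneg hwt.1]
  have k3 : F.wt w ω * |om F σ q V H X a s t i ω - F.md (cv q V H) (fr σ a s t) ω i| ≤
      1 * (1 / 2 ^ X) := mul_le_mul hwt.2.le k2 (abs_nonneg _) zero_le_one
  have e2 : 2 / (2 : ℝ) ^ X = 1 / 2 ^ X + 1 * (1 / 2 ^ X) := by ring
  rw [e2]
  exact add_le_add k1 k3

/-- The position in the direction of a coordinate, at the exact point. -/
theorem mx_pt {B : ℝ} (hB : 1 ≤ B) (hw : w ≤ J) {ω ω' : F.Ω}
    (h : ctx F σ w q V H a s t ω = ctx F σ w q V H a s t ω') (hT : F.T ω = F.T ω')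
    (hX : F.X J ω = F.X J ω') (ha : |a ω| ≤ B) (j : Fin 2)
    (hj : cv q V H (Fin.castSucc j) + w + X ≤ J) :
    |F.mx w (cv q V H) (fr σ a s t) ω (Fin.castSucc j) -
      F.mx w (cv q V H) (fr σ a s t) ω' (Fin.castSucc j)| ≤ 2 * B / 2 ^ X := by
  have p1 := pos_eq F hw (cv q V H) (fr σ a s t) ω (Fin.castSucc j)
  have p2 := pos_eq F hw (cv q V H) (fr σ a s t) ω' (Fin.castSucc j)
  have hk := mkn_det (F := F) (c := cv q V H) (M := fr σ a s t) (w := w) h hT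
  have hM := ctx_fr h
  rw [← hk, ← hM] at p2
  have e1 : F.mx w (cv q V H) (fr σ a s t) ω (Fin.castSucc j) -
      F.mx w (cv q V H) (fr σ a s t) ω' (Fin.castSucc j) =
      2 ^ (cv q V H (Fin.castSucc j) + w) * (mco (fr σ a s t ω) (F.x ω) (Fin.castSucc j) -
        mco (fr σ a s t ω) (F.x ω') (Fin.castSucc j)) := by
    rw [mul_sub]
    linarith only [p1, p2]
  rw [e1, abs_mul, abs_of_pos (by positivity : (0 : ℝ) < 2 ^ (cv q V H (Fin.castSucc j) + w))]
  have kx : ∀ i, |F.x ω i - F.x ω' i| ≤ 1 / 2 ^ J := fun i =>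
    near_of_floor (congrFun hX i : ⌊2 ^ J * F.x ω i⌋ = ⌊2 ^ J * F.x ω' i⌋)
  have km : |mco (fr σ a s t ω) (F.x ω) (Fin.castSucc j) -
      mco (fr σ a s t ω) (F.x ω') (Fin.castSucc j)| ≤ 2 * B * (1 / 2 ^ J) := by
    have hJ : (0 : ℝ) ≤ 1 / 2 ^ J := by positivity
    fin_cases j
    · change |mco (tfr σ (a ω) (s ω) (t ω)) (F.x ω) 0 -
        mco (tfr σ (a ω) (s ω) (t ω)) (F.x ω') 0| ≤ _
      rw [mco_tfr0, mco_tfr0]
      refine (kx (σ 0)).trans ?_
      nlinarith only [hJ, hB]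
    · change |mco (tfr σ (a ω) (s ω) (t ω)) (F.x ω) 1 -
        mco (tfr σ (a ω) (s ω) (t ω)) (F.x ω') 1| ≤ _
      rw [mco_tfr1, mco_tfr1]
      have e : F.x ω (σ 1) - a ω * F.x ω (σ 0) - (F.x ω' (σ 1) - a ω * F.x ω' (σ 0)) =
        (F.x ω (σ 1) - F.x ω' (σ 1)) - a ω * (F.x ω (σ 0) - F.x ω' (σ 0)) := by ring
      rw [e]
      refine (abs_sub _ _).trans ?_
      rw [abs_mul]
      have g1 := kx (σ 1)
      have g2 : |a ω| * |F.x ω (σ 0) - F.x ω' (σ 0)| ≤ B * (1 / 2 ^ J) :=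
        mul_le_mul ha (kx (σ 0)) (abs_nonneg _) (by linarith only [hB])
      nlinarith only [g1, g2, hB, hJ]
  refine (mul_le_mul_of_nonneg_left km (by positivity)).trans ?_
  have e2 : (2 : ℝ) ^ (cv q V H (Fin.castSucc j) + w) * (2 * B * (1 / 2 ^ J)) =
      2 * B * 2 ^ (cv q V H (Fin.castSucc j) + w) / 2 ^ J := by ring
  rw [e2]
  have e3 : 2 * B / (2 : ℝ) ^ X = 2 * B * 2 ^ 0 / 2 ^ X := by ring
  rw [e3]
  exact pow_le_div (by linarith only [hB]) (by omega)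

/-- The constant of `h4_cx`. -/
noncomputable def c4 (B D : ℝ) : ℝ :=
  3 * Real.log (2 * D + 1) +
  2 * ((3 : ℕ) * Real.log (2 * ((3 : ℕ) * (D + D * D) *
    (2 * ((3 : ℕ) * (3 * B) + (3 * B)))) + 3)) +
  4 * Real.log (2 * (5 + 4 * (B + D)) + 1)

/-- **(H4)**: the digits of the base velocity given the data of the context. -/
theorem h4_cx (hσ : Function.Injective σ) (hF : Frg F A w V H D a s t a' s' t') (hw : w ≤ J)
    (hD : 1 ≤ D) (hQ : IsLaw (Pool.Agent.H49.Ent.cond F.p A True)) {B : ℝ} (hB : 1 ≤ B)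
    (hb : ∀ ω, A ω → |a' ω| ≤ B ∧ |s' ω| ≤ B ∧ |t' ω| ≤ B) (hP : q + (V + H) + w + X ≤ J)
    (hfr : ∀ ω ω', A ω → A ω' → Fam.pt F ω = Fam.pt F ω' →
      a' ω = a' ω' ∧ s' ω = s' ω' ∧ t' ω = t' ω')
    (hu : ∀ ω ω', A ω → A ω' → Fam.pt F ω = Fam.pt F ω' →
      |(F.d ω (σ 1) - a' ω * F.d ω (σ 0)) - (F.d ω' (σ 1) - a' ω * F.d ω' (σ 0))| ≤
        B / 2 ^ (q + V + X))
    (hN : ∀ ω ω', A ω → A ω' → Fam.pt F ω = Fam.pt F ω' →
      |(F.d ω (σ 2) - s' ω * F.d ω (σ 1) - t' ω * F.d ω (σ 0)) -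
        (F.d ω' (σ 2) - s' ω * F.d ω' (σ 1) - t' ω * F.d ω' (σ 0))| ≤
        B / 2 ^ (q + (V + H) + X)) :
    CH (Pool.Agent.H49.Ent.cond F.p A True) (fun ω => ⌊(2 : ℝ) ^ (q + X) * F.d ω (σ 0)⌋)
      (fun ω => (⌊(2 : ℝ) ^ q * F.d ω (σ 0)⌋, Fam.pt F ω)) ≤
    CH (Pool.Agent.H49.Ent.cond F.p A True)
      (Uni.dg X (om F σ q V H X a s t 0))
      (fun ω => ((dg2 X (yt (fun j => yy F σ w q V H X a s t (Fin.castSucc j))
          (fun j => om F σ q V H X a s t (Fin.castSucc j)) (F.wt w)) ω,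
        (Uni.dg X (cc (fun j => om F σ q V H X a s t (Fin.castSucc j))
          (om F σ q V H X a s t 2) (SS V H a s t s' t')) ω,
        Uni.dg X (kk (fun j => om F σ q V H X a s t (Fin.castSucc j)) (EE V a a')) ω)),
        (ctx F σ w q V H a s t ω, gt F a' s' t' ω))) + c4 B D := by
  obtain ⟨p, hp'⟩ : ∃ p, p = Pool.Agent.H49.Ent.cond F.p A True := ⟨_, rfl⟩
  rw [← hp'] at hQ ⊢
  have hA : ∀ ω, 0 < p ω → A ω := fun ω hω => by
    rw [hp'] at hω
    exact of_eq_true ((cond_pos_iff F.isLaw.nonneg A True ω).1 hω).2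
  have h0 := hQ.nonneg
  obtain ⟨W, hW⟩ : ∃ f : F.Ω → ℤ × ((Fin 3 → ℤ) × (ℕ × F.ζ)),
    f = fun ω => (⌊(2 : ℝ) ^ q * F.d ω (σ 0)⌋, Fam.pt F ω) := ⟨_, rfl⟩
  have hW' : ∀ ω ω', W ω = W ω' → ⌊(2 : ℝ) ^ q * F.d ω (σ 0)⌋ = ⌊(2 : ℝ) ^ q * F.d ω' (σ 0)⌋ ∧
      Fam.pt F ω = Fam.pt F ω' := by
    intro ω ω' h
    rw [hW] at h
    exact Prod.ext_iff.mp h
  have hpt : ∀ ω ω', Fam.pt F ω = Fam.pt F ω' → F.X J ω = F.X J ω' ∧ F.W ω = F.W ω' ∧
      F.T ω = F.T ω' := by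
    intro ω ω' h
    have h1 := Prod.ext_iff.mp h
    exact ⟨h1.1, h1.2, (Prod.ext_iff.mp h1.2).1⟩
  -- the variables
  obtain ⟨O, hO⟩ : ∃ f, f = om F σ q V H X a s t := ⟨_, rfl⟩
  obtain ⟨Y, hY⟩ : ∃ f, f = yy F σ w q V H X a s t := ⟨_, rfl⟩
  obtain ⟨f1, hf1⟩ : ∃ f, f = yt (fun j => Y (Fin.castSucc j)) (fun j => O (Fin.castSucc j))
    (F.wt w) := ⟨_, rfl⟩
  obtain ⟨f2, hf2⟩ : ∃ f, f = cc (fun j => O (Fin.castSucc j)) (O 2) (SS V H a s t s' t') :=
    ⟨_, rfl⟩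
  obtain ⟨f3, hf3⟩ : ∃ f, f = kk (fun j => O (Fin.castSucc j)) (EE V a a') := ⟨_, rfl⟩
  obtain ⟨C, hC⟩ : ∃ f, f = ctx F σ w q V H a s t := ⟨_, rfl⟩
  obtain ⟨G, hG⟩ : ∃ f, f = gt F a' s' t' := ⟨_, rfl⟩
  rw [← hO, ← hY, ← hf1, ← hf2, ← hf3, ← hC, ← hG, ← hW]
  -- frames
  have s1 : CH p (fun ω => (t ω, (s ω, a ω))) W ≤ 3 * Real.log (2 * D + 1) := by
    have k1 := CH_fr (F := F) (A := A) (b := W) hF (by linarith only [hD] : (0 : ℝ) ≤ D)
      (hp' ▸ hQ)
    rw [← hp'] at k1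
    refine (CH_mono_cond h0 ?_).trans k1
    intro ω ω' hω hω' h
    obtain ⟨-, h2⟩ := hW' ω ω' h
    obtain ⟨g1, g2, g3⟩ := hfr ω ω' (hA ω hω) (hA ω' hω') h2
    refine Prod.ext h ?_
    change (F.T ω, (a' ω, s' ω, t' ω)) = (F.T ω', (a' ω', s' ω', t' ω'))
    rw [g1, g2, g3, (hpt ω ω' h2).2.2]
  -- the context
  have s2 : CH p C (fun ω => ((t ω, (s ω, a ω)), W ω)) ≤
      2 * ((3 : ℕ) * Real.log (2 * ((3 : ℕ) * (D + D * D) *
        (2 * ((3 : ℕ) * (3 * B) + (3 * B)))) + 3)) := by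
    have key := CH_ctx_of_pt (F := F) (σ := σ) (w := w) (r := q + w) (U := q + V + w)
      (P := q + (V + H) + w) (a := a) (s := s) (t := t) (α := a') (s₀ := s') (t₀ := t')
      (B := B) (D := D + D * D) hQ hw (by omega) (by omega) (by omega) (by omega) (by omega)
      (by omega) hB (by nlinarith only [hD]) (fun ω hω => hb ω (hA ω hω))
      (fun ω hω => (fnr_frg hF (hA ω hω)).symm (by linarith))
      (fun ω => ((t ω, (s ω, a ω)), W ω)) (by
        intro ω ω' hω hω' h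
        have h1 := Prod.ext_iff.mp h
        have h2 := Prod.ext_iff.mp h1.1
        have h3 := Prod.ext_iff.mp h2.2
        obtain ⟨h4, h5⟩ := hW' ω ω' h1.2
        obtain ⟨x1, x2, x3⟩ := hpt ω ω' h5
        refine ⟨x1, x2, hfr ω ω' (hA ω hω) (hA ω' hω') h5, ⟨h3.2, h3.1, h2.1⟩, ?_, ?_, ?_⟩
        · rw [Nat.add_sub_cancel]
          refine (near_of_floor h4).trans ?_
          exact div_le_div_of_nonneg_right hB (by positivity)
        · rw [Nat.add_sub_cancel]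
          refine (hu ω ω' (hA ω hω) (hA ω' hω') h5).trans ?_
          exact div_pow_mono (by linarith only [hB]) (by omega)
        · rw [Nat.add_sub_cancel]
          refine (hN ω ω' (hA ω hω) (hA ω' hω') h5).trans ?_
          exact div_pow_mono (by linarith only [hB]) (by omega))
    rw [ctx_cv, ← hC] at key
    exact key
  -- bounds of the coefficients
  have haB : ∀ ω, 0 < p ω → |a ω| ≤ B + D := by
    intro ω hω
    have h1 := hF.ca ω (hA ω hω)
    have h2 : D / (2 : ℝ) ^ V ≤ D :=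
      div_le_self (by linarith only [hD]) (one_le_pow₀ (by norm_num))
    have e : a ω = a' ω - (a' ω - a ω) := by ring
    rw [e]
    refine (abs_sub _ _).trans ?_
    have h3 := (hb ω (hA ω hω)).1
    linarith only [h1, h2, h3]
  have hBD : (1 : ℝ) ≤ B + D := by linarith
  -- two samples with the same context and time
  have s3 : ∀ ω ω', 0 < p ω → 0 < p ω' → C ω = C ω' → G ω = G ω' → W ω = W ω' →
      (∀ j, |f1 j ω - f1 j ω'| ≤ (4 + 2 * (B + D)) / 2 ^ X) ∧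
      |f2 ω - f2 ω'| ≤ (4 + 4 * (B + D)) / 2 ^ X ∧
      |f3 ω - f3 ω'| ≤ (4 + 4 * (B + D)) / 2 ^ X := by
    intro ω ω' hω hω' hc hg hh
    rw [hC] at hc
    rw [hG] at hg
    obtain ⟨h4, h5⟩ := hW' ω ω' hh
    obtain ⟨x1, x2, x3⟩ := hpt ω ω' h5
    obtain ⟨g1, g2, g3, g4⟩ := gt_ext hg
    have hX0 : (0 : ℝ) < 2 ^ X := by positivity
    have hom : ∀ i (o : F.Ω), |O i o - F.md (cv q V H) (fr σ a s t) o i| ≤ 1 / 2 ^ X := by
      intro i o
      rw [hO]
      exact om_near i o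
    refine ⟨?_, ?_, ?_⟩
    · intro j
      have k1 := yt_near (F := F) (σ := σ) (w := w) (q := q) (V := V) (H := H) (X := X) (a := a)
        (s := s) (t := t) (Fin.castSucc j) ω
      have k2 := yt_near (F := F) (σ := σ) (w := w) (q := q) (V := V) (H := H) (X := X) (a := a)
        (s := s) (t := t) (Fin.castSucc j) ω'
      have k3 := mx_pt (F := F) (X := X) hBD hw hc x3 x1 (haB ω hω) j (by
        fin_cases j
        · change q + w + X ≤ J
          omega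
        · change q + V + w + X ≤ J
          omega)
      rw [hf1, hY, hO]
      change |yy F σ w q V H X a s t (Fin.castSucc j) ω +
        F.wt w ω * om F σ q V H X a s t (Fin.castSucc j) ω -
        (yy F σ w q V H X a s t (Fin.castSucc j) ω' +
        F.wt w ω' * om F σ q V H X a s t (Fin.castSucc j) ω')| ≤ _
      have e : (4 + 2 * (B + D)) / (2 : ℝ) ^ X = 2 / 2 ^ X + 2 / 2 ^ X + 2 * (B + D) / 2 ^ X := by
        ring
      rw [e]
      rw [abs_le] at k1 k2 k3 ⊢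
      constructor <;> linarith only [k1, k2, k3, k1.1, k1.2, k2.1, k2.2, k3.1, k3.2]
    · -- the normal velocity
      have hcf := cf_tfr σ (cv q V H) (q + (V + H)) (a ω) (s ω) (t ω) (a' ω) (s' ω) (t' ω)
      have hv := vrow_sub (F := F) hc hcf
      have hS : ∀ o, tsl (cv q V H) (q + (V + H)) (s' o - s o) ((t' o - t o) +
          (s' o - s o) * a o) = ![-SS V H a s t s' t' 0 o, -SS V H a s t s' t' 1 o, 1] := by
        intro o
        have e0 : (2 : ℝ) ^ (q + (V + H)) = 2 ^ q * 2 ^ (V + H) := by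
          rw [← pow_add]
        have e1 : (2 : ℝ) ^ (q + (V + H)) = 2 ^ (q + V) * 2 ^ H := by
          rw [← pow_add]
          congr 1
          omega
        have n0 : (2 : ℝ) ^ q ≠ 0 := by positivity
        have n1 : (2 : ℝ) ^ (q + V) ≠ 0 := by positivity
        funext j
        fin_cases j
        · change 2 ^ (q + (V + H)) / 2 ^ q * -((t' o - t o) + (s' o - s o) * a o) =
            -(2 ^ (V + H) * ((t' o - t o) + (s' o - s o) * a o))
          rw [e0]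
          field_simp
        · change 2 ^ (q + (V + H)) / 2 ^ (q + V) * -(s' o - s o) = -(2 ^ H * (s' o - s o))
          rw [e1]
          field_simp
        · change (2 : ℝ) ^ (q + (V + H)) / 2 ^ (q + (V + H)) = 1
          rw [div_self (by positivity)]
      rw [hS, Fin.sum_univ_three, Fin.sum_univ_three] at hv
      simp only [Matrix.cons_val_zero, Matrix.cons_val_one, Matrix.cons_val_two,
        Matrix.tail_cons, Matrix.head_cons] at hv
      have hSS0 := SS_det (F := F) (s' := s') (t' := t') hσ 0 hc hg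
      have hSS1 := SS_det (F := F) (s' := s') (t' := t') hσ 1 hc hg
      have hSD : ∀ j, |SS V H a s t s' t' j ω| ≤ D := fun j => SS_le hF j (hA ω hω)
      -- the difference of the exact normal velocities
      have hn : |2 ^ (q + (V + H)) * (∑ j, tfr σ (a' ω) (s' ω) (t' ω) 2 j * F.d ω j -
          ∑ j, tfr σ (a' ω) (s' ω) (t' ω) 2 j * F.d ω' j)| ≤ B / 2 ^ X := by
        have e1 : ∀ o : F.Ω, ∑ j, tfr σ (a' ω) (s' ω) (t' ω) 2 j * F.d o j =
            F.d o (σ 2) - s' ω * F.d o (σ 1) - t' ω * F.d o (σ 0) := fun o =>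
          mco_tfr2 σ (a' ω) (s' ω) (t' ω) (F.d o)
        rw [e1, e1, abs_mul, abs_of_pos (by positivity : (0 : ℝ) < 2 ^ (q + (V + H)))]
        refine (mul_le_mul_of_nonneg_left (hN ω ω' (hA ω hω) (hA ω' hω') h5)
          (by positivity)).trans (le_of_eq ?_)
        rw [pow_add 2 (q + (V + H)) X]
        field_simp
      rw [← hv] at hn
      rw [hf2]
      change |(O 2 ω - ∑ j : Fin 2, SS V H a s t s' t' j ω * O (Fin.castSucc j) ω) -
        (O 2 ω' - ∑ j : Fin 2, SS V H a s t s' t' j ω' * O (Fin.castSucc j) ω')| ≤ _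
      rw [Fin.sum_univ_two, Fin.sum_univ_two, ← hSS0, ← hSS1]
      change |(O 2 ω - (SS V H a s t s' t' 0 ω * O 0 ω + SS V H a s t s' t' 1 ω * O 1 ω)) -
        (O 2 ω' - (SS V H a s t s' t' 0 ω * O 0 ω' + SS V H a s t s' t' 1 ω * O 1 ω'))| ≤ _
      obtain ⟨m, hm⟩ : ∃ m, m = F.md (cv q V H) (fr σ a s t) := ⟨_, rfl⟩
      rw [← hm] at hn hom
      have dd : ∀ (c x y x' y' : ℝ), |c| ≤ D → |x - x'| ≤ 1 / 2 ^ X → |y - y'| ≤ 1 / 2 ^ X →
          |c * (x - y) - c * (x' - y')| ≤ 2 * D / 2 ^ X := by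
        intro c x y x' y' h1 h2 h3
        have e : c * (x - y) - c * (x' - y') = c * ((x - x') - (y - y')) := by ring
        rw [e, abs_mul]
        have h4 : |(x - x') - (y - y')| ≤ 2 / 2 ^ X := by
          refine (abs_sub _ _).trans ?_
          have e2 : 2 / (2 : ℝ) ^ X = 1 / 2 ^ X + 1 / 2 ^ X := by ring
          rw [e2]
          exact add_le_add h2 h3
        calc |c| * |(x - x') - (y - y')| ≤ D * (2 / 2 ^ X) :=
              mul_le_mul h1 h4 (abs_nonneg _) (by linarith only [hD])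
          _ = 2 * D / 2 ^ X := by ring
      have d0 := dd (SS V H a s t s' t' 0 ω) (O 0 ω) (O 0 ω') (m ω 0) (m ω' 0) (hSD 0)
        (hom 0 ω) (hom 0 ω')
      have d1 := dd (SS V H a s t s' t' 1 ω) (O 1 ω) (O 1 ω') (m ω 1) (m ω' 1) (hSD 1)
        (hom 1 ω) (hom 1 ω')
      have d2 := hom 2 ω
      have d3 := hom 2 ω'
      have e : (4 + 4 * (B + D)) / (2 : ℝ) ^ X = B / 2 ^ X + 2 * D / 2 ^ X + 2 * D / 2 ^ X +
          1 / 2 ^ X + 1 / 2 ^ X + (2 + 3 * B) / 2 ^ X := by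
        ring
      have e9 : (0 : ℝ) ≤ (2 + 3 * B) / 2 ^ X := by positivity
      rw [e]
      rw [abs_le] at hn d0 d1 d2 d3 ⊢
      constructor <;> linarith only [hn, d0, d1, d2, d3, e9, hn.1, hn.2, d0.1, d0.2, d1.1, d1.2, d2.1, d2.2, d3.1, d3.2]
    · -- the transversal velocity
      have hcf := cf_tfr1 σ (cv q V H) (q + V) (a ω) (s ω) (t ω) (a' ω) (s' ω) (t' ω)
      have hv := vrow_sub (F := F) hc hcf
      have hS : ∀ o, tsu (cv q V H) (q + V) (a' o - a o) = ![-EE V a a' o, 1, 0] := by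
        intro o
        have e0 : (2 : ℝ) ^ (q + V) = 2 ^ q * 2 ^ V := by
          rw [← pow_add]
        have n0 : (2 : ℝ) ^ q ≠ 0 := by positivity
        funext j
        fin_cases j
        · change 2 ^ (q + V) / 2 ^ q * -(a' o - a o) = -(2 ^ V * (a' o - a o))
          rw [e0]
          field_simp
        · change (2 : ℝ) ^ (q + V) / 2 ^ (q + V) = 1
          rw [div_self (by positivity)]
        · rfl
      rw [hS, Fin.sum_univ_three, Fin.sum_univ_three] at hv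
      simp only [Matrix.cons_val_zero, Matrix.cons_val_one, Matrix.cons_val_two,
        Matrix.tail_cons, Matrix.head_cons] at hv
      have hEE := EE_det (F := F) (a' := a') (s' := s') (t' := t') hσ hc hg
      have hED : |EE V a a' ω| ≤ D := EE_le hF (hA ω hω)
      have hn : |2 ^ (q + V) * (∑ j, tfr σ (a' ω) (s' ω) (t' ω) 1 j * F.d ω j -
          ∑ j, tfr σ (a' ω) (s' ω) (t' ω) 1 j * F.d ω' j)| ≤ B / 2 ^ X := by
        have e1 : ∀ o : F.Ω, ∑ j, tfr σ (a' ω) (s' ω) (t' ω) 1 j * F.d o j =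
            F.d o (σ 1) - a' ω * F.d o (σ 0) := fun o =>
          mco_tfr1 σ (a' ω) (s' ω) (t' ω) (F.d o)
        rw [e1, e1, abs_mul, abs_of_pos (by positivity : (0 : ℝ) < 2 ^ (q + V))]
        refine (mul_le_mul_of_nonneg_left (hu ω ω' (hA ω hω) (hA ω' hω') h5)
          (by positivity)).trans (le_of_eq ?_)
        rw [pow_add 2 (q + V) X]
        field_simp
      rw [← hv] at hn
      rw [hf3]
      change |(O 1 ω - EE V a a' ω * O 0 ω) - (O 1 ω' - EE V a a' ω' * O 0 ω')| ≤ _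
      rw [← hEE]
      obtain ⟨m, hm⟩ : ∃ m, m = F.md (cv q V H) (fr σ a s t) := ⟨_, rfl⟩
      rw [← hm] at hn hom
      have d0 : |EE V a a' ω * (O 0 ω - O 0 ω') - EE V a a' ω * (m ω 0 - m ω' 0)| ≤
          2 * D / 2 ^ X := by
        have e : EE V a a' ω * (O 0 ω - O 0 ω') - EE V a a' ω * (m ω 0 - m ω' 0) =
          EE V a a' ω * ((O 0 ω - m ω 0) - (O 0 ω' - m ω' 0)) := by ring
        rw [e, abs_mul]
        have h4 : |(O 0 ω - m ω 0) - (O 0 ω' - m ω' 0)| ≤ 2 / 2 ^ X := by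
          refine (abs_sub _ _).trans ?_
          have e2 : 2 / (2 : ℝ) ^ X = 1 / 2 ^ X + 1 / 2 ^ X := by ring
          rw [e2]
          exact add_le_add (hom 0 ω) (hom 0 ω')
        calc |EE V a a' ω| * |(O 0 ω - m ω 0) - (O 0 ω' - m ω' 0)| ≤ D * (2 / 2 ^ X) :=
              mul_le_mul hED h4 (abs_nonneg _) (by linarith only [hD])
          _ = 2 * D / 2 ^ X := by ring
      have d2 := hom 1 ω
      have d3 := hom 1 ω'
      have e : (4 + 4 * (B + D)) / (2 : ℝ) ^ X = B / 2 ^ X + 2 * D / 2 ^ X +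
          1 / 2 ^ X + 1 / 2 ^ X + (2 + 3 * B + 2 * D) / 2 ^ X := by
        ring
      have e9 : (0 : ℝ) ≤ (2 + 3 * B + 2 * D) / 2 ^ X := by positivity
      rw [e]
      rw [abs_le] at hn d0 d2 d3 ⊢
      constructor <;> linarith only [hn, d0, d2, d3, e9, hn.1, hn.2, d0.1, d0.2, d2.1, d2.2, d3.1, d3.2]
  -- the digits are known
  obtain ⟨R, hR⟩ : ∃ f : F.Ω → (ℤ × ℤ) × (ℤ × ℤ), f = fun ω => (dg2 X f1 ω,
    (Uni.dg X f2 ω, Uni.dg X f3 ω)) := ⟨_, rfl⟩
  have fl : ∀ {x y : ℝ}, |x - y| ≤ (4 + 4 * (B + D)) / 2 ^ X →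
      |((⌊(2 : ℝ) ^ X * x⌋ - ⌊(2 : ℝ) ^ X * y⌋ : ℤ) : ℝ)| ≤ 5 + 4 * (B + D) := by
    intro x y h
    have := floor_near h
    linarith only [this]
  obtain ⟨Wc, hWc⟩ : ∃ f, f = fun ω => ((C ω, G ω), W ω) := ⟨_, rfl⟩
  have s4 : CH p R Wc ≤ 4 * Real.log (2 * (5 + 4 * (B + D)) + 1) := by
    have hs3 : ∀ ω ω', 0 < p ω → 0 < p ω' → Wc ω = Wc ω' →
        (∀ j, |f1 j ω - f1 j ω'| ≤ (4 + 4 * (B + D)) / 2 ^ X) ∧
        |f2 ω - f2 ω'| ≤ (4 + 4 * (B + D)) / 2 ^ X ∧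
        |f3 ω - f3 ω'| ≤ (4 + 4 * (B + D)) / 2 ^ X := by
      intro ω ω' hω hω' h
      rw [hWc] at h
      have h1 := Prod.ext_iff.mp h
      have h2 := Prod.ext_iff.mp h1.1
      obtain ⟨g1, g2, g3⟩ := s3 ω ω' hω hω' h2.1 h2.2 h1.2
      refine ⟨fun j => (g1 j).trans ?_, g2, g3⟩
      exact div_le_div_of_nonneg_right (by linarith only [hD, hB]) (by positivity)
    have t1 := Lab.CH_int_const hQ (Uni.dg X (f1 0)) Wc
      (fun ω ω' hω hω' h => fl ((hs3 ω ω' hω hω' h).1 0))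
    have t2 := Lab.CH_int_const hQ (Uni.dg X (f1 1)) Wc
      (fun ω ω' hω hω' h => fl ((hs3 ω ω' hω hω' h).1 1))
    have t3 := Lab.CH_int_const hQ (Uni.dg X f2) Wc
      (fun ω ω' hω hω' h => fl (hs3 ω ω' hω hω' h).2.1)
    have t4 := Lab.CH_int_const hQ (Uni.dg X f3) Wc
      (fun ω ω' hω hω' h => fl (hs3 ω ω' hω hω' h).2.2)
    have u1 := CH_subadd h0 (dg2 X f1) (fun ω => (Uni.dg X f2 ω, Uni.dg X f3 ω)) Wc
    have u2 : CH p (dg2 X f1) Wc ≤ CH p (Uni.dg X (f1 0)) Wc + CH p (Uni.dg X (f1 1)) Wc :=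
      CH_subadd h0 (Uni.dg X (f1 0)) (Uni.dg X (f1 1)) Wc
    have u3 := CH_subadd h0 (Uni.dg X f2) (Uni.dg X f3) Wc
    rw [hR]
    linarith only [t1, t2, t3, t4, u1, u2, u3]
  have s5 : CH p (fun ω => (C ω, G ω)) W ≤ 3 * Real.log (2 * D + 1) +
      2 * ((3 : ℕ) * Real.log (2 * ((3 : ℕ) * (D + D * D) *
        (2 * ((3 : ℕ) * (3 * B) + (3 * B)))) + 3)) := by
    have v1 : CH p (fun ω => (C ω, G ω)) W ≤ CH p C W := by
      refine CH_mono_left h0 ?_
      intro ω ω' hω hω' h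
      have h1 := Prod.ext_iff.mp h
      obtain ⟨-, h2⟩ := hW' ω ω' h1.2
      obtain ⟨g1, g2, g3⟩ := hfr ω ω' (hA ω hω) (hA ω' hω') h2
      refine Prod.ext h1.1 ?_
      rw [hG]
      change (F.T ω, (a' ω, s' ω, t' ω)) = (F.T ω', (a' ω', s' ω', t' ω'))
      rw [g1, g2, g3, (hpt ω ω' h2).2.2]
    have v2 := CH_le_add h0 C (fun ω => (t ω, (s ω, a ω))) W
    linarith only [s1, s2, v1, v2]
  -- conclusion
  obtain ⟨Cn, hCn⟩ : ∃ f, f = fun ω => (R ω, (C ω, G ω)) := ⟨_, rfl⟩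
  have hCnR : (fun ω => ((dg2 X f1 ω, (Uni.dg X f2 ω, Uni.dg X f3 ω)), (C ω, G ω))) = Cn := by
    rw [hCn, hR]
  rw [hCnR]
  have s6 : CH p Cn W ≤ c4 B D := by
    have v1 : CH p Cn W = CH p (fun ω => (C ω, G ω)) W + CH p R Wc := by
      rw [hCn, CH_chain h0 R (fun ω => (C ω, G ω)) W, hWc]
    unfold c4
    linarith only [s4, s5, v1]
  have s7 : CH p (fun ω => ⌊(2 : ℝ) ^ (q + X) * F.d ω (σ 0)⌋) W ≤
      CH p (Uni.dg X (O 0)) W := by
    refine CH_mono_left h0 ?_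
    intro ω ω' hω hω' h
    have h1 := Prod.ext_iff.mp h
    obtain ⟨h2, -⟩ := hW' ω ω' h1.2
    have e1 : ∀ o, Uni.dg X (O 0) o = ⌊(2 : ℝ) ^ X * Int.fract ((2 : ℝ) ^ q * F.d o (σ 0))⌋ := by
      intro o
      rw [hO]
      rw [show Uni.dg X (om F σ q V H X a s t 0) o = (blk F σ w q V H X a s t o).2 0 from
        dg_om 0 o]
      change ⌊(2 : ℝ) ^ X * Int.fract ((2 : ℝ) ^ q *
        mco (tfr σ (a o) (s o) (t o)) (F.d o) 0)⌋ = _
      rw [mco_tfr0]
    have h3 : Uni.dg X (O 0) ω = Uni.dg X (O 0) ω' := h1.1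
    rw [e1, e1] at h3
    exact fract_lift h2 h3
  have s8 := CH_le_add h0 (Uni.dg X (O 0)) Cn W
  have s9 : CH p (Uni.dg X (O 0)) (fun ω => (Cn ω, W ω)) ≤ CH p (Uni.dg X (O 0)) Cn :=
    CH_mono_cond h0 fun ω ω' _ _ h => (Prod.ext_iff.mp h).1
  linarith only [s6, s7, s8, s9]

end h4r

end Pool.S6N
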