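import Pool.Agent.H90.S6R.Ocs
import Pool.Agent.H97.S6.H2R

/-!
# (H5) for rounded rows, and in the contexts of the N-step

Rounded rows: two real variables which differ by less than `E` units of the digit `X` have the same
conditional entropies of blocks of digits above `X`, up to constants. `h5_cx`: (H5) for the row `nn`
given the context `ctx` and the generalised time `gt`, on events, from the static boxes.
-/

set_option autoImplicit false

namespace Pool.K2S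

open Finset Real
open Pool.Agent.H49.Ent Pool.Agent.H32.Dense Pool.STK Pool.KA Pool.KA.Box

section near

variable {Ω S : Type} [Fintype Ω] {p : Ω → ℝ}

omit [Fintype Ω] in
theorem dg_of_near {f g : Ω → ℝ} {E : ℝ} {k X : ℕ} (hE : 0 ≤ E) (hk : k ≤ X) {ω ω' : Ω}
    (h : |f ω - g ω| ≤ E / 2 ^ X) (h' : |f ω' - g ω'| ≤ E / 2 ^ X)
    (he : Uni.dg k g ω = Uni.dg k g ω') :
    |((Uni.dg k f ω - Uni.dg k f ω' : ℤ) : ℝ)| ≤ 2 + 2 * E := by
  have h1 := near_of_dg he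
  have h2 : E / (2 : ℝ) ^ X ≤ E / 2 ^ k := div_pow_mono hE hk
  have h3 : |f ω - f ω'| ≤ (1 + 2 * E) / 2 ^ k := by
    have e : f ω - f ω' = (f ω - g ω) + (g ω - g ω') - (f ω' - g ω') := by ring
    rw [e]
    refine (abs_sub _ _).trans ?_
    have h4 := abs_add_le (f ω - g ω) (g ω - g ω')
    have e2 : (1 + 2 * E) / (2 : ℝ) ^ k = 1 / 2 ^ k + E / 2 ^ k + E / 2 ^ k := by ring
    rw [e2]
    linarith
  have h4 := floor_near h3
  change |((⌊(2 : ℝ) ^ k * f ω⌋ - ⌊(2 : ℝ) ^ k * f ω'⌋ : ℤ) : ℝ)| ≤ 2 + 2 * E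
  linarith

/-- The digits of a variable from the digits of a near variable. -/
theorem CH_dg_near (hp : IsLaw p) {f g : Ω → ℝ} {E : ℝ} {k X : ℕ} (hE : 0 ≤ E) (hk : k ≤ X)
    (h : ∀ ω, 0 < p ω → |f ω - g ω| ≤ E / 2 ^ X) (W : Ω → S)
    (hW : ∀ ω ω', 0 < p ω → 0 < p ω' → W ω = W ω' → Uni.dg k g ω = Uni.dg k g ω') :
    CH p (Uni.dg k f) W ≤ Real.log (5 + 4 * E) := by
  have h1 := Plk.CH_vec_const (m := 1) hp (fun ω _ => Uni.dg k f ω) W (c := 2 + 2 * E)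
    (fun ω ω' hω hω' e _ => dg_of_near hE hk (h ω hω) (h ω' hω') (hW ω ω' hω hω' e))
  have h2 : CH p (Uni.dg k f) W ≤ CH p (fun ω (_ : Fin 1) => Uni.dg k f ω) W :=
    CH_mono_left hp.nonneg fun ω ω' _ _ h => congrFun (Prod.ext_iff.mp h).1 0
  have h3 : ((1 : ℕ) : ℝ) * Real.log (2 * (2 + 2 * E) + 1) = Real.log (5 + 4 * E) := by
    rw [Nat.cast_one, one_mul]
    congr 1
    ring
  linarith

/-- **Blocks of digits of near variables.** -/
theorem CH_blk_near (hp : IsLaw p) {f g : Ω → ℝ} {E : ℝ} {k k' X : ℕ} (hE : 0 ≤ E)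
    (hk : k ≤ X) (hk' : k' ≤ X) (h : ∀ ω, 0 < p ω → |f ω - g ω| ≤ E / 2 ^ X) (Q : Ω → S) :
    CH p (Uni.dg k' f) (fun ω => (Uni.dg k f ω, Q ω)) ≤
      CH p (Uni.dg k' g) (fun ω => (Uni.dg k g ω, Q ω)) + 2 * Real.log (5 + 4 * E) := by
  have h0 := hp.nonneg
  have h' : ∀ ω, 0 < p ω → |g ω - f ω| ≤ E / 2 ^ X := fun ω hω => by
    rw [abs_sub_comm]
    exact h ω hω
  have c1 := CH_le_add h0 (Uni.dg k' f) (Uni.dg k' g) (fun ω => (Uni.dg k f ω, Q ω))
  have c2 := CH_dg_near hp hE hk' h (fun ω => (Uni.dg k' g ω, (Uni.dg k f ω, Q ω)))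
    (fun ω ω' _ _ e => (Prod.ext_iff.mp e).1)
  have c3 := CH_le_add h0 (Uni.dg k' g) (Uni.dg k g) (fun ω => (Uni.dg k f ω, Q ω))
  have c4 := CH_dg_near hp hE hk h' (fun ω => (Uni.dg k f ω, Q ω))
    (fun ω ω' _ _ e => (Prod.ext_iff.mp e).1)
  have c5 : CH p (Uni.dg k' g) (fun ω => (Uni.dg k g ω, (Uni.dg k f ω, Q ω))) ≤
      CH p (Uni.dg k' g) (fun ω => (Uni.dg k g ω, Q ω)) :=
    CH_mono_cond h0 fun ω ω' _ _ e => Prod.ext (Prod.ext_iff.mp e).1
      (Prod.ext_iff.mp (Prod.ext_iff.mp e).2).2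
  linarith

/-- Several near variables: the digits. -/
theorem CH_dgv_near {m : ℕ} (hp : IsLaw p) {f g : Fin m → Ω → ℝ} {E : ℝ} {k : Fin m → ℕ}
    {X : ℕ} (hE : 0 ≤ E) (hk : ∀ i, k i ≤ X)
    (h : ∀ i ω, 0 < p ω → |f i ω - g i ω| ≤ E / 2 ^ X) (W : Ω → S)
    (hW : ∀ ω ω', 0 < p ω → 0 < p ω' → W ω = W ω' →
      ∀ i, Uni.dg (k i) (g i) ω = Uni.dg (k i) (g i) ω') :
    CH p (fun ω i => Uni.dg (k i) (f i) ω) W ≤ m * Real.log (5 + 4 * E) := by
  have h1 := Plk.CH_vec_const (m := m) hp (fun ω i => Uni.dg (k i) (f i) ω) W (c := 2 + 2 * E)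
    (fun ω ω' hω hω' e i => dg_of_near hE (hk i) (h i ω hω) (h i ω' hω') (hW ω ω' hω hω' e i))
  have h3 : 2 * (2 + 2 * E) + 1 = 5 + 4 * E := by ring
  rw [h3] at h1
  exact h1

/-- **Blocks of digits of several near variables.** -/
theorem CH_blkv_near {m : ℕ} (hp : IsLaw p) {f g : Fin m → Ω → ℝ} {E : ℝ}
    {k k' : Fin m → ℕ} {X : ℕ} (hE : 0 ≤ E) (hk : ∀ i, k i ≤ X) (hk' : ∀ i, k' i ≤ X)
    (h : ∀ i ω, 0 < p ω → |f i ω - g i ω| ≤ E / 2 ^ X) (Q : Ω → S) :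
    CH p (fun ω i => Uni.dg (k' i) (f i) ω) (fun ω => (fun i => Uni.dg (k i) (f i) ω, Q ω)) ≤
      CH p (fun ω i => Uni.dg (k' i) (g i) ω) (fun ω => (fun i => Uni.dg (k i) (g i) ω, Q ω)) +
        2 * (m * Real.log (5 + 4 * E)) := by
  have h0 := hp.nonneg
  have h' : ∀ i ω, 0 < p ω → |g i ω - f i ω| ≤ E / 2 ^ X := fun i ω hω => by
    rw [abs_sub_comm]
    exact h i ω hω
  have c1 := CH_le_add h0 (fun ω i => Uni.dg (k' i) (f i) ω) (fun ω i => Uni.dg (k' i) (g i) ω)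
    (fun ω => (fun i => Uni.dg (k i) (f i) ω, Q ω))
  have c2 := CH_dgv_near hp hE hk' h
    (fun ω => (fun i => Uni.dg (k' i) (g i) ω, (fun i => Uni.dg (k i) (f i) ω, Q ω)))
    (fun ω ω' _ _ e i => congrFun (Prod.ext_iff.mp e).1 i)
  have c3 := CH_le_add h0 (fun ω i => Uni.dg (k' i) (g i) ω) (fun ω i => Uni.dg (k i) (g i) ω)
    (fun ω => (fun i => Uni.dg (k i) (f i) ω, Q ω))
  have c4 := CH_dgv_near hp hE hk h' (fun ω => (fun i => Uni.dg (k i) (f i) ω, Q ω))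
    (fun ω ω' _ _ e i => congrFun (Prod.ext_iff.mp e).1 i)
  have c5 : CH p (fun ω i => Uni.dg (k' i) (g i) ω)
      (fun ω => (fun i => Uni.dg (k i) (g i) ω, (fun i => Uni.dg (k i) (f i) ω, Q ω))) ≤
      CH p (fun ω i => Uni.dg (k' i) (g i) ω) (fun ω => (fun i => Uni.dg (k i) (g i) ω, Q ω)) :=
    CH_mono_cond h0 fun ω ω' _ _ e => Prod.ext (Prod.ext_iff.mp e).1
      (Prod.ext_iff.mp (Prod.ext_iff.mp e).2).2
  linarith

end near

end Pool.K2S

namespace Pool.S6N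

open Finset Real
open Pool.Agent.H49.Ent Pool.Agent.H32.Dense Pool.STK Pool.KA Pool.KA.Box Pool.KSAT Pool.K2S

section h5r

variable {J : ℕ} {F : Fam 3 J} {A : F.Ω → Prop} {σ : Fin 3 → Fin 3} {w q V H X : ℕ} {D : ℝ}
  {a s t a' s' t' : F.Ω → ℝ}

theorem vpr_cv (w q V H : ℕ) : vpr w (q + w) (q + V + w) (q + (V + H) + w) = cv q V H := by
  funext i
  fin_cases i
  · exact Nat.add_sub_cancel q w
  · exact Nat.add_sub_cancel (q + V) w
  · exact Nat.add_sub_cancel (q + (V + H)) w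

theorem ppr_cv (w q V H : ℕ) :
    ppr (q + w) (q + V + w) (q + (V + H) + w) = fun i => cv q V H i + w := by
  funext i
  fin_cases i <;> rfl

theorem ctx_cv (w q V H : ℕ) (a s t : F.Ω → ℝ) :
    F.ctx σ w (q + w) (q + V + w) (q + (V + H) + w) a s t = ctx F σ w q V H a s t := by
  unfold Fam.ctx ctx
  rw [vpr_cv]
  rfl

theorem fnr_frg (hF : Frg F A w V H D a s t a' s' t') {ω : F.Ω} (hω : A ω) :
    Fnr (q + w) (q + V + w) (q + (V + H) + w) D (a ω) (s ω) (t ω) (a' ω) (s' ω) (t' ω) := by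
  have e : ∀ x y z : ℕ, y = x + z → D * 2 ^ x / (2 : ℝ) ^ y = D / 2 ^ z := by
    intro x y z h
    rw [h, pow_add]
    field_simp
  refine ⟨?_, ?_, ?_⟩
  · rw [e (q + w) (q + V + w) V (by omega)]
    exact hF.ca ω hω
  · rw [e (q + V + w) (q + (V + H) + w) H (by omega)]
    exact hF.cs ω hω
  · rw [e (q + w) (q + (V + H) + w) (V + H) (by omega)]
    exact hF.ct ω hω

/-- The rounded row is near the row. -/
theorem nn_near (hF : Frg F A w V H D a s t a' s' t') (hw : w ≤ J) (hD : 0 ≤ D) {ω : F.Ω}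
    (hω : A ω) : |nn F σ w q V H X a s t s' t' ω -
      F.rw3 σ w (q + w) (q + V + w) (q + (V + H) + w) a s t a' s' t' 2 ω| ≤
        (2 + 4 * D) / 2 ^ X := by
  have h1 := nn_ps (F := F) (σ := σ) (q := q) (X := X) hF hw hD hω
  have h2 := row_eq F hw (c := cv q V H) (M := fr σ a s t) (S := S3 w q V H a s t s' t')
    (ω := ω) (n := fr σ a' s' t' ω 2) (k := q + (V + H) + w)
    (cf_tfr σ (fun i => cv q V H i + w) (q + (V + H) + w) (a ω) (s ω) (t ω) (a' ω) (s' ω)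
      (t' ω))
  have e1 : F.rw3 σ w (q + w) (q + V + w) (q + (V + H) + w) a s t a' s' t' 2 ω =
      F.mr w (cv q V H) (fr σ a s t) (S3 w q V H a s t s' t') ω := by
    rw [rw3_2]
    unfold Fam.nrow
    rw [vpr_cv, ppr_cv]
    rfl
  rw [e1, h2, abs_sub_comm]
  unfold ps kn at h1
  have e2 : 2 ^ (q + (V + H) + w) * (∑ j, fr σ a' s' t' ω 2 j * F.x ω j) -
      F.mrk w (cv q V H) (fr σ a s t) (S3 w q V H a s t s' t') ω -
      nn F σ w q V H X a s t s' t' ω =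
      2 ^ (q + (V + H) + w) * (∑ j, fr σ a' s' t' ω 2 j * F.x ω j) -
      nn F σ w q V H X a s t s' t' ω -
      F.mrk w (cv q V H) (fr σ a s t) (S3 w q V H a s t s' t') ω := by ring
  rw [e2]
  exact h1

/-- **(H5)** for the row `nn` given the context and the generalised time, on events, from the
static boxes. -/
theorem h5_cx (hσ : Function.Injective σ) (hF : Frg F A w V H D a s t a' s' t') (hw : w ≤ J)
    (hD : 1 ≤ D) (hQ : IsLaw (Pool.Agent.H49.Ent.cond F.p A True)) {V' : Type} (v : F.Ω → V')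
    (hv : ∀ ω ω', ctx F σ w q V H a s t ω = ctx F σ w q V H a s t ω' →
      gt F a' s' t' ω = gt F a' s' t' ω' → v ω = v ω')
    {κ : ℕ} {ϖ e : ℝ} (hϖ : 0 < ϖ)
    (h : ∀ j : ℕ, (j + 1) * κ ≤ X → ∀ A' : F.Ω → Prop,
      ϖ ≤ Pe (Pool.Agent.H49.Ent.cond F.p A True) A' →
      CH (Pool.Agent.H49.Ent.cond (Pool.Agent.H49.Ent.cond F.p A True) A' True)
        (F.sbx σ (q + w) (q + V + w) (q + (V + H) + w + (j + 1) * κ) a' s' t')
        (fun ω => (F.sbx σ (q + w) (q + V + w) (q + (V + H) + w + j * κ) a' s' t' ω, v ω)) ≤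
          e) :
    ∀ j : ℕ, (j + 1) * κ ≤ X → ∀ A' : F.Ω → Prop,
      ϖ ≤ Pe (Pool.Agent.H49.Ent.cond F.p A True) A' →
      CH (Pool.Agent.H49.Ent.cond (Pool.Agent.H49.Ent.cond F.p A True) A' True)
        (Uni.dg ((j + 1) * κ) (nn F σ w q V H X a s t s' t'))
        (fun ω => (Uni.dg (j * κ) (nn F σ w q V H X a s t s' t') ω,
          (ctx F σ w q V H a s t ω, gt F a' s' t' ω))) ≤
        e + (3 * Real.log (12 * D + 3) + Real.log 5 + 2 * Real.log (5 + 4 * (2 + 4 * D))) := by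
  intro j hj A' hA'
  have hA : ∀ ω, 0 < Pool.Agent.H49.Ent.cond F.p A True ω → A ω := fun ω hω =>
    of_eq_true ((cond_pos_iff F.isLaw.nonneg A True ω).1 hω).2
  have hl := isLaw_event hQ hϖ hA'
  have key := h5_n (F := F) (a := a) (s := s) (t := t) (a' := a') (s' := s') (t' := t')
    (w := w) (r := q + w) (U := q + V + w) (P := q + (V + H) + w) hQ hw hD (by omega) (by omega)
    (by omega) hσ (fun ω hω => fnr_frg hF (hA ω hω)) (ctx F σ w q V H a s t) (gt F a' s' t') v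
    (fun ω ω' _ _ h1 h2 => ⟨by rw [ctx_cv]; exact h1, (gt_ext h2).1, (gt_ext h2).2,
      hv ω ω' h1 h2⟩) (fun ω _ => rfl) hϖ h j hj A' hA'
  have hnear := CH_blk_near (p := Pool.Agent.H49.Ent.cond
    (Pool.Agent.H49.Ent.cond F.p A True) A' True) (k := j * κ) (k' := (j + 1) * κ) (X := X) hl
    (by linarith : (0 : ℝ) ≤ 2 + 4 * D) (by
      have : j * κ ≤ (j + 1) * κ := Nat.mul_le_mul_right κ (Nat.le_succ j)
      omega) hj (fun ω hω => nn_near (σ := σ) (q := q) (X := X) hF hw (by linarith)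
      (hA ω (of_event_pos hQ hω))) (fun ω => (ctx F σ w q V H a s t ω, gt F a' s' t' ω))
  linarith

end h5r

end Pool.S6N
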