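import Pool.Agent.H90.S6R.HRowD
import Pool.Agent.H6.S6H.Asm

/-!
# The plateau of `R - varpi`: (CNV)
-/

set_option autoImplicit false

namespace Pool.S6C

open Finset Real
open Pool.Agent.H49.Ent Pool.Agent.H32.Dense Pool.STK Pool.KA Pool.KSAT Pool.K2S Pool.PB Pool.KS6
  Pool.Sel51 Pool.FALL Pool.S6H

/-- **(CNV)** The pair of the normal positions from the static boxes. -/
theorem hcnv_thm : HCnvStmt := by
  refine ⟨Pool.S6H.CD 4, ?_⟩
  intro J F A σ N X Δ r w₀ V₀ H c₁ c κ ϖ a t s a' t' _ hl hJ hF hϖ hcR i hi q h j hj E hE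
  have hw : fw w₀ Δ i ≤ J := by
    unfold fw
    have := Nat.mul_le_mul_right Δ hi
    omega
  have hlE := Pool.K2S.isLaw_event hl hϖ hE
  have hA : ∀ ω, 0 < Pool.Agent.H49.Ent.cond (Pool.Agent.H49.Ent.cond F.p A True) E True ω →
      A ω := fun ω hω =>
    of_eq_true ((cond_pos_iff F.isLaw.nonneg A True ω).1 (Pool.K2S.of_event_pos hl hω)).2
  have hj0 : j * ⌊κ * X⌋₊ ≤ X := by
    have : j * ⌊κ * X⌋₊ ≤ (j + 1) * ⌊κ * X⌋₊ := Nat.mul_le_mul_right _ (Nat.le_succ j)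
    omega
  have k1 := Pool.S6H.CH_nu2_le (σ := σ) (q := q) hlE hA (hF i hi) (by norm_num) hw hj0 hj
  have k2 := h j hj E hE
  unfold Pool.S6H.CD at hcR
  linarith

end Pool.S6C
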