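import Pool.Agent.H8.KS6.BoxC
import Pool.Agent.H88.OCS.OcbDefs

/-!
# The rows of the position in the context, from the rows of the static boxes

`F.nrow` and `F.urow` are the rows of the normal and of the second coordinate of the frame
`(a', s', t')`, relative to the natural box of the context `F.ctx σ w r U P a s t`. The conditional
entropy of the rows, given the context and the time, is at most the conditional entropy of the
static boxes in the frame `(a', s', t')`, up to a constant.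
-/

set_option autoImplicit false

namespace Pool.KA

open Finset Real
open Pool.Agent.H49.Ent Pool.Agent.H32.Dense Pool.STK Pool.K2S

variable {J : ℕ}

/-- The row of the normal coordinate of the frame `(a', s', t')`. -/
noncomputable def Fam.nrow (F : Fam 3 J) (σ : Fin 3 → Fin 3) (w r U P : ℕ)
    (a s t s' t' : F.Ω → ℝ) : F.Ω → ℝ :=
  F.mr w (vpr w r U P) (fun o => tfr σ (a o) (s o) (t o))
    (fun o => Box.tsl (ppr r U P) P (s' o - s o) ((t' o - t o) + (s' o - s o) * a o))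

/-- The row of the second coordinate of the frame `(a', s', t')`. -/
noncomputable def Fam.urow (F : Fam 3 J) (σ : Fin 3 → Fin 3) (w r U P : ℕ)
    (a s t a' : F.Ω → ℝ) : F.Ω → ℝ :=
  F.mr w (vpr w r U P) (fun o => tfr σ (a o) (s o) (t o))
    (fun o => Box.tsu (ppr r U P) U (a' o - a o))

namespace Box

section row

variable {F : Fam 3 J} {p : F.Ω → ℝ} {σ : Fin 3 → Fin 3} {a s t a' s' t' : F.Ω → ℝ}
  {w r U P : ℕ} {ω ω' : F.Ω}

theorem vpr_fun (hr : w ≤ r) (hU : w ≤ U) (hP : w ≤ P) :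
    (fun i => vpr w r U P i + w) = ppr r U P := by
  funext i
  exact vpr_add hr hU hP i

/-- The difference of two rows of the normal coordinate. -/
theorem nrow_sub (hw : w ≤ J) (hr : w ≤ r) (hU : w ≤ U) (hP : w ≤ P)
    (hb : F.ctx σ w r U P a s t ω = F.ctx σ w r U P a s t ω') (hσ : Function.Injective σ)
    (hT : F.T ω = F.T ω') (hs : s' ω = s' ω') (ht : t' ω = t' ω') :
    F.nrow σ w r U P a s t s' t' ω - F.nrow σ w r U P a s t s' t' ω' =
      2 ^ P * (mco (tfr σ (a' ω) (s' ω) (t' ω)) (F.x ω) 2 -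
        mco (tfr σ (a' ω) (s' ω) (t' ω)) (F.x ω') 2) := by
  obtain ⟨-, ⟨b1, b2, b3⟩, -⟩ := ctx_ext hσ hb
  have c1 := cf_tfr σ (ppr r U P) P (a ω) (s ω) (t ω) (a' ω) (s' ω) (t' ω)
  have c2 := cf_tfr σ (ppr r U P) P (a ω') (s ω') (t ω') (a' ω) (s' ω') (t' ω')
  rw [← vpr_fun hr hU hP] at c1 c2
  have key := row_sub (F := F) (c := vpr w r U P) (M := fun o => tfr σ (a o) (s o) (t o))
    (S := fun o => tsl (fun i => vpr w r U P i + w) P (s' o - s o)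
      ((t' o - t o) + (s' o - s o) * a o)) (ω := ω) (ω' := ω') hw c1 c2 hb hT (by
        change tsl _ P _ _ = tsl _ P _ _
        rw [b1, b2, b3, hs, ht])
  have e1 : F.nrow σ w r U P a s t s' t' = F.mr w (vpr w r U P)
      (fun o => tfr σ (a o) (s o) (t o)) (fun o => tsl (fun i => vpr w r U P i + w) P
        (s' o - s o) ((t' o - t o) + (s' o - s o) * a o)) := by
    rw [vpr_fun hr hU hP]
    rfl
  rw [e1, key, ← hs, ← ht, ← mul_sub]
  rfl

/-- The difference of two rows of the second coordinate. -/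
theorem urow_sub (hw : w ≤ J) (hr : w ≤ r) (hU : w ≤ U) (hP : w ≤ P)
    (hb : F.ctx σ w r U P a s t ω = F.ctx σ w r U P a s t ω') (hσ : Function.Injective σ)
    (hT : F.T ω = F.T ω') (ha : a' ω = a' ω') :
    F.urow σ w r U P a s t a' ω - F.urow σ w r U P a s t a' ω' =
      2 ^ U * (mco (tfr σ (a' ω) (s' ω) (t' ω)) (F.x ω) 1 -
        mco (tfr σ (a' ω) (s' ω) (t' ω)) (F.x ω') 1) := by
  obtain ⟨-, ⟨b1, b2, b3⟩, -⟩ := ctx_ext hσ hb
  have c1 := cf_tfr1 σ (ppr r U P) U (a ω) (s ω) (t ω) (a' ω) (s' ω) (t' ω)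
  have c2 := cf_tfr1 σ (ppr r U P) U (a ω') (s ω') (t ω') (a' ω') (s' ω) (t' ω)
  rw [← vpr_fun hr hU hP] at c1 c2
  have key := row_sub (F := F) (c := vpr w r U P) (M := fun o => tfr σ (a o) (s o) (t o))
    (S := fun o => tsu (fun i => vpr w r U P i + w) U (a' o - a o)) (ω := ω) (ω' := ω')
    hw c1 c2 hb hT (by
        change tsu _ U _ = tsu _ U _
        rw [b1, ha])
  have e1 : F.urow σ w r U P a s t a' = F.mr w (vpr w r U P)
      (fun o => tfr σ (a o) (s o) (t o)) (fun o => tsu (fun i => vpr w r U P i + w) U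
        (a' o - a o)) := by
    rw [vpr_fun hr hU hP]
    rfl
  rw [e1, key, ← ha, ← mul_sub]
  rfl

/-- Equal digits are near. -/
theorem near_of_dg {Ω : Type} {f : Ω → ℝ} {k : ℕ} {ω ω' : Ω} (h : Uni.dg k f ω = Uni.dg k f ω') :
    |f ω - f ω'| ≤ 1 / 2 ^ k := near_of_floor h

/-- Two samples with the same context, time and frame are near in the frame `(a', s', t')`. -/
theorem ctx_near {D : ℝ} (hw : w ≤ J) (hD : 1 ≤ D) (hr : w ≤ r) (hU : w ≤ U) (hP : w ≤ P)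
    (hn : Fnr r U P D (a ω) (s ω) (t ω) (a' ω) (s' ω) (t' ω))
    (hb : F.ctx σ w r U P a s t ω = F.ctx σ w r U P a s t ω') (hT : F.T ω = F.T ω')
    (i : Fin 3) :
    |mco (tfr σ (a' ω) (s' ω) (t' ω)) (F.x ω) i - mco (tfr σ (a' ω) (s' ω) (t' ω)) (F.x ω') i| ≤
      6 * D / 2 ^ ppr r U P i := by
  have k1 : ∀ j, |mco (tfr σ (a ω) (s ω) (t ω)) (F.x ω) j -
      mco (tfr σ (a ω) (s ω) (t ω)) (F.x ω') j| ≤ 2 / 2 ^ ppr r U P j := by
    intro j
    have h1 := mx_near (F := F) (c := vpr w r U P) (M := fun o => tfr σ (a o) (s o) (t o))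
      hw hb hT j
    rw [vpr_add hr hU hP, ← mul_sub, abs_mul, abs_of_pos (by positivity :
      (0 : ℝ) < 2 ^ ppr r U P j)] at h1
    rw [le_div_iff₀ (by positivity), mul_comm]
    exact h1
  obtain ⟨n1, n2, n3⟩ := hn
  have hl := cg_tfr σ (a ω) (s ω) (t ω) (a' ω) (s' ω) (t' ω)
  have key := lin_near (a := mco (tfr σ (a ω) (s ω) (t ω)) (F.x ω))
    (b := mco (tfr σ (a ω) (s ω) (t ω)) (F.x ω')) (k := ppr r U P) (n := ppr r U P i) (C := 2)
    (by linarith : (0 : ℝ) ≤ D) k1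
    (tch_le hD (k := ppr r U P) (k' := ppr r U P) le_rfl le_rfl le_rfl n1 n2 n3 i)
  rw [hl, hl]
  refine key.trans (le_of_eq ?_)
  congr 1
  push_cast
  ring

/-- **The rows from the boxes**, two rows: the second coordinate from the row `k₁` to the row
`k₁'`, the normal coordinate from `k₂` to `k₂'`. `Q` is the condition; it determines the context,
the time, the frame and `V`. -/
theorem CH_rows2 {S S' : Type} (hp : IsLaw p) {D : ℝ} (hw : w ≤ J) (hD : 1 ≤ D) (hr : w ≤ r)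
    (hU : w ≤ U) (hP : w ≤ P) (hσ : Function.Injective σ) (k₁ k₁' k₂ k₂' : ℕ)
    (hn : ∀ ω, 0 < p ω → Fnr r U P D (a ω) (s ω) (t ω) (a' ω) (s' ω) (t' ω))
    (Q : F.Ω → S) (V : F.Ω → S') (hQ : ∀ ω ω', 0 < p ω → 0 < p ω' → Q ω = Q ω' →
      F.ctx σ w r U P a s t ω = F.ctx σ w r U P a s t ω' ∧ F.T ω = F.T ω' ∧
      (a' ω = a' ω' ∧ s' ω = s' ω' ∧ t' ω = t' ω') ∧ V ω = V ω') :
    CH p (fun ω => (Uni.dg k₁' (F.urow σ w r U P a s t a') ω,
        Uni.dg k₂' (F.nrow σ w r U P a s t s' t') ω))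
      (fun ω => ((Uni.dg k₁ (F.urow σ w r U P a s t a') ω,
        Uni.dg k₂ (F.nrow σ w r U P a s t s' t') ω), Q ω)) ≤
    CH p (F.sbx σ r (U + k₁') (P + k₂') a' s' t')
      (fun ω => (F.sbx σ r (U + k₁) (P + k₂) a' s' t' ω, V ω)) +
      (3 * Real.log (12 * D + 3) + 2 * Real.log 5) := by
  have h0 := hp.nonneg
  obtain ⟨u, hu⟩ : ∃ f, f = F.urow σ w r U P a s t a' := ⟨_, rfl⟩
  obtain ⟨n, hn'⟩ : ∃ f, f = F.nrow σ w r U P a s t s' t' := ⟨_, rfl⟩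
  obtain ⟨B, hB⟩ : ∃ f, f = F.sbx σ r (U + k₁) (P + k₂) a' s' t' := ⟨_, rfl⟩
  obtain ⟨B', hB'⟩ : ∃ f, f = F.sbx σ r (U + k₁') (P + k₂') a' s' t' := ⟨_, rfl⟩
  rw [← hu, ← hn', ← hB, ← hB']
  obtain ⟨W, hW⟩ : ∃ f : F.Ω → (ℤ × ℤ) × S, f = fun ω => ((Uni.dg k₁ u ω, Uni.dg k₂ n ω), Q ω) :=
    ⟨_, rfl⟩
  have hW' : ∀ ω ω', W ω = W ω' → (Uni.dg k₁ u ω = Uni.dg k₁ u ω' ∧
      Uni.dg k₂ n ω = Uni.dg k₂ n ω') ∧ Q ω = Q ω' := by
    intro ω ω' h
    rw [hW] at h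
    exact ⟨Prod.ext_iff.mp (Prod.ext_iff.mp h).1, (Prod.ext_iff.mp h).2⟩
  -- the box is known
  have s1 : CH p B W ≤ (3 : ℕ) * Real.log (2 * (6 * D) + 3) := by
    rw [hB]
    refine CH_sbx (F := F) (σ := σ) (a := a') (s := s') (t := t') hp W ?_
    intro ω ω' hω hω' h
    obtain ⟨⟨d1, d2⟩, d3⟩ := hW' ω ω' h
    obtain ⟨q1, q2, ⟨q3, q4, q5⟩, -⟩ := hQ ω ω' hω hω' d3
    refine ⟨⟨q3, q4, q5⟩, ?_⟩
    have hDD : (1 : ℝ) ≤ 6 * D := by linarith
    intro i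
    fin_cases i
    · exact ctx_near hw hD hr hU hP (hn ω hω) q1 q2 0
    · change |mco (tfr σ (a' ω) (s' ω) (t' ω)) (F.x ω) 1 -
        mco (tfr σ (a' ω) (s' ω) (t' ω)) (F.x ω') 1| ≤ 6 * D / 2 ^ (U + k₁)
      have g1 := near_of_dg d1
      rw [hu, urow_sub (s' := s') (t' := t') hw hr hU hP q1 hσ q2 q3, abs_mul,
        abs_of_pos (by positivity : (0 : ℝ) < 2 ^ U)] at g1
      rw [le_div_iff₀ (by positivity), pow_add]
      rw [le_div_iff₀ (by positivity)] at g1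
      linarith
    · change |mco (tfr σ (a' ω) (s' ω) (t' ω)) (F.x ω) 2 -
        mco (tfr σ (a' ω) (s' ω) (t' ω)) (F.x ω') 2| ≤ 6 * D / 2 ^ (P + k₂)
      have g1 := near_of_dg d2
      rw [hn', nrow_sub (a' := a') hw hr hU hP q1 hσ q2 q4 q5, abs_mul,
        abs_of_pos (by positivity : (0 : ℝ) < 2 ^ P)] at g1
      rw [le_div_iff₀ (by positivity), pow_add]
      rw [le_div_iff₀ (by positivity)] at g1
      linarith
  -- the rows are known from the finer box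
  have s2 : CH p (fun ω => (Uni.dg k₁' u ω, Uni.dg k₂' n ω)) (fun ω => (B' ω, W ω)) ≤
      2 * Real.log 5 := by
    have e5 : (2 : ℝ) * 2 + 1 = 5 := by norm_num
    have hc : ∀ ω ω', 0 < p ω → 0 < p ω' → B' ω = B' ω' → W ω = W ω' →
        |u ω - u ω'| ≤ 1 / 2 ^ k₁' ∧ |n ω - n ω'| ≤ 1 / 2 ^ k₂' := by
      intro ω ω' hω hω' hb h
      obtain ⟨-, d3⟩ := hW' ω ω' h
      obtain ⟨q1, q2, ⟨q3, q4, q5⟩, -⟩ := hQ ω ω' hω hω' d3
      rw [hB'] at hb
      have b2 : flk (ppr r (U + k₁') (P + k₂')) (mco (tfr σ (a' ω) (s' ω) (t' ω)) (F.x ω)) =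
        flk (ppr r (U + k₁') (P + k₂')) (mco (tfr σ (a' ω') (s' ω') (t' ω')) (F.x ω')) :=
        (Prod.ext_iff.mp hb).2
      rw [← q3, ← q4, ← q5] at b2
      have g1 : |mco (tfr σ (a' ω) (s' ω) (t' ω)) (F.x ω) 1 -
        mco (tfr σ (a' ω) (s' ω) (t' ω)) (F.x ω') 1| ≤ 1 / 2 ^ (U + k₁') :=
        near_of_floor (congrFun b2 1)
      have g2 : |mco (tfr σ (a' ω) (s' ω) (t' ω)) (F.x ω) 2 -
        mco (tfr σ (a' ω) (s' ω) (t' ω)) (F.x ω') 2| ≤ 1 / 2 ^ (P + k₂') :=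
        near_of_floor (congrFun b2 2)
      constructor
      · rw [hu, urow_sub (s' := s') (t' := t') hw hr hU hP q1 hσ q2 q3, abs_mul,
          abs_of_pos (by positivity : (0 : ℝ) < 2 ^ U), le_div_iff₀ (by positivity)]
        rw [le_div_iff₀ (by positivity), pow_add] at g1
        linarith
      · rw [hn', nrow_sub (a' := a') hw hr hU hP q1 hσ q2 q4 q5, abs_mul,
          abs_of_pos (by positivity : (0 : ℝ) < 2 ^ P), le_div_iff₀ (by positivity)]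
        rw [le_div_iff₀ (by positivity), pow_add] at g2
        linarith
    have one : ∀ {x y : ℝ} {k : ℕ}, |x - y| ≤ 1 / 2 ^ k →
        |((⌊(2 : ℝ) ^ k * x⌋ - ⌊(2 : ℝ) ^ k * y⌋ : ℤ) : ℝ)| ≤ 2 := by
      intro x y k h
      have := floor_near (C := 1) h
      linarith
    have t1 := Lab.CH_int_const hp (Uni.dg k₁' u) (fun ω => (B' ω, W ω)) (c := 2)
      (fun ω ω' hω hω' h => one (hc ω ω' hω hω' (Prod.ext_iff.mp h).1 (Prod.ext_iff.mp h).2).1)
    have t2 := Lab.CH_int_const hp (Uni.dg k₂' n) (fun ω => (B' ω, W ω)) (c := 2)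
      (fun ω ω' hω hω' h => one (hc ω ω' hω hω' (Prod.ext_iff.mp h).1 (Prod.ext_iff.mp h).2).2)
    rw [e5] at t1 t2
    have t3 := CH_subadd h0 (Uni.dg k₁' u) (Uni.dg k₂' n) (fun ω => (B' ω, W ω))
    linarith
  have s3 := CH_le_add h0 (fun ω => (Uni.dg k₁' u ω, Uni.dg k₂' n ω)) B' W
  have s4 := CH_le_add h0 B' B W
  have s5 : CH p B' (fun ω => (B ω, W ω)) ≤ CH p B' (fun ω => (B ω, V ω)) := by
    refine CH_mono_cond h0 ?_
    intro ω ω' hω hω' h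
    have h1 := Prod.ext_iff.mp h
    exact Prod.ext h1.1 (hQ ω ω' hω hω' (hW' ω ω' h1.2).2).2.2.2
  have e12 : 2 * (6 * D) + 3 = 12 * D + 3 := by ring
  rw [e12] at s1
  rw [← hW]
  push_cast at s1
  linarith

/-- **The rows from the boxes**, one row. -/
theorem CH_rows1 {S S' : Type} (hp : IsLaw p) {D : ℝ} (hw : w ≤ J) (hD : 1 ≤ D) (hr : w ≤ r)
    (hU : w ≤ U) (hP : w ≤ P) (hσ : Function.Injective σ) (k k' : ℕ)
    (hn : ∀ ω, 0 < p ω → Fnr r U P D (a ω) (s ω) (t ω) (a' ω) (s' ω) (t' ω))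
    (Q : F.Ω → S) (V : F.Ω → S') (hQ : ∀ ω ω', 0 < p ω → 0 < p ω' → Q ω = Q ω' →
      F.ctx σ w r U P a s t ω = F.ctx σ w r U P a s t ω' ∧ F.T ω = F.T ω' ∧
      (a' ω = a' ω' ∧ s' ω = s' ω' ∧ t' ω = t' ω') ∧ V ω = V ω') :
    CH p (Uni.dg k' (F.nrow σ w r U P a s t s' t'))
      (fun ω => (Uni.dg k (F.nrow σ w r U P a s t s' t') ω, Q ω)) ≤
    CH p (F.sbx σ r U (P + k') a' s' t') (fun ω => (F.sbx σ r U (P + k) a' s' t' ω, V ω)) +
      (3 * Real.log (12 * D + 3) + Real.log 5) := by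
  have h0 := hp.nonneg
  obtain ⟨n, hn'⟩ : ∃ f, f = F.nrow σ w r U P a s t s' t' := ⟨_, rfl⟩
  obtain ⟨B, hB⟩ : ∃ f, f = F.sbx σ r U (P + k) a' s' t' := ⟨_, rfl⟩
  obtain ⟨B', hB'⟩ : ∃ f, f = F.sbx σ r U (P + k') a' s' t' := ⟨_, rfl⟩
  rw [← hn', ← hB, ← hB']
  obtain ⟨W, hW⟩ : ∃ f : F.Ω → ℤ × S, f = fun ω => (Uni.dg k n ω, Q ω) := ⟨_, rfl⟩
  have hW' : ∀ ω ω', W ω = W ω' → Uni.dg k n ω = Uni.dg k n ω' ∧ Q ω = Q ω' := by
    intro ω ω' h
    rw [hW] at h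
    exact Prod.ext_iff.mp h
  have s1 : CH p B W ≤ (3 : ℕ) * Real.log (2 * (6 * D) + 3) := by
    rw [hB]
    refine CH_sbx (F := F) (σ := σ) (a := a') (s := s') (t := t') hp W ?_
    intro ω ω' hω hω' h
    obtain ⟨d2, d3⟩ := hW' ω ω' h
    obtain ⟨q1, q2, ⟨q3, q4, q5⟩, -⟩ := hQ ω ω' hω hω' d3
    refine ⟨⟨q3, q4, q5⟩, ?_⟩
    have hDD : (1 : ℝ) ≤ 6 * D := by linarith
    intro i
    fin_cases i
    · exact ctx_near hw hD hr hU hP (hn ω hω) q1 q2 0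
    · exact ctx_near hw hD hr hU hP (hn ω hω) q1 q2 1
    · change |mco (tfr σ (a' ω) (s' ω) (t' ω)) (F.x ω) 2 -
        mco (tfr σ (a' ω) (s' ω) (t' ω)) (F.x ω') 2| ≤ 6 * D / 2 ^ (P + k)
      have g1 := near_of_dg d2
      rw [hn', nrow_sub (a' := a') hw hr hU hP q1 hσ q2 q4 q5, abs_mul,
        abs_of_pos (by positivity : (0 : ℝ) < 2 ^ P)] at g1
      rw [le_div_iff₀ (by positivity), pow_add]
      rw [le_div_iff₀ (by positivity)] at g1
      linarith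
  have s2 : CH p (Uni.dg k' n) (fun ω => (B' ω, W ω)) ≤ Real.log 5 := by
    have e5 : (2 : ℝ) * 2 + 1 = 5 := by norm_num
    have t1 := Lab.CH_int_const hp (Uni.dg k' n) (fun ω => (B' ω, W ω)) (c := 2) (by
      intro ω ω' hω hω' h
      have hb := (Prod.ext_iff.mp h).1
      obtain ⟨-, d3⟩ := hW' ω ω' (Prod.ext_iff.mp h).2
      obtain ⟨q1, q2, ⟨q3, q4, q5⟩, -⟩ := hQ ω ω' hω hω' d3
      rw [hB'] at hb
      have b2 : flk (ppr r U (P + k')) (mco (tfr σ (a' ω) (s' ω) (t' ω)) (F.x ω)) =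
        flk (ppr r U (P + k')) (mco (tfr σ (a' ω') (s' ω') (t' ω')) (F.x ω')) :=
        (Prod.ext_iff.mp hb).2
      rw [← q3, ← q4, ← q5] at b2
      have g2 : |mco (tfr σ (a' ω) (s' ω) (t' ω)) (F.x ω) 2 -
        mco (tfr σ (a' ω) (s' ω) (t' ω)) (F.x ω') 2| ≤ 1 / 2 ^ (P + k') :=
        near_of_floor (congrFun b2 2)
      have g3 : |n ω - n ω'| ≤ 1 / 2 ^ k' := by
        rw [hn', nrow_sub (a' := a') hw hr hU hP q1 hσ q2 q4 q5, abs_mul,
          abs_of_pos (by positivity : (0 : ℝ) < 2 ^ P), le_div_iff₀ (by positivity)]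
        rw [le_div_iff₀ (by positivity), pow_add] at g2
        linarith
      have g4 := floor_near (C := 1) g3
      change |((⌊(2 : ℝ) ^ k' * n ω⌋ - ⌊(2 : ℝ) ^ k' * n ω'⌋ : ℤ) : ℝ)| ≤ 2
      linarith)
    rw [e5] at t1
    exact t1
  have s3 := CH_le_add h0 (Uni.dg k' n) B' W
  have s4 := CH_le_add h0 B' B W
  have s5 : CH p B' (fun ω => (B ω, W ω)) ≤ CH p B' (fun ω => (B ω, V ω)) := by
    refine CH_mono_cond h0 ?_
    intro ω ω' hω hω' h
    have h1 := Prod.ext_iff.mp h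
    exact Prod.ext h1.1 (hQ ω ω' hω hω' (hW' ω ω' h1.2).2).2.2.2
  have e12 : 2 * (6 * D) + 3 = 12 * D + 3 := by ring
  rw [e12] at s1
  rw [← hW]
  push_cast at s1
  linarith

end row

end Box

end Pool.KA
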