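import Pool.Agent.H90.S6R.Row

/-!
# The rows of all the coordinates

`F.rw3 σ w r U P a s t a' s' t' i` is the row of the coordinate `i` of the frame `(a', s', t')`
relative to the natural box of the context `F.ctx σ w r U P a s t`. `CH_rows3`: the three rows;
`CH_rows_e`, `CH_rows_en`: subsets of the coordinates.
-/

set_option autoImplicit false

namespace Pool.KA

open Finset Real
open Pool.Agent.H49.Ent Pool.Agent.H32.Dense Pool.STK Pool.K2S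

variable {J : ℕ}

/-- The coefficients of the covectors of the frame `(a', s', t')` relative to the box. -/
noncomputable def Fam.cf3 (F : Fam 3 J) (r U P : ℕ) (a s t a' s' t' : F.Ω → ℝ)
    (i : Fin 3) : F.Ω → Fin 3 → ℝ :=
  ![fun _ j => if j = 0 then 1 else 0,
    fun o => Box.tsu (ppr r U P) U (a' o - a o),
    fun o => Box.tsl (ppr r U P) P (s' o - s o) ((t' o - t o) + (s' o - s o) * a o)] i

/-- The row of the coordinate `i` of the frame `(a', s', t')`. -/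
noncomputable def Fam.rw3 (F : Fam 3 J) (σ : Fin 3 → Fin 3) (w r U P : ℕ)
    (a s t a' s' t' : F.Ω → ℝ) (i : Fin 3) : F.Ω → ℝ :=
  F.mr w (vpr w r U P) (fun o => tfr σ (a o) (s o) (t o)) (F.cf3 r U P a s t a' s' t' i)

namespace Box

section row

variable {F : Fam 3 J} {p : F.Ω → ℝ} {σ : Fin 3 → Fin 3} {a s t a' s' t' : F.Ω → ℝ}
  {w r U P : ℕ} {ω ω' : F.Ω}

theorem rw3_1 : F.rw3 σ w r U P a s t a' s' t' 1 = F.urow σ w r U P a s t a' := rfl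

theorem rw3_2 : F.rw3 σ w r U P a s t a' s' t' 2 = F.nrow σ w r U P a s t s' t' := rfl

/-- The row of the first coordinate is the position in the box. -/
theorem rw3_0 : F.rw3 σ w r U P a s t a' s' t' 0 =
    fun ω => F.mx w (vpr w r U P) (fun o => tfr σ (a o) (s o) (t o)) ω 0 := by
  funext ω
  change ∑ j, (if j = 0 then (1 : ℝ) else 0) *
    F.mx w (vpr w r U P) (fun o => tfr σ (a o) (s o) (t o)) ω j = _
  rw [Fin.sum_univ_three]
  simp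

/-- The difference of two rows. -/
theorem rw3_sub (hw : w ≤ J) (hr : w ≤ r) (hU : w ≤ U) (hP : w ≤ P)
    (hb : F.ctx σ w r U P a s t ω = F.ctx σ w r U P a s t ω') (hσ : Function.Injective σ)
    (hT : F.T ω = F.T ω') (ha : a' ω = a' ω') (hs : s' ω = s' ω') (ht : t' ω = t' ω')
    (i : Fin 3) :
    F.rw3 σ w r U P a s t a' s' t' i ω - F.rw3 σ w r U P a s t a' s' t' i ω' =
      2 ^ ppr r U P i * (mco (tfr σ (a' ω) (s' ω) (t' ω)) (F.x ω) i -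
        mco (tfr σ (a' ω) (s' ω) (t' ω)) (F.x ω') i) := by
  fin_cases i
  · change F.rw3 σ w r U P a s t a' s' t' 0 ω - F.rw3 σ w r U P a s t a' s' t' 0 ω' =
      2 ^ r * (mco (tfr σ (a' ω) (s' ω) (t' ω)) (F.x ω) 0 -
        mco (tfr σ (a' ω) (s' ω) (t' ω)) (F.x ω') 0)
    rw [rw3_0, mco_tfr0, mco_tfr0]
    have p1 := pos_eq F hw (vpr w r U P) (fun o => tfr σ (a o) (s o) (t o)) ω 0
    have p2 := pos_eq F hw (vpr w r U P) (fun o => tfr σ (a o) (s o) (t o)) ω' 0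
    have hk := mkn_det (F := F) (c := vpr w r U P) (M := fun o => tfr σ (a o) (s o) (t o))
      (w := w) hb hT
    rw [vpr_add hr hU hP, mco_tfr0] at p1 p2
    rw [← hk] at p2
    change F.mx w (vpr w r U P) (fun o => tfr σ (a o) (s o) (t o)) ω 0 -
      F.mx w (vpr w r U P) (fun o => tfr σ (a o) (s o) (t o)) ω' 0 =
      2 ^ ppr r U P 0 * (F.x ω (σ 0) - F.x ω' (σ 0))
    linarith
  · exact urow_sub (s' := s') (t' := t') hw hr hU hP hb hσ hT ha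
  · exact nrow_sub (a' := a') hw hr hU hP hb hσ hT hs ht

/-- **The rows from the boxes**, all the coordinates: the coordinate `i` from the row `k i` to the
row `k' i`. `Q` is the condition; it determines the context, the time, the frame and `V`. -/
theorem CH_rows3 {S S' : Type} (hp : IsLaw p) {D : ℝ} (hw : w ≤ J) (hD : 1 ≤ D) (hr : w ≤ r)
    (hU : w ≤ U) (hP : w ≤ P) (hσ : Function.Injective σ) (k k' : Fin 3 → ℕ)
    (hn : ∀ ω, 0 < p ω → Fnr r U P D (a ω) (s ω) (t ω) (a' ω) (s' ω) (t' ω))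
    (Q : F.Ω → S) (V : F.Ω → S') (hQ : ∀ ω ω', 0 < p ω → 0 < p ω' → Q ω = Q ω' →
      F.ctx σ w r U P a s t ω = F.ctx σ w r U P a s t ω' ∧ F.T ω = F.T ω' ∧
      (a' ω = a' ω' ∧ s' ω = s' ω' ∧ t' ω = t' ω') ∧ V ω = V ω') :
    CH p (fun ω i => Uni.dg (k' i) (F.rw3 σ w r U P a s t a' s' t' i) ω)
      (fun ω => (fun i => Uni.dg (k i) (F.rw3 σ w r U P a s t a' s' t' i) ω, Q ω)) ≤
    CH p (F.sbx σ (r + k' 0) (U + k' 1) (P + k' 2) a' s' t')
      (fun ω => (F.sbx σ (r + k 0) (U + k 1) (P + k 2) a' s' t' ω, V ω)) +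
      (3 * Real.log (12 * D + 3) + 3 * Real.log 5) := by
  have h0 := hp.nonneg
  obtain ⟨n, hn'⟩ : ∃ f, f = F.rw3 σ w r U P a s t a' s' t' := ⟨_, rfl⟩
  obtain ⟨B, hB⟩ : ∃ f, f = F.sbx σ (r + k 0) (U + k 1) (P + k 2) a' s' t' := ⟨_, rfl⟩
  obtain ⟨B', hB'⟩ : ∃ f, f = F.sbx σ (r + k' 0) (U + k' 1) (P + k' 2) a' s' t' := ⟨_, rfl⟩
  rw [← hn', ← hB, ← hB']
  have pe : ∀ (l : Fin 3 → ℕ) (i : Fin 3),
      ppr (r + l 0) (U + l 1) (P + l 2) i = ppr r U P i + l i := by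
    intro l i
    fin_cases i <;> rfl
  obtain ⟨W, hW⟩ : ∃ f : F.Ω → (Fin 3 → ℤ) × S, f = fun ω => (fun i => Uni.dg (k i) (n i) ω, Q ω) :=
    ⟨_, rfl⟩
  have hW' : ∀ ω ω', W ω = W ω' → (∀ i, Uni.dg (k i) (n i) ω = Uni.dg (k i) (n i) ω') ∧
      Q ω = Q ω' := by
    intro ω ω' h
    rw [hW] at h
    exact ⟨fun i => congrFun (Prod.ext_iff.mp h).1 i, (Prod.ext_iff.mp h).2⟩
  have s1 : CH p B W ≤ (3 : ℕ) * Real.log (2 * (6 * D) + 3) := by
    rw [hB]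
    refine CH_sbx (F := F) (σ := σ) (a := a') (s := s') (t := t') hp W ?_
    intro ω ω' hω hω' h
    obtain ⟨d2, d3⟩ := hW' ω ω' h
    obtain ⟨q1, q2, ⟨q3, q4, q5⟩, -⟩ := hQ ω ω' hω hω' d3
    refine ⟨⟨q3, q4, q5⟩, ?_⟩
    have hDD : (1 : ℝ) ≤ 6 * D := by linarith
    intro i
    have g1 := near_of_dg (d2 i)
    rw [hn', rw3_sub hw hr hU hP q1 hσ q2 q3 q4 q5, abs_mul,
      abs_of_pos (by positivity : (0 : ℝ) < 2 ^ ppr r U P i)] at g1
    rw [pe, le_div_iff₀ (by positivity), pow_add]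
    rw [le_div_iff₀ (by positivity)] at g1
    linarith
  have s2 : CH p (fun ω i => Uni.dg (k' i) (n i) ω) (fun ω => (B' ω, W ω)) ≤
      (3 : ℕ) * Real.log (2 * 2 + 1) := by
    refine Lab.CH_fin_const hp _ _ ?_
    intro ω ω' hω hω' h i
    have hb := (Prod.ext_iff.mp h).1
    obtain ⟨-, d3⟩ := hW' ω ω' (Prod.ext_iff.mp h).2
    obtain ⟨q1, q2, ⟨q3, q4, q5⟩, -⟩ := hQ ω ω' hω hω' d3
    rw [hB'] at hb
    have b2 : flk (ppr (r + k' 0) (U + k' 1) (P + k' 2))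
        (mco (tfr σ (a' ω) (s' ω) (t' ω)) (F.x ω)) =
      flk (ppr (r + k' 0) (U + k' 1) (P + k' 2))
        (mco (tfr σ (a' ω') (s' ω') (t' ω')) (F.x ω')) := (Prod.ext_iff.mp hb).2
    rw [← q3, ← q4, ← q5] at b2
    have g2 : |mco (tfr σ (a' ω) (s' ω) (t' ω)) (F.x ω) i -
        mco (tfr σ (a' ω) (s' ω) (t' ω)) (F.x ω') i| ≤ 1 / 2 ^ ppr (r + k' 0) (U + k' 1)
          (P + k' 2) i := near_of_floor (congrFun b2 i)
    have g3 : |n i ω - n i ω'| ≤ 1 / 2 ^ k' i := by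
      rw [hn', rw3_sub hw hr hU hP q1 hσ q2 q3 q4 q5, abs_mul,
        abs_of_pos (by positivity : (0 : ℝ) < 2 ^ ppr r U P i), le_div_iff₀ (by positivity)]
      rw [pe, le_div_iff₀ (by positivity), pow_add] at g2
      linarith
    have g4 := floor_near (C := 1) g3
    change |((⌊(2 : ℝ) ^ k' i * n i ω⌋ - ⌊(2 : ℝ) ^ k' i * n i ω'⌋ : ℤ) : ℝ)| ≤ 2
    linarith
  have s3 := CH_le_add h0 (fun ω i => Uni.dg (k' i) (n i) ω) B' W
  have s4 := CH_le_add h0 B' B W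
  have s5 : CH p B' (fun ω => (B ω, W ω)) ≤ CH p B' (fun ω => (B ω, V ω)) := by
    refine CH_mono_cond h0 ?_
    intro ω ω' hω hω' h
    have h1 := Prod.ext_iff.mp h
    exact Prod.ext h1.1 (hQ ω ω' hω hω' (hW' ω ω' h1.2).2).2.2.2
  have e12 : 2 * (6 * D) + 3 = 12 * D + 3 := by ring
  have e5 : (2 : ℝ) * 2 + 1 = 5 := by norm_num
  rw [e12] at s1
  rw [e5] at s2
  rw [← hW]
  push_cast at s1 s2
  linarith

/-- The row of the coordinate `i`, without digits, is known up to a constant. -/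
theorem CH_row_zero {S : Type} (hp : IsLaw p) {D : ℝ} (hw : w ≤ J) (hD : 1 ≤ D) (hr : w ≤ r)
    (hU : w ≤ U) (hP : w ≤ P) (hσ : Function.Injective σ)
    (hn : ∀ ω, 0 < p ω → Fnr r U P D (a ω) (s ω) (t ω) (a' ω) (s' ω) (t' ω))
    (Q : F.Ω → S) (hQ : ∀ ω ω', 0 < p ω → 0 < p ω' → Q ω = Q ω' →
      F.ctx σ w r U P a s t ω = F.ctx σ w r U P a s t ω' ∧ F.T ω = F.T ω' ∧
      (a' ω = a' ω' ∧ s' ω = s' ω' ∧ t' ω = t' ω')) (i : Fin 3) :
    CH p (Uni.dg 0 (F.rw3 σ w r U P a s t a' s' t' i)) Q ≤ Real.log (12 * D + 3) := by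
  have key := Lab.CH_int_const hp (Uni.dg 0 (F.rw3 σ w r U P a s t a' s' t' i)) Q
    (c := 6 * D + 1) (by
      intro ω ω' hω hω' h
      obtain ⟨q1, q2, ⟨q3, q4, q5⟩⟩ := hQ ω ω' hω hω' h
      have g1 := ctx_near hw hD hr hU hP (hn ω hω) q1 q2 i
      have g2 : |F.rw3 σ w r U P a s t a' s' t' i ω - F.rw3 σ w r U P a s t a' s' t' i ω'| ≤
          6 * D / 2 ^ 0 := by
        rw [rw3_sub hw hr hU hP q1 hσ q2 q3 q4 q5, abs_mul,
          abs_of_pos (by positivity : (0 : ℝ) < 2 ^ ppr r U P i), pow_zero, div_one]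
        rw [le_div_iff₀ (by positivity)] at g1
        linarith
      exact floor_near g2)
  refine key.trans (le_of_eq ?_)
  congr 1
  ring

/-- **The rows of the first and of the normal coordinate.** -/
theorem CH_rows_en {S S' : Type} (hp : IsLaw p) {D : ℝ} (hw : w ≤ J) (hD : 1 ≤ D) (hr : w ≤ r)
    (hU : w ≤ U) (hP : w ≤ P) (hσ : Function.Injective σ) (k₀ k₀' k₂ k₂' : ℕ)
    (hn : ∀ ω, 0 < p ω → Fnr r U P D (a ω) (s ω) (t ω) (a' ω) (s' ω) (t' ω))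
    (Q : F.Ω → S) (V : F.Ω → S') (hQ : ∀ ω ω', 0 < p ω → 0 < p ω' → Q ω = Q ω' →
      F.ctx σ w r U P a s t ω = F.ctx σ w r U P a s t ω' ∧ F.T ω = F.T ω' ∧
      (a' ω = a' ω' ∧ s' ω = s' ω' ∧ t' ω = t' ω') ∧ V ω = V ω') :
    CH p (fun ω => (Uni.dg k₀' (F.rw3 σ w r U P a s t a' s' t' 0) ω,
        Uni.dg k₂' (F.rw3 σ w r U P a s t a' s' t' 2) ω))
      (fun ω => ((Uni.dg k₀ (F.rw3 σ w r U P a s t a' s' t' 0) ω,
        Uni.dg k₂ (F.rw3 σ w r U P a s t a' s' t' 2) ω), Q ω)) ≤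
    CH p (F.sbx σ (r + k₀') U (P + k₂') a' s' t')
      (fun ω => (F.sbx σ (r + k₀) U (P + k₂) a' s' t' ω, V ω)) +
      (4 * Real.log (12 * D + 3) + 3 * Real.log 5) := by
  have h0 := hp.nonneg
  have key := CH_rows3 hp hw hD hr hU hP hσ ![k₀, 0, k₂] ![k₀', 0, k₂'] hn Q V hQ
  have zer := CH_row_zero hp hw hD hr hU hP hσ hn Q (fun ω ω' h h' e =>
    ⟨(hQ ω ω' h h' e).1, (hQ ω ω' h h' e).2.1, (hQ ω ω' h h' e).2.2.1⟩) 1
  obtain ⟨n, hn'⟩ : ∃ f, f = F.rw3 σ w r U P a s t a' s' t' := ⟨_, rfl⟩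
  rw [← hn'] at key zer ⊢
  change _ ≤ CH p (F.sbx σ (r + k₀') (U + 0) (P + k₂') a' s' t')
      (fun ω => (F.sbx σ (r + k₀) (U + 0) (P + k₂) a' s' t' ω, V ω)) +
      (4 * Real.log (12 * D + 3) + 3 * Real.log 5)
  change _ ≤ CH p (F.sbx σ (r + k₀') (U + 0) (P + k₂') a' s' t')
      (fun ω => (F.sbx σ (r + k₀) (U + 0) (P + k₂) a' s' t' ω, V ω)) +
      (3 * Real.log (12 * D + 3) + 3 * Real.log 5) at key
  have t1 := CH_le_add h0 (fun ω => (Uni.dg k₀' (n 0) ω, Uni.dg k₂' (n 2) ω)) (Uni.dg 0 (n 1))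
    (fun ω => ((Uni.dg k₀ (n 0) ω, Uni.dg k₂ (n 2) ω), Q ω))
  have t2 : CH p (Uni.dg 0 (n 1)) (fun ω => ((Uni.dg k₀ (n 0) ω, Uni.dg k₂ (n 2) ω), Q ω)) ≤
      CH p (Uni.dg 0 (n 1)) Q := CH_mono_cond h0 (fun ω ω' _ _ h => (Prod.ext_iff.mp h).2)
  have t3 : CH p (fun ω => (Uni.dg k₀' (n 0) ω, Uni.dg k₂' (n 2) ω)) (fun ω => (Uni.dg 0 (n 1) ω,
      ((Uni.dg k₀ (n 0) ω, Uni.dg k₂ (n 2) ω), Q ω))) ≤
      CH p (fun ω i => Uni.dg (![k₀', 0, k₂'] i) (n i) ω)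
      (fun ω => (fun i => Uni.dg (![k₀, 0, k₂] i) (n i) ω, Q ω)) := by
    refine (CH_mono_left h0 (X' := fun ω i => Uni.dg (![k₀', 0, k₂'] i) (n i) ω) ?_).trans
      (CH_mono_cond h0 ?_)
    · intro ω ω' _ _ h
      have h1 := (Prod.ext_iff.mp h).1
      exact Prod.ext (congrFun h1 0) (congrFun h1 2)
    · intro ω ω' _ _ h
      have h1 := Prod.ext_iff.mp h
      have h2 := Prod.ext_iff.mp h1.2
      have h3 := Prod.ext_iff.mp h2.1
      refine Prod.ext ?_ h2.2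
      funext i
      fin_cases i
      · exact h3.1
      · exact h1.1
      · exact h3.2
  linarith

end row

end Box

end Pool.KA
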